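import Pool.Agent.H751.PC.Rel

/-!
# Acylindrical actions with infinite edge stabilizers on complexes of nonpositive curvature
-/

set_option autoImplicit false
set_option linter.style.haveILetI false

namespace Pool.Agent.H751.PC

open List

/-- a walk without backtracking, the list of its vertices -/
def Cx.Straight {V : Type} (X : Cx V) (l : List V) : Prop :=
  l.IsChain X.adj ∧ ∀ a b c, [a, b, c] <:+: l → a ≠ c

/-- a class of pairs of groups and subgroups -/
abbrev PairClass := ∀ (H : Type) [Group H], Subgroup H → Prop

/-- the class of pairs is invariant under isomorphisms -/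
def PairClass.IsoInv (C : PairClass) : Prop :=
  ∀ (H K : Type) [Group H] [Group K] (e : H ≃* K) (E : Subgroup H), C H E → C K (E.map e.toMonoidHom)

/-- For all adjacent vertices `a`, `b` the pair consisting of the stabilizer of `a` and the subgroup
that also fixes `b` is in `C`, the stabilizers of the corners of the faces are finite, and the
pointwise stabilizers of walks without backtracking with more than `K` vertices are finite. -/
structure Acyl (C : PairClass) (K : ℕ) (H : Type) {V : Type} [Group H] [MulAction H V]
    (X : Cx V) : Prop where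
  inv : Inv H X
  loc : ∀ a b, X.adj a b →
    C (MulAction.stabilizer H a)
      ((MulAction.stabilizer H b).subgroupOf (MulAction.stabilizer H a))
  corner : ∀ a v b l, X.face (a :: v :: b :: l) → {g : H | g • a = a ∧ g • v = v ∧ g • b = b}.Finite
  path : ∀ l : List V, K < l.length → X.Straight l → {g : H | ∀ v ∈ l, g • v = v}.Finite

/-- `H` acts with finitely many orbits of vertices, edges and faces on a simply connected complex
with the property `P`, and the conditions `Acyl C K` are satisfied. -/
def CofAcyl (P : ∀ (H V : Type) [Group H] [MulAction H V], Cx V → Prop) (C : PairClass) (K : ℕ)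
    (H : Type) [Group H] : Prop :=
  ∃ (V : Type) (_ : MulAction H V) (_ : Nonempty V) (X : Cx V), X.SC ∧ P H V X ∧
    Cofin H X ∧ Acyl C K H X

theorem Imm.straight {V W : Type} {X : Cx V} {Z : Cx W} {f : V → W} (h : Imm X Z f) {l : List V}
    (hl : X.Straight l) : Z.Straight (l.map f) := by
  refine ⟨?_, ?_⟩
  · rw [List.isChain_map]
    exact hl.1.imp (fun a b hab => h.adj a b hab)
  · rintro a b c ⟨s, t, hst⟩ hac
    -- the preimage
    have h1 : ∃ s' a' b' c' t', l = s' ++ [a', b', c'] ++ t' ∧ f a' = a ∧ f b' = b ∧ f c' = c := by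
      have e1 : l.map f = (s ++ [a, b, c]) ++ t := hst.symm
      obtain ⟨l1, l2, rfl, e2, e3⟩ := List.map_eq_append_iff.1 e1
      obtain ⟨l3, l4, rfl, e4, e5⟩ := List.map_eq_append_iff.1 e2
      match l4, e5 with
      | [a', b', c'], e5 =>
        simp only [List.map_cons, List.map_nil, List.cons.injEq, and_true] at e5
        exact ⟨l3, a', b', c', l2, rfl, e5.1, e5.2.1, e5.2.2⟩
    obtain ⟨s', a', b', c', t', rfl, ha, hb, hc⟩ := h1
    have h2 := hl.2 a' b' c' ⟨s', t', rfl⟩
    have h3 : [a', b', c'].IsChain X.adj := by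
      have := hl.1
      rw [List.isChain_append, List.isChain_append] at this
      exact this.1.2.1
    simp only [List.isChain_cons_cons] at h3
    exact h2 (h.inj b' a' c' (X.symm _ _ h3.1) h3.2.1 (by rw [ha, hc, hac]))

section

variable {V G : Type} [Group G] [MulAction G V]

theorem cov_acyl {C : PairClass} (hC : C.IsoInv) {K : ℕ} {X : Cx V} (h : Acyl C K G X)
    (i : Finset (V × V) × Finset (List V)) (o : V) :
    letI := gtGroup (sub_inv h.inv i) o
    letI := gtAct (sub_inv h.inv i) o
    Acyl C K (Gt G (sub G X i) o) (cov (sub G X i) o) := by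
  letI := gtGroup (sub_inv h.inv i) o
  letI := gtAct (sub_inv h.inv i) o
  have hI := sub_inv h.inv i
  refine ⟨gt_inv hI o, ?_, ?_, ?_⟩
  · intro a b hab
    have h1 := h.loc a.pt b.pt hab.1.1
    have h2 := hC _ _ (gtStab hI o a).symm _ h1
    convert h2 using 1
    ext x
    rw [Subgroup.mem_subgroupOf, Subgroup.mem_map]
    constructor
    · intro hx
      refine ⟨gtStab hI o a x, ?_, ?_⟩
      · rw [Subgroup.mem_subgroupOf]
        have h3 : x.1 • b = b := hx
        have h4 : x.1.g • b.pt = b.pt := congrArg (fun q : Cov (sub G X i) o => q.pt) h3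
        exact h4
      · exact (gtStab hI o a).symm_apply_apply x
    · rintro ⟨y, hy, rfl⟩
      rw [Subgroup.mem_subgroupOf] at hy
      change ((gtStab hI o a).symm y).1 • b = b
      set x := (gtStab hI o a).symm y with hx
      have hxy : gtStab hI o a x = y := by rw [hx]; exact (gtStab hI o a).apply_symm_apply y
      have h5 : x.1.g • b.pt = b.pt := by
        have : x.1.g = y.1 := congrArg Subtype.val hxy
        rw [this]
        exact hy
      have h6 : x.1 • a = a := x.2
      have h7 : cadj (sub G X i) o a (x.1 • b) := by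
        have := (gt_inv hI o).adj x.1 a b hab
        rwa [h6] at this
      exact (cov_imm (sub G X i) X o (sub_le X i)).inj a _ _ h7 hab h5
  · intro a v b l hf
    refine Set.Finite.of_finite_image (f := fun x : Gt G (sub G X i) o => x.g)
      ((h.corner a.pt v.pt b.pt (l.map (fun p => p.pt)) (by simpa using hf.1.1)).subset ?_) ?_
    · rintro _ ⟨x, ⟨h1, h2, h3⟩, rfl⟩
      exact ⟨congrArg (fun q : Cov (sub G X i) o => q.pt) h1,
        congrArg (fun q : Cov (sub G X i) o => q.pt) h2,
        congrArg (fun q : Cov (sub G X i) o => q.pt) h3⟩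
    · intro x hx y hy hxy
      exact gt_det hI o x y a hxy (hx.1.trans hy.1.symm)
  · intro l hK hl
    have hs := (cov_imm (sub G X i) X o (sub_le X i)).straight hl
    refine Set.Finite.of_finite_image (f := fun x : Gt G (sub G X i) o => x.g)
      ((h.path (l.map (fun p => p.pt)) (by simpa using hK) hs).subset ?_) ?_
    · rintro _ ⟨x, hx, rfl⟩ v hv
      obtain ⟨p, hp, rfl⟩ := List.mem_map.1 hv
      exact congrArg (fun q : Cov (sub G X i) o => q.pt) (hx p hp)
    · intro x hx y hy hxy
      match l, hK with
      | p :: l, _ =>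
        exact gt_det hI o x y p hxy ((hx p (by simp)).trans (hy p (by simp)).symm)

/-- **Acylindrical actions.** -/
theorem acyl_main {P : ∀ (H V : Type) [Group H] [MulAction H V], Cx V → Prop} (hP : Hered P)
    {C : PairClass} (hC : C.IsoInv) {K : ℕ} [Nonempty V] (X : Cx V) (hX : X.SC)
    (hPX : P G V X) (hA : Acyl C K G X) :
    DirColim (fun H _ => CofAcyl P C K H) G := by
  let o : V := Classical.arbitrary V
  refine colim_sub X hA.inv hX o ?_
  intro i
  letI := gtGroup (sub_inv hA.inv i) o
  letI := gtAct (sub_inv hA.inv i) o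
  haveI : Nonempty (Cov (sub G X i) o) := ⟨base _ o⟩
  refine ⟨Cov (sub G X i) o, gtAct (sub_inv hA.inv i) o, inferInstance, cov (sub G X i) o,
    cov_sc (sub G X i) o, ?_, cov_cofin hA.inv i o, cov_acyl hC hA i o⟩
  exact hP G V (Gt G (sub G X i) o) (Cov (sub G X i) o) X (cov (sub G X i) o)
    (fun x => x.g) (fun p => p.pt) (fun x p => rfl) (cov_imm (sub G X i) X o (sub_le X i)) hPX

end

/-- Strictly negative curvature at the vertices: the complex with the invariant lengths `len` and
the invariant angles `ang` is piecewise Euclidean of nonpositive curvature, and the angles along each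
closed path of length at least three in the link of a vertex have a sum larger than `2 π`. -/
def StrictFlat (H V : Type) [Group H] [MulAction H V] (X : Cx V) : Prop :=
  ∃ (len : V → V → ℝ) (ang : V → V → V → ℝ), Flat X len ang ∧ InvMetric H len ang ∧
    ∀ (v : V) (m : ℕ) (x : ℕ → V), 3 ≤ m → x m = x 0 →
      (∀ i < m, ∀ j < m, x i = x j → i = j) →
      (∀ i < m, ∃ l, X.face (x i :: v :: x (i + 1) :: l)) →
      2 * Real.pi < ∑ i ∈ Finset.range m, ang (x i) v (x (i + 1))

theorem strictFlat_hered : Hered StrictFlat := by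
  intro H V K W _ _ _ _ X Y φ f hφ hf hX
  obtain ⟨len, ang, hF, hM, hS⟩ := hX
  refine ⟨fun a b => len (f a) (f b), fun a v b => ang (f a) (f v) (f b), hF.pull hf,
    ⟨?_, ?_⟩, ?_⟩
  · intro k a b
    rw [hφ, hφ]
    exact hM.len _ _ _
  · intro k a v b
    rw [hφ, hφ, hφ]
    exact hM.ang _ _ _ _
  · intro v m x hm hx hinj hl
    have hadj : ∀ i < m, Y.adj v (x i) := by
      intro i hi
      obtain ⟨l, hl⟩ := hl i hi
      exact Y.symm _ _ (Y.edge _ _ _ hl)
    refine hS (f v) m (fun i => f (x i)) hm (by rw [hx]) ?_ ?_
    · intro i hi j hj e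
      exact hinj i hi j hj (hf.inj v _ _ (hadj i hi) (hadj j hj) e)
    · intro i hi
      obtain ⟨l, hl⟩ := hl i hi
      exact ⟨l.map f, by simpa using hf.face _ hl⟩

end Pool.Agent.H751.PC
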