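import Mathlib

/-!
# Polygonal complexes, simple connectivity, and the universal group of a polygonal complex
-/

set_option autoImplicit false

namespace Pool.Agent.H751.PC

open List

/-- the product of the values of `φ` along the walk with the given list of vertices -/
def along {V Q : Type} [Mul Q] [One Q] (φ : V → V → Q) : List V → Q
  | [] => 1
  | [_] => 1
  | a :: b :: l => φ a b * along φ (b :: l)

/-- a polygonal complex with the vertices `V`: a graph without loops and multiple edges, and faces;
`face [a₁, …, aₙ]` means that there is a face with the boundary `a₁, …, aₙ, a₁` (an embedded closed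
path of length `n ≥ 3`). -/
structure Cx (V : Type) where
  adj : V → V → Prop
  face : List V → Prop
  symm : ∀ a b, adj a b → adj b a
  irr : ∀ a, ¬ adj a a
  rot : ∀ l l', l ~r l' → face l → face l'
  rev : ∀ l, face l → face l.reverse
  three : ∀ l, face l → 3 ≤ l.length
  nodup : ∀ l, face l → l.Nodup
  edge : ∀ a b l, face (a :: b :: l) → adj a b

/-- the complex is simply connected: it is connected, and every function on the oriented edges with
values in a group which is trivial along backtracks and along the boundaries of the faces is a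
coboundary. -/
structure Cx.SC {V : Type} (X : Cx V) : Prop where
  conn : ∀ a b, Relation.ReflTransGen X.adj a b
  triv : ∀ (Q : Type) [Group Q] (φ : V → V → Q),
    (∀ a b, X.adj a b → φ a b * φ b a = 1) →
    (∀ a l, X.face (a :: l) → along φ (a :: (l ++ [a])) = 1) →
    ∃ f : V → Q, ∀ a b, X.adj a b → φ a b = (f a)⁻¹ * f b

section along

variable {V Q R : Type} [Group Q] [Group R]

@[simp] theorem along_nil (φ : V → V → Q) : along φ [] = 1 := rfl
@[simp] theorem along_single (φ : V → V → Q) (a : V) : along φ [a] = 1 := rfl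
@[simp] theorem along_cons (φ : V → V → Q) (a b : V) (l : List V) :
    along φ (a :: b :: l) = φ a b * along φ (b :: l) := rfl

theorem map_along (f : Q →* R) (φ : V → V → Q) : ∀ l : List V,
    f (along φ l) = along (fun a b => f (φ a b)) l
  | [] => by simp
  | [a] => by simp
  | a :: b :: l => by
    simp only [along_cons, map_mul]
    rw [map_along f φ (b :: l)]

theorem along_map {W : Type} (g : V → W) (φ : W → W → Q) : ∀ l : List V,
    along φ (l.map g) = along (fun a b => φ (g a) (g b)) l
  | [] => by simp
  | [a] => by simp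
  | a :: b :: l => by
    have := along_map g φ (b :: l)
    simp only [List.map_cons] at this ⊢
    rw [along_cons, along_cons, this]

theorem along_congr {φ ψ : V → V → Q} {r : V → V → Prop} (h : ∀ a b, r a b → φ a b = ψ a b) :
    ∀ l : List V, l.IsChain r → along φ l = along ψ l
  | [], _ => rfl
  | [_], _ => rfl
  | a :: b :: l, hc => by
    rw [List.isChain_cons_cons] at hc
    rw [along_cons, along_cons, h _ _ hc.1, along_congr h (b :: l) hc.2]

/-- a coboundary has the product `(f x)⁻¹ * f y` along a walk from `x` to `y` -/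
theorem along_cob (f : V → Q) : ∀ (l : List V) (a : V),
    along (fun x y => (f x)⁻¹ * f y) (a :: l) = (f a)⁻¹ * f ((a :: l).getLast (by simp))
  | [], a => by simp
  | b :: l, a => by
    rw [along_cons, along_cob f l b]
    rw [List.getLast_cons_cons]
    group

end along

section cyc

variable {V : Type}

/-- all consecutive pairs of the closed sequence `l` are in the relation `r` -/
def Cyc (r : V → V → Prop) (l : List V) : Prop := ∀ a b m, l ~r (a :: b :: m) → r a b

theorem Cyc.rot {r : V → V → Prop} {l l' : List V} (h : Cyc r l) (hl : l ~r l') : Cyc r l' :=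
  fun a b m hm => h a b m (hl.trans hm)

theorem Cyc.rev {r : V → V → Prop} (hs : ∀ a b, r a b → r b a) {l : List V} (h : Cyc r l) :
    Cyc r l.reverse := by
  intro a b m hm
  apply hs
  apply h b a m.reverse
  have h1 := hm.reverse
  rw [List.reverse_reverse] at h1
  refine h1.trans ?_
  have : (a :: b :: m).reverse = m.reverse ++ [b, a] := by simp
  rw [this]
  exact List.isRotated_append

theorem Cyc.chain {r : V → V → Prop} {a : V} {l : List V} (hl : l ≠ []) (h : Cyc r (a :: l)) :
    (a :: (l ++ [a])).IsChain r := by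
  rw [List.isChain_iff_getElem]
  intro i hi
  have hlen : (a :: (l ++ [a])).length = l.length + 2 := by simp
  have hpos : 0 < l.length := List.length_pos_iff.2 hl
  have hi' : i < (a :: l).length := by simp; omega
  have key : ∀ j (hj : j < (a :: l).length), (a :: (l ++ [a]))[j]'(by simp at hj ⊢; omega) =
      (a :: l)[j] := by
    intro j hj
    have : a :: (l ++ [a]) = (a :: l) ++ [a] := by simp
    simp only [this]
    rw [List.getElem_append_left hj]
  rw [key i hi']
  -- the rotation by i
  have hrot : (a :: l).drop i ++ (a :: l).take i = (a :: l).rotate i := by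
    rw [List.rotate_eq_drop_append_take (by omega)]
  have hr : (a :: l) ~r ((a :: l).drop i ++ (a :: l).take i) := by
    rw [hrot]; exact ⟨i, rfl⟩
  rw [List.drop_eq_getElem_cons hi'] at hr
  by_cases hlast : i + 1 < (a :: l).length
  · rw [key (i + 1) hlast]
    rw [List.drop_eq_getElem_cons hlast, List.cons_append, List.cons_append] at hr
    exact h _ _ _ hr
  · have hieq : i = l.length := by simp at hlast hi'; omega
    subst hieq
    have e1 : (a :: l).drop (l.length + 1) = [] := by simp
    have e2 : (a :: (l ++ [a]))[l.length + 1]'hi = a := by simp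
    rw [e2]
    rw [e1] at hr
    obtain ⟨b, l', rfl⟩ := List.exists_cons_of_ne_nil hl
    have e3 : (a :: b :: l').take (b :: l').length = a :: (b :: l').take l'.length := by simp
    rw [e3] at hr
    exact h _ _ _ (by simpa using hr)

theorem cyc_of_chain {r : V → V → Prop} {a : V} {l : List V} (h : (a :: (l ++ [a])).IsChain r) :
    Cyc r (a :: l) := by
  intro x y m hm
  obtain ⟨n, hn, hr⟩ := List.isRotated_iff_mod.1 hm
  rw [List.rotate_eq_drop_append_take hn] at hr
  have hsplit : (a :: l).take n ++ (a :: l).drop n = a :: l := List.take_append_drop _ _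
  generalize (a :: l).take n = p at hr hsplit
  generalize (a :: l).drop n = q at hr hsplit
  have hw : a :: (l ++ [a]) = p ++ q ++ [a] := by rw [hsplit]; simp
  rw [hw] at h
  match q, hr with
  | [], hr =>
    simp only [List.nil_append] at hr
    subst hr
    simp only [List.append_nil, List.cons_append, List.isChain_cons_cons] at h
    exact h.1
  | [z], hr =>
    simp only [List.cons_append, List.nil_append, List.cons.injEq] at hr
    obtain ⟨rfl, rfl⟩ := hr
    have ha : a = y := by
      have := congrArg List.head? hsplit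
      simpa using this.symm
    subst ha
    have : (a :: m) ++ [z] ++ [a] = (a :: m) ++ ([z, a]) := by simp
    rw [this, List.isChain_append] at h
    have h2 := h.2.1
    simpa using h2
  | z :: z' :: q', hr =>
    simp only [List.cons_append, List.cons.injEq] at hr
    obtain ⟨rfl, rfl, _⟩ := hr
    have : p ++ z :: z' :: q' ++ [a] = p ++ (z :: z' :: (q' ++ [a])) := by simp
    rw [this, List.isChain_append] at h
    have h2 := h.2.1
    rw [List.isChain_cons_cons] at h2
    exact h2.1

end cyc

namespace Cx

variable {V : Type} (X : Cx V)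

theorem face_cyc {l : List V} (h : X.face l) : Cyc X.adj l :=
  fun a b m hm => X.edge a b m (X.rot _ _ hm h)

theorem face_chain {a : V} {l : List V} (h : X.face (a :: l)) :
    (a :: (l ++ [a])).IsChain X.adj := by
  refine (X.face_cyc h).chain ?_
  rintro rfl
  have := X.three _ h
  simp at this

end Cx

/-! ## the universal group -/

section pi

variable {V : Type}

/-- the relations -/
def rels (Y : Cx V) : Set (FreeGroup (V × V)) :=
  {w | ∃ a b, Y.adj a b ∧ w = FreeGroup.of (a, b) * FreeGroup.of (b, a)} ∪
  {w | ∃ a l, Y.face (a :: l) ∧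
    w = along (fun a b => FreeGroup.of (a, b)) (a :: (l ++ [a]))}

/-- the universal group -/
abbrev Pg (Y : Cx V) : Type := PresentedGroup (rels Y)

/-- the edges -/
def ed (Y : Cx V) (a b : V) : Pg Y := PresentedGroup.of (a, b)

theorem ed_ed (Y : Cx V) {a b : V} (h : Y.adj a b) : ed Y a b * ed Y b a = 1 := by
  have : (FreeGroup.of (a, b) * FreeGroup.of (b, a)) ∈ rels Y := Or.inl ⟨a, b, h, rfl⟩
  exact PresentedGroup.one_of_mem this

theorem ed_face (Y : Cx V) {a : V} {l : List V} (h : Y.face (a :: l)) :
    along (ed Y) (a :: (l ++ [a])) = 1 := by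
  have h1 : along (fun a b => FreeGroup.of (a, b)) (a :: (l ++ [a])) ∈ rels Y :=
    Or.inr ⟨a, l, h, rfl⟩
  have h2 := PresentedGroup.one_of_mem h1
  have h3 := map_along (PresentedGroup.mk (rels Y)) (fun a b : V => FreeGroup.of (a, b))
    (a :: (l ++ [a]))
  rw [← h2]
  exact h3.symm

/-- homomorphisms out of the universal group -/
def out (Y : Cx V) {Q : Type} [Group Q] (φ : V → V → Q)
    (h1 : ∀ a b, Y.adj a b → φ a b * φ b a = 1)
    (h2 : ∀ a l, Y.face (a :: l) → along φ (a :: (l ++ [a])) = 1) : Pg Y →* Q :=
  PresentedGroup.toGroup (f := fun p : V × V => φ p.1 p.2) (by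
    rintro r (⟨a, b, h, rfl⟩ | ⟨a, l, h, rfl⟩)
    · simpa using h1 a b h
    · rw [map_along]
      simpa using h2 a l h)

@[simp] theorem out_ed (Y : Cx V) {Q : Type} [Group Q] (φ : V → V → Q)
    (h1 : ∀ a b, Y.adj a b → φ a b * φ b a = 1)
    (h2 : ∀ a l, Y.face (a :: l) → along φ (a :: (l ++ [a])) = 1) (a b : V) :
    out Y φ h1 h2 (ed Y a b) = φ a b := by
  unfold out ed
  rw [PresentedGroup.toGroup.of]

theorem hom_ext {Y : Cx V} {Q : Type} [Group Q] {f g : Pg Y →* Q}
    (h : ∀ a b, f (ed Y a b) = g (ed Y a b)) : f = g :=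
  PresentedGroup.ext (rels := rels Y) (fun p : V × V => h p.1 p.2)

end pi

/-! ## reachability -/

section reach

variable {V : Type}

/-- there is a walk from `u` to `v` whose product is `γ` -/
inductive Reach (Y : Cx V) (u : V) : V → Pg Y → Prop
  | refl : Reach Y u u 1
  | step {v w : V} {γ : Pg Y} : Reach Y u v γ → Y.adj v w → Reach Y u w (γ * ed Y v w)

theorem Reach.trans {Y : Cx V} {u v w : V} {γ δ : Pg Y} (h : Reach Y u v γ) (h' : Reach Y v w δ) :
    Reach Y u w (γ * δ) := by
  induction h' with
  | refl => simpa using h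
  | step _ ha ih =>
    rw [← mul_assoc]
    exact ih.step ha

theorem Reach.symm {Y : Cx V} {u v : V} {γ : Pg Y} (h : Reach Y u v γ) : Reach Y v u γ⁻¹ := by
  induction h with
  | refl => simpa using Reach.refl
  | @step v w γ _ ha ih =>
    have h1 : Reach Y w v (ed Y w v) := by
      have := (Reach.refl (Y := Y) (u := w)).step (Y.symm _ _ ha)
      simpa using this
    have h2 := h1.trans ih
    have h3 : ed Y w v * γ⁻¹ = (γ * ed Y v w)⁻¹ := by
      rw [mul_inv_rev]
      congr 1
      exact (inv_eq_of_mul_eq_one_right (ed_ed Y ha)).symm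
    rwa [h3] at h2

theorem Reach.of_adj {Y : Cx V} {u v : V} (h : Y.adj u v) : Reach Y u v (ed Y u v) := by
  have := (Reach.refl (Y := Y) (u := u)).step h
  simpa using this

/-- subcomplexes -/
structure Le (Y Z : Cx V) : Prop where
  adj : ∀ a b, Y.adj a b → Z.adj a b
  face : ∀ l, Y.face l → Z.face l

/-- the homomorphism of universal groups given by an inclusion -/
def incl {Y Z : Cx V} (h : Le Y Z) : Pg Y →* Pg Z :=
  out Y (ed Z) (fun a b hab => ed_ed Z (h.adj a b hab)) (fun _ _ hf => ed_face Z (h.face _ hf))

@[simp] theorem incl_ed {Y Z : Cx V} (h : Le Y Z) (a b : V) : incl h (ed Y a b) = ed Z a b :=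
  out_ed _ _ _ _ _ _

theorem Reach.incl {Y Z : Cx V} (h : Le Y Z) {u v : V} {γ : Pg Y} (hr : Reach Y u v γ) :
    Reach Z u v (PC.incl h γ) := by
  induction hr with
  | refl => simpa using Reach.refl
  | step _ ha ih =>
    rw [map_mul, incl_ed]
    exact ih.step (h.adj _ _ ha)

theorem incl_incl {Y Z W : Cx V} (h : Le Y Z) (h' : Le Z W) (h'' : Le Y W) (x : Pg Y) :
    incl h' (incl h x) = incl h'' x := by
  have : (incl h').comp (incl h) = incl h'' := hom_ext (by intro a b; simp)
  exact DFunLike.congr_fun this x

theorem incl_self {Y : Cx V} (h : Le Y Y) (x : Pg Y) : incl h x = x := by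
  have : incl h = MonoidHom.id _ := hom_ext (by intro a b; simp)
  exact DFunLike.congr_fun this x

end reach

/-! ## group actions -/

section action

variable {V G : Type} [Group G] [MulAction G V]

/-- the complex is invariant under the group -/
structure Inv (G : Type) {V : Type} [Group G] [MulAction G V] (Y : Cx V) : Prop where
  adj : ∀ (g : G) a b, Y.adj a b → Y.adj (g • a) (g • b)
  face : ∀ (g : G) l, Y.face l → Y.face (l.map (g • ·))

/-- the action on the universal group -/
def ac {Y : Cx V} (hI : Inv G Y) (g : G) : Pg Y →* Pg Y :=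
  out Y (fun a b => ed Y (g • a) (g • b)) (fun a b hab => ed_ed Y (hI.adj g a b hab))
    (fun a l hf => by
      have h1 := hI.face g _ hf
      have h2 := ed_face Y (a := g • a) (l := l.map (g • ·)) (by simpa using h1)
      have h3 := along_map (fun x : V => g • x) (ed Y) (a :: (l ++ [a]))
      rw [← h3]
      simpa using h2)

@[simp] theorem ac_ed {Y : Cx V} (hI : Inv G Y) (g : G) (a b : V) :
    ac hI g (ed Y a b) = ed Y (g • a) (g • b) := out_ed _ _ _ _ _ _

theorem ac_mul {Y : Cx V} (hI : Inv G Y) (g h : G) (x : Pg Y) :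
    ac hI (g * h) x = ac hI g (ac hI h x) := by
  have : ac hI (g * h) = (ac hI g).comp (ac hI h) := hom_ext (by intro a b; simp [mul_smul])
  exact DFunLike.congr_fun this x

theorem ac_one {Y : Cx V} (hI : Inv G Y) (x : Pg Y) : ac hI (1 : G) x = x := by
  have : ac hI (1 : G) = MonoidHom.id _ := hom_ext (by intro a b; simp)
  exact DFunLike.congr_fun this x

theorem Reach.ac {Y : Cx V} (hI : Inv G Y) (g : G) {u v : V} {γ : Pg Y} (hr : Reach Y u v γ) :
    Reach Y (g • u) (g • v) (PC.ac hI g γ) := by
  induction hr with
  | refl => simpa using Reach.refl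
  | step _ ha ih =>
    rw [map_mul, ac_ed]
    exact ih.step (hI.adj _ _ _ ha)

theorem incl_ac {Y Z : Cx V} (hY : Inv G Y) (hZ : Inv G Z) (h : Le Y Z) (g : G) (x : Pg Y) :
    incl h (ac hY g x) = ac hZ g (incl h x) := by
  have : (incl h).comp (ac hY g) = (ac hZ g).comp (incl h) := hom_ext (by intro a b; simp)
  exact DFunLike.congr_fun this x

/-- the group of the lifts to the universal covering of `Y` (based at `o`) of the elements of `G` -/
structure Gt (G : Type) {V : Type} [Group G] [MulAction G V] (Y : Cx V) (o : V) : Type where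
  g : G
  γ : Pg Y
  r : Reach Y o (g • o) γ

theorem Gt.ext' {Y : Cx V} {o : V} {x y : Gt G Y o} (h1 : x.g = y.g) (h2 : x.γ = y.γ) : x = y := by
  cases x; cases y; simp only at h1 h2; subst h1; subst h2; rfl

/-- the group structure -/
@[reducible] def gtGroup {Y : Cx V} (hI : Inv G Y) (o : V) : Group (Gt G Y o) :=
  letI : Mul (Gt G Y o) := ⟨fun x y => ⟨x.g * y.g, x.γ * ac hI x.g y.γ, by
    rw [mul_smul]
    exact x.r.trans (y.r.ac hI x.g)⟩⟩
  letI : One (Gt G Y o) := ⟨⟨1, 1, by rw [one_smul]; exact Reach.refl⟩⟩
  letI : _root_.Inv (Gt G Y o) := ⟨fun x => ⟨x.g⁻¹, ac hI x.g⁻¹ x.γ⁻¹, by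
    have := (x.r.symm).ac hI x.g⁻¹
    rwa [inv_smul_smul] at this⟩⟩
  Group.ofLeftAxioms
    (fun x y z => Gt.ext' (mul_assoc x.g y.g z.g) (by
      change x.γ * ac hI x.g y.γ * ac hI (x.g * y.g) z.γ =
        x.γ * ac hI x.g (y.γ * ac hI y.g z.γ)
      rw [ac_mul, map_mul, mul_assoc]))
    (fun x => Gt.ext' (one_mul x.g) (by
      change 1 * ac hI (1 : G) x.γ = x.γ
      rw [ac_one, one_mul]))
    (fun x => Gt.ext' (inv_mul_cancel x.g) (by
      change ac hI x.g⁻¹ x.γ⁻¹ * ac hI x.g⁻¹ x.γ = 1
      rw [← map_mul]
      simp))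

end action

end Pool.Agent.H751.PC
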