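import Pool.Agent.H751.PC.Cover

/-!
# A group acting on a simply connected complex is the colimit of the groups of lifts
-/

set_option autoImplicit false
set_option linter.style.haveILetI false

namespace Pool.Agent.H751.PC

open List

/-- `G` is the colimit of a directed system of groups with the property `D`: there are groups `H i`
with the property `D`, indexed by a nonempty directed preordered set, compatible homomorphisms
`f i j : H i → H j` for `i ≤ j` and compatible homomorphisms `g i : H i → G` whose images cover `G`,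
and every element of the kernel of `g i` is mapped to `1` by some `f i j`. -/
def DirColim (D : ∀ (H : Type) [Group H], Prop) (G : Type) [Group G] : Prop :=
  ∃ (I : Type) (_ : Preorder I) (_ : Nonempty I) (H : I → Type) (_ : ∀ i, Group (H i))
    (f : ∀ i j, i ≤ j → H i →* H j) (g : ∀ i, H i →* G),
    (∀ i j : I, ∃ k, i ≤ k ∧ j ≤ k) ∧
    (∀ i (h : i ≤ i) (x : H i), f i i h x = x) ∧
    (∀ i j k (h : i ≤ j) (h' : j ≤ k) (x : H i), f j k h' (f i j h x) = f i k (h.trans h') x) ∧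
    (∀ i j (h : i ≤ j) (x : H i), g j (f i j h x) = g i x) ∧
    (∀ y : G, ∃ i, ∃ x : H i, g i x = y) ∧
    (∀ i (x : H i), g i x = 1 → ∃ j, ∃ h : i ≤ j, f i j h x = 1) ∧
    (∀ i, D (H i))

/-! ## normal closures of directed unions -/

section nc

variable {A : Type} [Group A]

theorem mem_normalClosure_directed {I : Type} [Nonempty I] (R : I → Set A)
    (hdir : ∀ i j, ∃ k, R i ⊆ R k ∧ R j ⊆ R k) {x : A}
    (hx : x ∈ Subgroup.normalClosure (⋃ i, R i)) : ∃ i, x ∈ Subgroup.normalClosure (R i) := by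
  let N : Subgroup A :=
    { carrier := {x | ∃ i, x ∈ Subgroup.normalClosure (R i)}
      one_mem' := ⟨Classical.arbitrary I, Subgroup.one_mem _⟩
      mul_mem' := by
        rintro a b ⟨i, hi⟩ ⟨j, hj⟩
        obtain ⟨k, h1, h2⟩ := hdir i j
        exact ⟨k, Subgroup.mul_mem _ (Subgroup.normalClosure_mono h1 hi)
          (Subgroup.normalClosure_mono h2 hj)⟩
      inv_mem' := by
        rintro a ⟨i, hi⟩
        exact ⟨i, Subgroup.inv_mem _ hi⟩ }
  have hN : N.Normal := ⟨by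
    rintro n ⟨i, hi⟩ g
    exact ⟨i, (Subgroup.normalClosure_normal).conj_mem n hi g⟩⟩
  have h1 : Subgroup.normalClosure (⋃ i, R i) ≤ N := by
    apply Subgroup.normalClosure_le_normal
    intro y hy
    obtain ⟨i, hi⟩ := Set.mem_iUnion.1 hy
    exact ⟨i, Subgroup.subset_normalClosure hi⟩
  exact h1 hx

end nc

section main

variable {V G : Type} [Group G] [MulAction G V]

theorem rels_mono {Y Z : Cx V} (h : Le Y Z) : rels Y ⊆ rels Z := by
  rintro w (⟨a, b, hab, rfl⟩ | ⟨a, l, hf, rfl⟩)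
  · exact Or.inl ⟨a, b, h.adj _ _ hab, rfl⟩
  · exact Or.inr ⟨a, l, h.face _ hf, rfl⟩

theorem incl_mk {Y Z : Cx V} (h : Le Y Z) (w : FreeGroup (V × V)) :
    incl h (PresentedGroup.mk (rels Y) w) = PresentedGroup.mk (rels Z) w := by
  have : (incl h).comp (PresentedGroup.mk (rels Y)) = PresentedGroup.mk (rels Z) := by
    apply FreeGroup.ext_hom
    rintro ⟨a, b⟩
    exact incl_ed h a b
  exact DFunLike.congr_fun this w

theorem mk_eq_one {Y : Cx V} (w : FreeGroup (V × V)) :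
    PresentedGroup.mk (rels Y) w = 1 ↔ w ∈ Subgroup.normalClosure (rels Y) :=
  QuotientGroup.eq_one_iff w

/-- in a simply connected complex the closed walks are trivial in the universal group -/
theorem reach_trivial {X : Cx V} (hX : X.SC) {u : V} {γ : Pg X} (h : Reach X u u γ) : γ = 1 := by
  obtain ⟨f, hf⟩ := hX.triv (Pg X) (ed X) (fun a b hab => ed_ed X hab)
    (fun a l hl => ed_face X hl)
  have key : ∀ (v : V) (γ : Pg X), Reach X u v γ → γ = (f u)⁻¹ * f v := by
    intro v γ hr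
    induction hr with
    | refl => simp
    | step hr ha ih =>
      rw [ih, hf _ _ ha]
      group
  simpa using key u γ h

/-- the transition homomorphisms -/
def tr {Y Z : Cx V} (hY : Inv G Y) (hZ : Inv G Z) (h : Le Y Z) (o : V) :
    letI := gtGroup hY o; letI := gtGroup hZ o; Gt G Y o →* Gt G Z o :=
  letI := gtGroup hY o
  letI := gtGroup hZ o
  MonoidHom.mk' (fun x => ⟨x.g, incl h x.γ, x.r.incl h⟩) (by
    intro x y
    apply Gt.ext'
    · rfl
    · change incl h (x.γ * ac hY x.g y.γ) = incl h x.γ * ac hZ x.g (incl h y.γ)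
      rw [map_mul, incl_ac hY hZ])

/-- the projection to `G` -/
def pj {Y : Cx V} (hY : Inv G Y) (o : V) : letI := gtGroup hY o; Gt G Y o →* G :=
  letI := gtGroup hY o
  MonoidHom.mk' (fun x => x.g) (by intro x y; rfl)

theorem tr_g {Y Z : Cx V} (hY : Inv G Y) (hZ : Inv G Z) (h : Le Y Z) (o : V) (x : Gt G Y o) :
    letI := gtGroup hY o; letI := gtGroup hZ o; (tr hY hZ h o x).g = x.g := rfl

theorem tr_γ {Y Z : Cx V} (hY : Inv G Y) (hZ : Inv G Z) (h : Le Y Z) (o : V) (x : Gt G Y o) :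
    letI := gtGroup hY o; letI := gtGroup hZ o; (tr hY hZ h o x).γ = incl h x.γ := rfl

theorem pj_apply {Y : Cx V} (hY : Inv G Y) (o : V) (x : Gt G Y o) :
    letI := gtGroup hY o; pj hY o x = x.g := rfl

theorem one_g {Y : Cx V} (hY : Inv G Y) (o : V) :
    letI := gtGroup hY o; (1 : Gt G Y o).g = 1 := rfl

theorem one_γ {Y : Cx V} (hY : Inv G Y) (o : V) :
    letI := gtGroup hY o; (1 : Gt G Y o).γ = 1 := rfl

theorem tr_self {Y : Cx V} (hY : Inv G Y) (h : Le Y Y) (o : V) (x : Gt G Y o) :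
    letI := gtGroup hY o; tr hY hY h o x = x := by
  apply Gt.ext'
  · rw [tr_g]
  · rw [tr_γ, incl_self]

theorem tr_tr {Y Z W : Cx V} (hY : Inv G Y) (hZ : Inv G Z) (hW : Inv G W) (h : Le Y Z)
    (h' : Le Z W) (h'' : Le Y W) (o : V) (x : Gt G Y o) :
    letI := gtGroup hY o; letI := gtGroup hZ o; letI := gtGroup hW o;
    tr hZ hW h' o (tr hY hZ h o x) = tr hY hW h'' o x := by
  apply Gt.ext'
  · rw [tr_g, tr_g, tr_g]
  · rw [tr_γ, tr_γ, tr_γ, incl_incl h h' h'']

theorem pj_tr {Y Z : Cx V} (hY : Inv G Y) (hZ : Inv G Z) (h : Le Y Z) (o : V) (x : Gt G Y o) :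
    letI := gtGroup hY o; letI := gtGroup hZ o; pj hZ o (tr hY hZ h o x) = pj hY o x := by
  rw [pj_apply, pj_apply, tr_g]

section fam

variable {X : Cx V} {I : Type} [Preorder I] [Nonempty I] {Y : I → Cx V}

/-- surjectivity of the limit map -/
theorem fam_surj (hX : X.SC) (o : V) (dir : ∀ i j : I, ∃ k, i ≤ k ∧ j ≤ k)
    (mono : ∀ i j, i ≤ j → Le (Y i) (Y j))
    (hadj : ∀ a b, X.adj a b → ∃ i, (Y i).adj a b) (y : G) :
    ∃ i, ∃ x : Gt G (Y i) o, x.g = y := by
  have key : ∀ w, Relation.ReflTransGen X.adj o w → ∃ i, ∃ γ, Reach (Y i) o w γ := by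
    intro w hw
    induction hw with
    | refl => exact ⟨Classical.arbitrary I, 1, Reach.refl⟩
    | @tail b c _ hbc ih =>
      obtain ⟨i, γ, hr⟩ := ih
      obtain ⟨j, hj⟩ := hadj _ _ hbc
      obtain ⟨k, hik, hjk⟩ := dir i j
      exact ⟨k, _, (hr.incl (mono i k hik)).step ((mono j k hjk).adj _ _ hj)⟩
  obtain ⟨i, γ, hr⟩ := key (y • o) (hX.conn _ _)
  exact ⟨i, ⟨y, γ, hr⟩, rfl⟩

theorem fam_ker (hX : X.SC) (o : V) (dir : ∀ i j : I, ∃ k, i ≤ k ∧ j ≤ k)
    (mono : ∀ i j, i ≤ j → Le (Y i) (Y j)) (hle : ∀ i, Le (Y i) X)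
    (hadj : ∀ a b, X.adj a b → ∃ i, (Y i).adj a b)
    (hface : ∀ l, X.face l → ∃ i, (Y i).face l) (i : I) (γ : Pg (Y i))
    (hr : Reach (Y i) o o γ) : ∃ k, ∃ h : i ≤ k, incl (mono i k h) γ = 1 := by
  have h1 : incl (hle i) γ = 1 := reach_trivial hX (hr.incl (hle i))
  obtain ⟨w, hw⟩ := PresentedGroup.mk_surjective (rels (Y i)) γ
  rw [← hw, incl_mk, mk_eq_one] at h1
  have hU : rels X ⊆ ⋃ j, rels (Y j) := by
    rintro r (⟨a, b, hab, rfl⟩ | ⟨a, l, hf, rfl⟩)
    · obtain ⟨j, hj⟩ := hadj _ _ hab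
      exact Set.mem_iUnion.2 ⟨j, Or.inl ⟨a, b, hj, rfl⟩⟩
    · obtain ⟨j, hj⟩ := hface _ hf
      exact Set.mem_iUnion.2 ⟨j, Or.inr ⟨a, l, hj, rfl⟩⟩
  obtain ⟨j, hj⟩ := mem_normalClosure_directed (fun j => rels (Y j)) (fun a b => by
    obtain ⟨k, h1, h2⟩ := dir a b
    exact ⟨k, rels_mono (mono a k h1), rels_mono (mono b k h2)⟩)
    (Subgroup.normalClosure_mono hU h1)
  obtain ⟨k, hik, hjk⟩ := dir i j
  refine ⟨k, hik, ?_⟩
  rw [← hw, incl_mk, mk_eq_one]
  exact Subgroup.normalClosure_mono (rels_mono (mono j k hjk)) hj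

end fam

/-- **The colimit theorem.** -/
theorem colim_main {D : ∀ (G : Type) [Group G], Prop}
    (X : Cx V) (hX : X.SC) (o : V) (I : Type) [inst : Preorder I] [inst' : Nonempty I]
    (dir : ∀ i j : I, ∃ k, i ≤ k ∧ j ≤ k) (Y : I → Cx V) (hI : ∀ i, Inv G (Y i))
    (mono : ∀ i j, i ≤ j → Le (Y i) (Y j)) (hle : ∀ i, Le (Y i) X)
    (hadj : ∀ a b, X.adj a b → ∃ i, (Y i).adj a b)
    (hface : ∀ l, X.face l → ∃ i, (Y i).face l)
    (hC' : ∀ i, @D (Gt G (Y i) o) (gtGroup (hI i) o)) : DirColim D G := by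
  refine ⟨I, inst, inst', fun i => Gt G (Y i) o,
    fun i => gtGroup (hI i) o, fun i j h => tr (hI i) (hI j) (mono i j h) o,
    fun i => pj (hI i) o, dir, ?_, ?_, ?_, ?_, ?_, hC'⟩
  · intro i h x
    exact tr_self (hI i) _ o x
  · intro i j k h h' x
    exact tr_tr (hI i) (hI j) (hI k) _ _ _ o x
  · intro i j h x
    exact pj_tr (hI i) (hI j) _ o x
  · intro y
    obtain ⟨i, x, hx⟩ := fam_surj hX o dir mono hadj y
    exact ⟨i, x, hx⟩
  · intro i x hx
    letI := gtGroup (hI i) o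
    have hx' : x.g = 1 := hx
    have hr : Reach (Y i) o o x.γ := by
      have := x.r
      rwa [hx', one_smul] at this
    obtain ⟨k, hik, hk⟩ := fam_ker hX o dir mono hle hadj hface i x.γ hr
    refine ⟨k, hik, ?_⟩
    letI := gtGroup (hI k) o
    apply Gt.ext'
    · exact hx'
    · exact hk

end main

/-! ## the cofinite subcomplexes -/

section sub

variable {V G : Type} [Group G] [MulAction G V]

/-- the edges in the orbits of the edges of a finite set -/
def oadj (G : Type) {V : Type} [Group G] [MulAction G V] (X : Cx V) (K : Finset (V × V))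
    (a b : V) : Prop :=
  X.adj a b ∧ ∃ g : G, ∃ p ∈ K, (g • p.1 = a ∧ g • p.2 = b) ∨ (g • p.1 = b ∧ g • p.2 = a)

theorem oadj_symm (X : Cx V) (K : Finset (V × V)) (a b : V) (h : oadj G X K a b) :
    oadj G X K b a := by
  obtain ⟨h1, g, p, hp, h2⟩ := h
  exact ⟨X.symm _ _ h1, g, p, hp, h2.symm⟩

/-- the subcomplex generated by finitely many orbits of edges and faces -/
def sub (G : Type) {V : Type} [Group G] [MulAction G V] (X : Cx V)
    (i : Finset (V × V) × Finset (List V)) : Cx V where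
  adj := oadj G X i.1
  face l := X.face l ∧ Cyc (oadj G X i.1) l ∧
    ∃ g : G, ∃ m ∈ i.2, (m.map (g • ·)) ~r l ∨ (m.map (g • ·)) ~r l.reverse
  symm := oadj_symm X i.1
  irr a h := X.irr a h.1
  rot l l' h hf := by
    obtain ⟨h1, h2, g, m, hm, h3⟩ := hf
    refine ⟨X.rot _ _ h h1, h2.rot h, g, m, hm, ?_⟩
    rcases h3 with h3 | h3
    · exact Or.inl (h3.trans h)
    · exact Or.inr (h3.trans h.reverse)
  rev l hf := by
    obtain ⟨h1, h2, g, m, hm, h3⟩ := hf
    refine ⟨X.rev _ h1, h2.rev (oadj_symm X i.1), g, m, hm, ?_⟩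
    rcases h3 with h3 | h3
    · exact Or.inr (by rwa [List.reverse_reverse])
    · exact Or.inl h3
  three l hf := X.three l hf.1
  nodup l hf := X.nodup l hf.1
  edge a b l hf := hf.2.1 a b l (List.IsRotated.refl _)

theorem sub_inv {X : Cx V} (hI : Inv G X) (i : Finset (V × V) × Finset (List V)) :
    Inv G (sub G X i) := by
  have hadj : ∀ (g : G) a b, oadj G X i.1 a b → oadj G X i.1 (g • a) (g • b) := by
    rintro g a b ⟨h1, g', p, hp, h2⟩
    refine ⟨hI.adj g _ _ h1, g * g', p, hp, ?_⟩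
    rcases h2 with ⟨h2, h3⟩ | ⟨h2, h3⟩
    · exact Or.inl ⟨by rw [mul_smul, h2], by rw [mul_smul, h3]⟩
    · exact Or.inr ⟨by rw [mul_smul, h2], by rw [mul_smul, h3]⟩
  refine ⟨hadj, ?_⟩
  rintro g l ⟨h1, h2, g', m, hm, h3⟩
  refine ⟨hI.face g _ h1, h2.map (hadj g), g * g', m, hm, ?_⟩
  have e : m.map ((g * g') • ·) = (m.map (g' • ·)).map (g • ·) := by
    rw [List.map_map]
    congr 1
    ext x
    exact mul_smul g g' x
  rw [e]
  rcases h3 with h3 | h3
  · exact Or.inl (h3.map _)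
  · refine Or.inr ?_
    rw [← List.map_reverse]
    exact h3.map _

theorem sub_mono (X : Cx V) (i j : Finset (V × V) × Finset (List V)) (h : i ≤ j) :
    Le (sub G X i) (sub G X j) := by
  have hadj : ∀ a b, oadj G X i.1 a b → oadj G X j.1 a b := by
    rintro a b ⟨h1, g', p, hp, h2⟩
    exact ⟨h1, g', p, h.1 hp, h2⟩
  refine ⟨hadj, ?_⟩
  rintro l ⟨h1, h2, g', m, hm, h3⟩
  exact ⟨h1, fun a b m hm => hadj _ _ (h2 a b m hm), g', m, h.2 hm, h3⟩

theorem sub_le (X : Cx V) (i : Finset (V × V) × Finset (List V)) : Le (sub G X i) X :=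
  ⟨fun _ _ h => h.1, fun _ h => h.1⟩

open Classical in
/-- **A group acting on a simply connected complex is the colimit of the groups of lifts of the
cofinite subcomplexes.** -/
theorem colim_sub {D : ∀ (G : Type) [Group G], Prop}
    (X : Cx V) (hI : Inv G X) (hX : X.SC) (o : V)
    (h : ∀ i : Finset (V × V) × Finset (List V),
      @D (Gt G (sub G X i) o) (gtGroup (sub_inv hI i) o)) : DirColim D G := by
  refine colim_main X hX o (Finset (V × V) × Finset (List V)) ?_ (sub G X) (sub_inv hI)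
    (sub_mono X) (sub_le X) ?_ ?_ h
  · intro i j
    exact ⟨i ⊔ j, le_sup_left, le_sup_right⟩
  · intro a b hab
    exact ⟨({(a, b)}, ∅), hab, 1, (a, b), by simp, Or.inl ⟨one_smul _ _, one_smul _ _⟩⟩
  · intro l hl
    refine ⟨(l.toFinset ×ˢ l.toFinset, {l}), hl, ?_, 1, l, by simp, Or.inl ?_⟩
    · intro a b m hm
      refine ⟨X.face_cyc hl a b m hm, 1, (a, b), ?_, Or.inl ⟨one_smul _ _, one_smul _ _⟩⟩
      rw [Finset.mem_product, List.mem_toFinset, List.mem_toFinset]
      exact ⟨hm.mem_iff.2 (by simp), hm.mem_iff.2 (by simp)⟩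
    · simp only [one_smul, List.map_id']
      exact List.IsRotated.refl _

end sub

end Pool.Agent.H751.PC
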