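import Pool.Agent.H751.PC.Var

/-!
# Actions with infinite stabilizers which are commensurable to normalised subgroups
-/

set_option autoImplicit false
set_option linter.style.haveILetI false

namespace Pool.Agent.H751.PC

open List

/-- a class of groups which is closed under groups that embed and under products with cyclic
groups -/
structure EmbCyc (B : ∀ (H : Type) [Group H], Prop) : Prop where
  emb : ∀ (H K : Type) [Group H] [Group K] (f : H →* K), Function.Injective f → B K → B H
  prod : ∀ (H K : Type) [Group H] [Group K], B H → IsCyclic K → B (H × K)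

/-- For every finite set `S` of vertices and every finite subset `F` of `G` there is a subgroup `A`
of `G` that is normalised by `F`, contained with finite index in the stabilizers of the vertices in
`S`, and such that the groups `A⟨g⟩` belong to `B` for all `g` in the subgroup generated by `F`. -/
def Uni (B : ∀ (H : Type) [Group H], Prop) (G V : Type) [Group G] [MulAction G V] : Prop :=
  ∀ (S : Finset V) (F : Finset G), ∃ A : Subgroup G,
    (∀ g ∈ F, ∀ a, a ∈ A ↔ g * a * g⁻¹ ∈ A) ∧
    (∀ v ∈ S, A ≤ MulAction.stabilizer G v ∧ A.relIndex (MulAction.stabilizer G v) ≠ 0) ∧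
    (∀ g ∈ Subgroup.closure (F : Set G), B ↥(A ⊔ Subgroup.zpowers g))

/-- `H` acts properly and cocompactly on a simply connected locally finite complex with the
property `P`. -/
def GeomP (P : ∀ (H V : Type) [Group H] [MulAction H V], Cx V → Prop) (H : Type) [Group H] :
    Prop :=
  ∃ (V : Type) (_ : MulAction H V) (_ : Nonempty V) (X : Cx V), X.SC ∧ P H V X ∧ Geom H X

/-- `H` has a normal subgroup `N` such that `H ⧸ N` acts properly and cocompactly on a simply
connected complex with the property `P`, and all groups `N⟨h⟩` belong to `B`. -/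
def NormExt (P : ∀ (H V : Type) [Group H] [MulAction H V], Cx V → Prop)
    (B : ∀ (H : Type) [Group H], Prop) (H : Type) [Group H] : Prop :=
  ∃ (N : Subgroup H) (_ : N.Normal), (∀ h : H, B ↥(N ⊔ Subgroup.zpowers h)) ∧ GeomP P (H ⧸ N)

section norm

variable {G : Type} [Group G]

theorem closure_normalizes {A : Subgroup G} {F : Set G}
    (h : ∀ g ∈ F, ∀ a, a ∈ A ↔ g * a * g⁻¹ ∈ A) {g : G} (hg : g ∈ Subgroup.closure F) :
    ∀ a, a ∈ A ↔ g * a * g⁻¹ ∈ A := by
  induction hg using Subgroup.closure_induction with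
  | mem x hx => exact h x hx
  | one => intro a; simp
  | mul x y _ _ hx hy =>
    intro a
    rw [hy a, hx (y * a * y⁻¹)]
    simp [mul_assoc]
  | inv x _ hx =>
    intro a
    rw [hx (x⁻¹ * a * x⁻¹⁻¹)]
    simp [mul_assoc]

end norm

section orbit

variable {V G : Type} [Group G] [MulAction G V]

theorem finite_orbit_of_relIndex {A : Subgroup G} {a b : V}
    (hb : A ≤ MulAction.stabilizer G b)
    (hfin : A.relIndex (MulAction.stabilizer G a) ≠ 0) :
    {w | ∃ g : G, g • a = a ∧ g • b = w}.Finite := by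
  haveI : (A.subgroupOf (MulAction.stabilizer G a)).FiniteIndex := ⟨hfin⟩
  haveI : Finite (MulAction.stabilizer G a ⧸ A.subgroupOf (MulAction.stabilizer G a)) :=
    Subgroup.finite_quotient_of_finiteIndex
  let f : (MulAction.stabilizer G a ⧸ A.subgroupOf (MulAction.stabilizer G a)) → V :=
    Quotient.lift (fun g : MulAction.stabilizer G a => g.1 • b) (by
      intro x y hxy
      have h1 : x⁻¹ * y ∈ A.subgroupOf (MulAction.stabilizer G a) :=
        QuotientGroup.leftRel_apply.1 hxy
      rw [Subgroup.mem_subgroupOf] at h1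
      have h2 : (x⁻¹ * y).1 • b = b := hb h1
      have h3 : (x.1)⁻¹ • y.1 • b = b := by
        rw [← mul_smul]
        exact h2
      exact (inv_smul_eq_iff.1 h3).symm)
  refine (Set.finite_range f).subset ?_
  rintro w ⟨g, h1, rfl⟩
  exact ⟨Quotient.mk _ ⟨g, h1⟩, rfl⟩

/-- if `a` can be moved to `v` then the images of `b` under these moves are finite in number -/
theorem finite_moves' {A : Subgroup G} {a b : V} (hb : A ≤ MulAction.stabilizer G b)
    (hfin : A.relIndex (MulAction.stabilizer G a) ≠ 0) (v : V) :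
    {w | ∃ g : G, g • a = v ∧ g • b = w}.Finite := by
  by_cases hne : ∃ g : G, g • a = v
  · obtain ⟨g, hg⟩ := hne
    refine ((finite_orbit_of_relIndex hb hfin).image (fun w => g • w)).subset ?_
    rintro w ⟨k, hk, rfl⟩
    refine ⟨(g⁻¹ * k) • b, ⟨g⁻¹ * k, ?_, rfl⟩, ?_⟩
    · rw [mul_smul, hk, ← hg, inv_smul_smul]
    · change g • (g⁻¹ * k) • b = k • b
      rw [mul_smul, smul_inv_smul]
  · convert Set.finite_empty
    ext w
    simp only [Set.mem_ofPred_eq, Set.mem_empty_iff_false, iff_false]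
    rintro ⟨g, hg, _⟩
    exact hne ⟨g, hg⟩

end orbit

section abstract

variable {G H : Type} [Group G] [Group H]

theorem ext_class {B : ∀ (H : Type) [Group H], Prop} (hB : EmbCyc B) (π : H →* G)
    (N : Subgroup H) [N.Normal] (A : Subgroup G) (hNA : ∀ n ∈ N, π n ∈ A)
    (hinj : ∀ n ∈ N, π n = 1 → n = 1) (x : H) (h : B ↥(A ⊔ Subgroup.zpowers (π x))) :
    B ↥(N ⊔ Subgroup.zpowers x) := by
  have h1 : ∀ y : ↥(N ⊔ Subgroup.zpowers x), π y.1 ∈ A ⊔ Subgroup.zpowers (π x) := by
    intro y
    have h2 : π y.1 ∈ (N ⊔ Subgroup.zpowers x).map π := Subgroup.mem_map_of_mem π y.2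
    rw [Subgroup.map_sup, MonoidHom.map_zpowers] at h2
    have h8 : N.map π ≤ A := by
      rintro _ ⟨n, hn, rfl⟩
      exact hNA n hn
    exact sup_le_sup_right h8 (Subgroup.zpowers (π x)) h2
  have h3 : ∀ y : ↥(N ⊔ Subgroup.zpowers x),
      QuotientGroup.mk' N y.1 ∈ Subgroup.zpowers (QuotientGroup.mk' N x) := by
    intro y
    have h2 : QuotientGroup.mk' N y.1 ∈ (N ⊔ Subgroup.zpowers x).map (QuotientGroup.mk' N) :=
      Subgroup.mem_map_of_mem _ y.2
    rw [Subgroup.map_sup, MonoidHom.map_zpowers] at h2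
    have h4 : N.map (QuotientGroup.mk' N) = ⊥ := by
      rw [Subgroup.map_eq_bot_iff, QuotientGroup.ker_mk']
    rwa [h4, bot_sup_eq] at h2
  let f : ↥(N ⊔ Subgroup.zpowers x) →*
      ↥(A ⊔ Subgroup.zpowers (π x)) × ↥(Subgroup.zpowers (QuotientGroup.mk' N x)) :=
    MonoidHom.prod ((π.comp (N ⊔ Subgroup.zpowers x).subtype).codRestrict _ h1)
      (((QuotientGroup.mk' N).comp (N ⊔ Subgroup.zpowers x).subtype).codRestrict _ h3)
  refine hB.emb _ _ f ?_ (hB.prod _ _ h inferInstance)
  rw [injective_iff_map_eq_one]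
  intro y hy
  have h5 : π y.1 = 1 := congrArg (fun z => (z.1 : G)) hy
  have h6 : QuotientGroup.mk' N y.1 = 1 := congrArg (fun z => (z.2 : H ⧸ N)) hy
  have h7 : y.1 ∈ N := by
    rwa [QuotientGroup.mk'_apply, QuotientGroup.eq_one_iff] at h6
  exact Subtype.ext (hinj y.1 h7 h5)

/-- the action of the quotient -/
@[reducible] def quotAct {W : Type} [MulAction H W] (N : Subgroup H) [N.Normal]
    (hN : ∀ n ∈ N, ∀ w : W, n • w = w) : MulAction (H ⧸ N) W :=
  MulAction.compHom W (QuotientGroup.lift N (MulAction.toPermHom H W) (by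
    intro n hn
    ext w
    exact hN n hn w))

theorem quotAct_mk {W : Type} [MulAction H W] (N : Subgroup H) [N.Normal]
    (hN : ∀ n ∈ N, ∀ w : W, n • w = w) (h : H) (w : W) :
    letI := quotAct N hN; (QuotientGroup.mk h : H ⧸ N) • w = h • w := rfl

theorem quot_geom {P : ∀ (H V : Type) [Group H] [MulAction H V], Cx V → Prop} (hP : Hered P)
    {V W : Type} [MulAction G V] [MulAction H W] [Nonempty W] (X : Cx V) (hPX : P G V X)
    (Z : Cx W) (hZ : Z.SC) (hI : Inv H Z) (φ : H → G) (f : W → V)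
    (hφ : ∀ h w, f (h • w) = φ h • f w) (hf : Imm Z X f)
    (N : Subgroup H) [N.Normal] (hN : ∀ n ∈ N, ∀ w : W, n • w = w)
    (hfin : ∀ w : W, N.relIndex (MulAction.stabilizer H w) ≠ 0)
    (verts : ∃ S : Set W, S.Finite ∧ ∀ w : W, ∃ h : H, h • w ∈ S)
    (nbrs : ∀ w : W, {u | Z.adj w u}.Finite) (faces : ∃ n : ℕ, ∀ l, Z.face l → l.length ≤ n) :
    GeomP P (H ⧸ N) := by
  letI := quotAct N hN
  have hmk : ∀ (q : H ⧸ N) (w : W), q • w = q.out • w := by
    intro q w
    conv_lhs => rw [← QuotientGroup.out_eq' q]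
    rfl
  refine ⟨W, quotAct N hN, inferInstance, Z, hZ, ?_, ⟨⟨?_, ?_⟩, ?_, nbrs, faces⟩⟩
  · refine hP G V (H ⧸ N) W X Z (fun q => φ q.out) f ?_ hf hPX
    intro q w
    rw [hmk]
    exact hφ _ _
  · refine ⟨?_, ?_⟩
    · intro q a b hab
      rw [hmk, hmk]
      exact hI.adj _ _ _ hab
    · intro q l hl
      have e : l.map (q • ·) = l.map (q.out • ·) := by
        apply List.map_congr_left
        intro a _
        exact hmk q a
      rw [e]
      exact hI.face _ _ hl
  · intro w
    haveI : (N.subgroupOf (MulAction.stabilizer H w)).FiniteIndex := ⟨hfin w⟩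
    haveI : Finite (MulAction.stabilizer H w ⧸ N.subgroupOf (MulAction.stabilizer H w)) :=
      Subgroup.finite_quotient_of_finiteIndex
    have hout : ∀ q : MulAction.stabilizer (H ⧸ N) w, q.1.out • w = w := by
      intro q
      rw [← hmk]
      exact q.2
    let ψ : MulAction.stabilizer (H ⧸ N) w →
        (MulAction.stabilizer H w ⧸ N.subgroupOf (MulAction.stabilizer H w)) :=
      fun q => QuotientGroup.mk ⟨q.1.out, hout q⟩
    refine Finite.of_injective ψ ?_
    intro q r hqr
    have h1 := QuotientGroup.eq.1 hqr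
    rw [Subgroup.mem_subgroupOf] at h1
    have h2 : (q.1.out)⁻¹ * r.1.out ∈ N := h1
    apply Subtype.ext
    rw [← QuotientGroup.out_eq' q.1, ← QuotientGroup.out_eq' r.1]
    exact QuotientGroup.eq.2 h2
  · obtain ⟨S, hS, hv⟩ := verts
    refine ⟨S, hS, ?_⟩
    intro w
    obtain ⟨h, hh⟩ := hv w
    exact ⟨QuotientGroup.mk h, hh⟩

end abstract

section main

variable {V G : Type} [Group G] [MulAction G V]

/-- the lifts of the elements of `A` which act trivially -/
def liftN {L : Subgroup G} {Y : Cx V} (hY : Inv L Y) (o : V) (A : Subgroup G) :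
    letI := gtGroup hY o; Subgroup (Gt L Y o) :=
  letI := gtGroup hY o
  letI := gtAct hY o
  (A.comap (pjVar L hY o)) ⊓ (MulAction.toPermHom (Gt L Y o) (Cov Y o)).ker

theorem mem_liftN {L : Subgroup G} {Y : Cx V} (hY : Inv L Y) (o : V) (A : Subgroup G)
    (x : Gt L Y o) : letI := gtGroup hY o; letI := gtAct hY o;
    x ∈ liftN hY o A ↔ (x.g : G) ∈ A ∧ ∀ p : Cov Y o, x • p = p := by
  letI := gtGroup hY o
  letI := gtAct hY o
  unfold liftN
  rw [Subgroup.mem_inf, Subgroup.mem_comap, pjVar_apply, MonoidHom.mem_ker]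
  refine and_congr Iff.rfl ?_
  constructor
  · intro h p
    exact DFunLike.congr_fun h p
  · intro h
    ext p : 1
    exact h p

theorem liftN_normal {L : Subgroup G} {Y : Cx V} (hY : Inv L Y) (o : V) (A : Subgroup G)
    (hA : ∀ g ∈ L, ∀ a, a ∈ A ↔ g * a * g⁻¹ ∈ A) :
    letI := gtGroup hY o; (liftN hY o A).Normal := by
  letI := gtGroup hY o
  letI := gtAct hY o
  constructor
  intro n hn x
  rw [mem_liftN] at hn ⊢
  refine ⟨?_, ?_⟩
  · exact (hA x.g x.g.2 n.g).1 hn.1
  · intro p
    rw [mul_smul, mul_smul, hn.2, smul_inv_smul]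

/-- a lift of an element that fixes all vertices acts trivially if it has a fixed point -/
theorem lift_trivial {L : Subgroup G} {Y : Cx V} (hY : Inv L Y) (o : V) (x : Gt L Y o)
    (hx : ∀ p : Cov Y o, x.g • p.pt = p.pt) (q : Cov Y o) :
    letI := gtGroup hY o; letI := gtAct hY o; x • q = q → ∀ p : Cov Y o, x • p = p := by
  letI := gtGroup hY o
  letI := gtAct hY o
  intro hq p
  have h := cov_conn Y o q p
  induction h with
  | refl => exact hq
  | @tail b c _ hbc ih =>
    have h1 := (gt_inv hY o).adj x b c hbc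
    rw [ih] at h1
    exact (cov_imm Y Y o ⟨fun _ _ h => h, fun _ h => h⟩).inj b _ _ h1 hbc (hx c)

/-- the subgroup `A` in the stabilizers of the vertices under the covering -/
theorem stab_cov {X : Cx V} {L A : Subgroup G} (hA : ∀ g ∈ L, ∀ a, a ∈ A ↔ g * a * g⁻¹ ∈ A)
    {o : V} {i : Finset (V × V) × Finset (List V)} {S : Finset V} (ho : o ∈ S)
    (h1 : ∀ q ∈ i.1, q.1 ∈ S) (h2 : ∀ q ∈ i.1, q.2 ∈ S)
    (hS : ∀ v ∈ S, A ≤ MulAction.stabilizer G v ∧ A.relIndex (MulAction.stabilizer G v) ≠ 0)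
    (p : Cov (sub L X i) o) : A ≤ MulAction.stabilizer G p.pt ∧
      A.relIndex (MulAction.stabilizer G p.pt) ≠ 0 := by
  obtain ⟨v, γ, hr⟩ := p
  have : ∃ g : L, ∃ s ∈ S, v = g • s := by
    cases hr with
    | refl => exact ⟨1, o, ho, (one_smul L o).symm⟩
    | step _ ha =>
      obtain ⟨_, g, q, hq, ⟨_, e2⟩ | ⟨e1, _⟩⟩ := ha
      · exact ⟨g, q.2, h2 q hq, e2.symm⟩
      · exact ⟨g, q.1, h1 q hq, e1.symm⟩
  obtain ⟨g, s, hs, hps⟩ := this
  obtain ⟨h4, h5⟩ := hS s hs
  have hps' : v = (g : G) • s := hps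
  have hconj : A.map (MulAut.conj (g : G)).toMonoidHom = A := by
    ext a
    rw [Subgroup.mem_map]
    constructor
    · rintro ⟨b, hb, rfl⟩
      exact (hA g g.2 b).1 hb
    · intro ha
      refine ⟨(g : G)⁻¹ * a * g, ?_, ?_⟩
      · have := (hA g g.2 ((g : G)⁻¹ * a * g)).2
        apply this
        simpa [mul_assoc] using ha
      · simp [mul_assoc]
  have hstab : (MulAction.stabilizer G s).map (MulAut.conj (g : G)).toMonoidHom =
      MulAction.stabilizer G v := by
    rw [hps']
    exact (MulAction.stabilizer_smul_eq_stabilizer_map_conj (g : G) s).symm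
  refine ⟨?_, ?_⟩
  · rw [← hconj]
    change _ ≤ MulAction.stabilizer G v
    rw [← hstab]
    exact Subgroup.map_mono h4
  · rw [← hconj]
    change Subgroup.relIndex _ (MulAction.stabilizer G v) ≠ 0
    rw [← hstab]
    rw [Subgroup.relIndex_map_map_of_injective]
    · exact h5
    · exact (MulAut.conj (g : G)).injective

theorem cov_normExt' {P : ∀ (H V : Type) [Group H] [MulAction H V], Cx V → Prop} (hP : Hered P)
    {B : ∀ (H : Type) [Group H], Prop} (hB : EmbCyc B) {X : Cx V} (hPX : P G V X)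
    (hI : Inv G X) {L A : Subgroup G} (hA : ∀ g ∈ L, ∀ a, a ∈ A ↔ g * a * g⁻¹ ∈ A)
    {o : V} {i : Finset (V × V) × Finset (List V)}
    (hst : ∀ p : Cov (sub L X i) o, A ≤ MulAction.stabilizer G p.pt ∧
      A.relIndex (MulAction.stabilizer G p.pt) ≠ 0)
    (hi : ∀ q ∈ i.1, (A ≤ MulAction.stabilizer G q.1 ∧
        A.relIndex (MulAction.stabilizer G q.1) ≠ 0) ∧
      (A ≤ MulAction.stabilizer G q.2 ∧ A.relIndex (MulAction.stabilizer G q.2) ≠ 0))
    (h3 : ∀ g ∈ L, B ↥(A ⊔ Subgroup.zpowers g)) :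
    @NormExt P B (Gt L (sub L X i) o) (gtGroup (sub_inv (hI.subgroup L) i) o) := by
  letI := gtGroup (sub_inv (hI.subgroup L) i) o
  letI := gtAct (sub_inv (hI.subgroup L) i) o
  haveI hnorm := liftN_normal (sub_inv (hI.subgroup L) i) o A hA
  have hNtriv : ∀ n ∈ liftN (sub_inv (hI.subgroup L) i) o A, ∀ w : Cov (sub L X i) o,
      n • w = w := by
    intro n hn
    rw [mem_liftN] at hn
    exact hn.2
  haveI : Nonempty (Cov (sub L X i) o) := ⟨base _ o⟩
  refine ⟨liftN (sub_inv (hI.subgroup L) i) o A, hnorm, ?_, ?_⟩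
  · intro x
    refine ext_class hB (pjVar L (sub_inv (hI.subgroup L) i) o)
      (liftN (sub_inv (hI.subgroup L) i) o A) A ?_ ?_ x ?_
    · intro n hn
      rw [mem_liftN] at hn
      exact hn.1
    · intro n hn h
      rw [mem_liftN] at hn
      have hn1 : n.g = 1 := Subtype.ext h
      exact gt_det (sub_inv (hI.subgroup L) i) o n 1 (base _ o) hn1 (by rw [hn.2, one_smul])
    · exact h3 _ x.g.2
  · refine quot_geom hP X hPX (cov (sub L X i) o) (cov_sc (sub L X i) o)
      (gt_inv (sub_inv (hI.subgroup L) i) o) (fun x => (x.g : G))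
      (fun p => p.pt) (fun x p => rfl) (cov_imm (sub L X i) X o (sub_le X i))
      (liftN (sub_inv (hI.subgroup L) i) o A) hNtriv ?_
      (cov_orbits (hI.subgroup L) i o) ?_ ?_
    · -- finite index
      intro p
      obtain ⟨h4, h5⟩ := hst p
      haveI : (A.subgroupOf (MulAction.stabilizer G p.pt)).FiniteIndex := ⟨h5⟩
      haveI : Finite (MulAction.stabilizer G p.pt ⧸ A.subgroupOf (MulAction.stabilizer G p.pt)) :=
        Subgroup.finite_quotient_of_finiteIndex
      have hx : ∀ x : MulAction.stabilizer (Gt L (sub L X i) o) p,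
          (x.1.g : G) ∈ MulAction.stabilizer G p.pt := fun x =>
        congrArg (fun q : Cov (sub L X i) o => q.pt) x.2
      have key : Finite (MulAction.stabilizer (Gt L (sub L X i) o) p ⧸
          (liftN (sub_inv (hI.subgroup L) i) o A).subgroupOf
            (MulAction.stabilizer (Gt L (sub L X i) o) p)) := by
        refine Finite.of_injective (β := MulAction.stabilizer G p.pt ⧸
          A.subgroupOf (MulAction.stabilizer G p.pt))
          (fun q => QuotientGroup.mk ⟨(q.out.1.g : G), hx q.out⟩) ?_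
        intro q r hqr
        have h6 := QuotientGroup.eq.1 hqr
        rw [Subgroup.mem_subgroupOf] at h6
        have h7 : ((q.out⁻¹ * r.out).1.g : G) ∈ A := h6
        rw [← QuotientGroup.out_eq' q, ← QuotientGroup.out_eq' r]
        refine QuotientGroup.eq.2 ?_
        rw [Subgroup.mem_subgroupOf, mem_liftN]
        refine ⟨h7, ?_⟩
        refine lift_trivial (sub_inv (hI.subgroup L) i) o _ ?_ p ?_
        · intro p'
          exact (hst p').1 h7
        · exact (q.out⁻¹ * r.out).2
      intro h0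
      have h8 : Subgroup.index ((liftN (sub_inv (hI.subgroup L) i) o A).subgroupOf
            (MulAction.stabilizer (Gt L (sub L X i) o) p)) = 0 := h0
      haveI := key
      exact (Subgroup.finiteIndex_of_finite_quotient).index_ne_zero h8
    · -- local finiteness
      intro p
      have hfin : (⋃ q ∈ i.1, ({w | ∃ g : G, g • q.1 = p.pt ∧ g • q.2 = w} ∪
          {w | ∃ g : G, g • q.2 = p.pt ∧ g • q.1 = w})).Finite := by
        refine Set.Finite.biUnion i.1.finite_toSet ?_
        intro q hq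
        exact (finite_moves' (hi q hq).2.1 (hi q hq).1.2 p.pt).union
          (finite_moves' (hi q hq).1.1 (hi q hq).2.2 p.pt)
      refine Set.Finite.of_finite_image (f := fun q : Cov (sub L X i) o => q.pt)
        (hfin.subset ?_) ?_
      · rintro _ ⟨q', hq', rfl⟩
        obtain ⟨_, g, q, hq, ⟨e1, e2⟩ | ⟨e1, e2⟩⟩ := hq'.1
        · exact Set.mem_biUnion hq (Or.inl ⟨g.1, e1, e2⟩)
        · exact Set.mem_biUnion hq (Or.inr ⟨g.1, e2, e1⟩)
      · intro a ha b hb hab
        exact (cov_imm (sub L X i) X o (sub_le X i)).inj p a b ha hb hab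
    · refine ⟨i.2.sup List.length, ?_⟩
      intro l hl
      obtain ⟨⟨_, _, g, m, hm, h3⟩, _⟩ := hl
      have e : m.length = l.length := by
        rcases h3 with h3 | h3
        · simpa using h3.perm.length_eq
        · simpa using h3.perm.length_eq
      rw [← e]
      exact Finset.le_sup (f := List.length) hm

open Classical in
/-- **Groups with commensurable stabilizers.** -/
theorem uni_main {P : ∀ (H V : Type) [Group H] [MulAction H V], Cx V → Prop} (hP : Hered P)
    {B : ∀ (H : Type) [Group H], Prop} (hB : EmbCyc B) [Nonempty V] (X : Cx V) (hX : X.SC)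
    (hPX : P G V X) (hI : Inv G X) (hU : Uni B G V) :
    DirColim (fun H _ => NormExt P B H) G := by
  let o : V := Classical.arbitrary V
  refine colim_fg X hI hX o ?_
  intro F i
  obtain ⟨A, h1, h2, h3⟩ := hU ({o} ∪ (i.1.image Prod.fst ∪ i.1.image Prod.snd)) F
  have hm1 : ∀ q ∈ i.1, q.1 ∈ ({o} ∪ (i.1.image Prod.fst ∪ i.1.image Prod.snd) : Finset V) := by
    intro q hq
    simp only [Finset.mem_union, Finset.mem_image]
    exact Or.inr (Or.inl ⟨q, hq, rfl⟩)
  have hm2 : ∀ q ∈ i.1, q.2 ∈ ({o} ∪ (i.1.image Prod.fst ∪ i.1.image Prod.snd) : Finset V) := by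
    intro q hq
    simp only [Finset.mem_union, Finset.mem_image]
    exact Or.inr (Or.inr ⟨q, hq, rfl⟩)
  have hA : ∀ g ∈ Subgroup.closure (F : Set G), ∀ a, a ∈ A ↔ g * a * g⁻¹ ∈ A :=
    fun g hg => closure_normalizes h1 hg
  refine cov_normExt' hP hB hPX hI hA ?_ ?_ h3
  · intro p
    exact stab_cov hA (by simp) hm1 hm2 h2 p
  · intro q hq
    exact ⟨h2 _ (hm1 q hq), h2 _ (hm2 q hq)⟩

end main

/-! ## virtually abelian stabilizers -/

section abelian

variable {V G : Type} [Group G] [MulAction G V]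

/-- the class of abelian groups -/
def Ab (H : Type) [Group H] : Prop := ∀ x y : H, x * y = y * x

theorem ab_embCyc : EmbCyc (fun H _ => Ab H) := by
  refine ⟨?_, ?_⟩
  · intro H K _ _ f hf hK x y
    apply hf
    rw [map_mul, map_mul]
    exact hK _ _
  · intro H K _ _ hH hK x y
    refine Prod.ext (hH _ _) ?_
    haveI := hK
    exact (IsCyclic.isMulCommutative (α := K)).is_comm.comm x.2 y.2

/-- `H` has a central subgroup `N` such that `H ⧸ N` acts properly and cocompactly on a simply
connected complex with the property `P`. -/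
def CentExt (P : ∀ (H V : Type) [Group H] [MulAction H V], Cx V → Prop) (H : Type) [Group H] :
    Prop :=
  ∃ (N : Subgroup H) (_ : N.Normal), N ≤ Subgroup.center H ∧ GeomP P (H ⧸ N)

theorem centExt_of_normExt {P : ∀ (H V : Type) [Group H] [MulAction H V], Cx V → Prop}
    {H : Type} [Group H] (h : NormExt P (fun H _ => Ab H) H) : CentExt P H := by
  obtain ⟨N, hN, h1, h2⟩ := h
  refine ⟨N, hN, ?_, h2⟩
  intro n hn
  rw [Subgroup.mem_center_iff]
  intro g
  have h3 := h1 g ⟨g, Subgroup.mem_sup_right (Subgroup.mem_zpowers g)⟩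
    ⟨n, Subgroup.mem_sup_left hn⟩
  exact congrArg Subtype.val h3

/-- the stabilizers are virtually abelian, the stabilizers of adjacent vertices are commensurable,
and each element of the group centralizes a subgroup of finite index of a stabilizer -/
structure CommCent (G : Type) {V : Type} [Group G] [MulAction G V] (X : Cx V) (o : V) : Prop where
  virt : ∃ B : Subgroup G, (∀ x ∈ B, ∀ y ∈ B, x * y = y * x) ∧
    B.relIndex (MulAction.stabilizer G o) ≠ 0
  comm : ∀ a b, X.adj a b →
    (MulAction.stabilizer G b).relIndex (MulAction.stabilizer G a) ≠ 0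
  cent : ∀ g : G, (Subgroup.centralizer {g}).relIndex (MulAction.stabilizer G o) ≠ 0

theorem CommCent.all {X : Cx V} {o : V} (h : CommCent G X o) (hX : X.SC) (v : V) :
    (MulAction.stabilizer G v).relIndex (MulAction.stabilizer G o) ≠ 0 ∧
      (MulAction.stabilizer G o).relIndex (MulAction.stabilizer G v) ≠ 0 := by
  have := hX.conn o v
  induction this with
  | refl => simp
  | @tail b c _ hbc ih =>
    exact ⟨Subgroup.relIndex_ne_zero_trans (h.comm b c hbc) ih.1,
      Subgroup.relIndex_ne_zero_trans ih.2 (h.comm c b (X.symm _ _ hbc))⟩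

theorem CommCent.uni {X : Cx V} {o : V} (h : CommCent G X o) (hX : X.SC) :
    Uni (fun H _ => Ab H) G V := by
  classical
  intro S F
  obtain ⟨B, hB1, hB2⟩ := h.virt
  let A : Subgroup G := B ⊓ MulAction.stabilizer G o ⊓
    ((⨅ g : F, Subgroup.centralizer {(g : G)}) ⊓ ⨅ v : S, MulAction.stabilizer G (v : V))
  have hAo : A.relIndex (MulAction.stabilizer G o) ≠ 0 := by
    refine Subgroup.relIndex_inf_ne_zero (Subgroup.relIndex_inf_ne_zero hB2 (by simp))
      (Subgroup.relIndex_inf_ne_zero ?_ ?_)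
    · exact Subgroup.relIndex_iInf_ne_zero (fun g => h.cent g)
    · exact Subgroup.relIndex_iInf_ne_zero (fun v => (h.all hX v).1)
  have hcent : ∀ g ∈ Subgroup.closure (F : Set G), ∀ a ∈ A, g * a = a * g := by
    intro g hg a ha
    have h1 : Subgroup.closure (F : Set G) ≤ Subgroup.centralizer {a} := by
      rw [Subgroup.closure_le]
      intro x hx
      have h2 : a ∈ ⨅ g : F, Subgroup.centralizer {(g : G)} := ha.2.1
      rw [Subgroup.mem_iInf] at h2
      have h3 := h2 ⟨x, hx⟩
      rw [Subgroup.mem_centralizer_singleton_iff] at h3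
      change x ∈ Subgroup.centralizer {a}
      rw [Subgroup.mem_centralizer_singleton_iff]
      exact h3.symm
    have h4 := h1 hg
    rw [Subgroup.mem_centralizer_singleton_iff] at h4
    exact h4
  refine ⟨A, ?_, ?_, ?_⟩
  · intro g hg a
    have hg' : g ∈ Subgroup.closure (F : Set G) := Subgroup.subset_closure hg
    constructor
    · intro ha
      rw [hcent g hg' a ha, mul_inv_cancel_right]
      exact ha
    · intro ha
      have h1 := hcent g hg' _ ha
      have h2 : a = g * a * g⁻¹ := by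
        have h3 : g * (g * a * g⁻¹) = g * a := by rw [h1, inv_mul_cancel_right]
        exact (mul_left_cancel h3).symm
      rw [h2]
      exact ha
  · intro v hv
    refine ⟨?_, ?_⟩
    · intro a ha
      have h2 : a ∈ ⨅ v : S, MulAction.stabilizer G (v : V) := ha.2.2
      rw [Subgroup.mem_iInf] at h2
      exact h2 ⟨v, hv⟩
    · exact Subgroup.relIndex_ne_zero_trans hAo (h.all hX v).2
  · intro g hg
    have h5 : ∀ x ∈ A ⊔ Subgroup.zpowers g, ∀ y ∈ A ⊔ Subgroup.zpowers g, x * y = y * x := by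
      have h6 : ∀ a ∈ A, A ⊔ Subgroup.zpowers g ≤ Subgroup.centralizer {a} := by
        intro a ha
        refine sup_le ?_ ?_
        · intro b hb
          rw [Subgroup.mem_centralizer_singleton_iff]
          exact hB1 b hb.1.1 a ha.1.1
        · rw [Subgroup.zpowers_le, Subgroup.mem_centralizer_singleton_iff]
          exact hcent g hg a ha
      have h7 : A ⊔ Subgroup.zpowers g ≤ Subgroup.centralizer {g} := by
        refine sup_le ?_ ?_
        · intro b hb
          rw [Subgroup.mem_centralizer_singleton_iff]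
          exact (hcent g hg b hb).symm
        · rw [Subgroup.zpowers_le, Subgroup.mem_centralizer_singleton_iff]
      intro x hx y hy
      have h8 : A ⊔ Subgroup.zpowers g ≤ Subgroup.centralizer {x} := by
        refine sup_le ?_ ?_
        · intro b hb
          have := h6 b hb hx
          rw [Subgroup.mem_centralizer_singleton_iff] at this ⊢
          exact this.symm
        · rw [Subgroup.zpowers_le]
          have := h7 hx
          rw [Subgroup.mem_centralizer_singleton_iff] at this ⊢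
          exact this.symm
      have := h8 hy
      rw [Subgroup.mem_centralizer_singleton_iff] at this
      exact this.symm
    intro x y
    exact Subtype.ext (h5 x.1 x.2 y.1 y.2)

/-- A homomorphism to an abelian group which is injective on a subgroup of finite index of a
stabilizer. -/
theorem commCent_of_hom {X : Cx V} (hX : X.SC) {o : V} {T : Type} [Group T] (τ : G →* T)
    (hτ : ∀ x y, τ x * τ y = τ y * τ x) (A : Subgroup G) (hA : A.relIndex (MulAction.stabilizer G o) ≠ 0)
    (hinj : ∀ a ∈ A, τ a = 1 → a = 1)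
    (comm : ∀ a b, X.adj a b →
      (MulAction.stabilizer G b).relIndex (MulAction.stabilizer G a) ≠ 0) : CommCent G X o := by
  have hall : ∀ v : V, (MulAction.stabilizer G v).relIndex (MulAction.stabilizer G o) ≠ 0 := by
    intro v
    have := hX.conn o v
    induction this with
    | refl => simp
    | @tail b c _ hbc ih => exact Subgroup.relIndex_ne_zero_trans (comm b c hbc) ih
  refine ⟨⟨A, ?_, hA⟩, comm, ?_⟩
  · intro x hx y hy
    have h1 : x * y * (y * x)⁻¹ = 1 := by
      refine hinj _ (A.mul_mem (A.mul_mem hx hy) (A.inv_mem (A.mul_mem hy hx))) ?_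
      rw [map_mul, map_inv, map_mul, map_mul, hτ x y]
      exact mul_inv_cancel _
    exact mul_inv_eq_one.1 h1
  · intro g
    have h1 : (A.map (MulAut.conj g⁻¹).toMonoidHom).relIndex
        (MulAction.stabilizer G (g⁻¹ • o)) ≠ 0 := by
      have e : MulAction.stabilizer G (g⁻¹ • o) =
          (MulAction.stabilizer G o).map (MulAut.conj g⁻¹).toMonoidHom :=
        MulAction.stabilizer_smul_eq_stabilizer_map_conj g⁻¹ o
      rw [e, Subgroup.relIndex_map_map_of_injective]
      · exact hA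
      · exact (MulAut.conj g⁻¹).injective
    have h2 : (A.map (MulAut.conj g⁻¹).toMonoidHom).relIndex (MulAction.stabilizer G o) ≠ 0 :=
      Subgroup.relIndex_ne_zero_trans h1 (hall _)
    have h3 := Subgroup.relIndex_inf_ne_zero hA h2
    have h4 : A ⊓ A.map (MulAut.conj g⁻¹).toMonoidHom ≤ Subgroup.centralizer {g} := by
      rintro a ⟨ha, b, hb, hba⟩
      have e1 : g⁻¹ * b * g⁻¹⁻¹ = a := hba
      have e2 : b * a⁻¹ = 1 := by
        refine hinj _ (A.mul_mem hb (A.inv_mem ha)) ?_
        have e6 : τ a = τ b := by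
          rw [← e1, inv_inv, map_mul, map_mul, map_inv, mul_assoc, hτ b g, inv_mul_cancel_left]
        rw [map_mul, map_inv, e6, mul_inv_cancel]
      have e3 : b = a := mul_inv_eq_one.1 e2
      subst e3
      rw [Subgroup.mem_centralizer_singleton_iff]
      have e4 : g * (g⁻¹ * b * g⁻¹⁻¹) = g * b := congrArg (g * ·) e1
      have e5 : b * g = g * b := by
        rw [← e4]
        group
      exact e5
    intro h0
    exact h3 (Nat.eq_zero_of_zero_dvd (h0 ▸ Subgroup.relIndex_dvd_of_le_left _ h4))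

end abelian

/-! ## virtually cyclic stabilizers -/

section cyclic

variable {V G : Type} [Group G] [MulAction G V]

/-- the class of metabelian groups -/
def Metab (H : Type) [Group H] : Prop :=
  ∀ x y z w : H, (x * y * x⁻¹ * y⁻¹) * (z * w * z⁻¹ * w⁻¹) =
    (z * w * z⁻¹ * w⁻¹) * (x * y * x⁻¹ * y⁻¹)

theorem metab_embCyc : EmbCyc (fun H _ => Metab H) := by
  refine ⟨?_, ?_⟩
  · intro H K _ _ f hf hK x y z w
    apply hf
    simp only [map_mul, map_inv]
    exact hK _ _ _ _
  · intro H K _ _ hH hK x y z w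
    haveI := hK
    have h1 : ∀ a b : K, a * b * a⁻¹ * b⁻¹ = 1 := by
      intro a b
      rw [(IsCyclic.isMulCommutative (α := K)).is_comm.comm a b]
      group
    refine Prod.ext (hH _ _ _ _) ?_
    change (x.2 * y.2 * x.2⁻¹ * y.2⁻¹) * (z.2 * w.2 * z.2⁻¹ * w.2⁻¹) =
      (z.2 * w.2 * z.2⁻¹ * w.2⁻¹) * (x.2 * y.2 * x.2⁻¹ * y.2⁻¹)
    rw [h1, h1]

theorem conj_zpow_mem {A : Subgroup G} {g : G} (hg : ∀ a, a ∈ A ↔ g * a * g⁻¹ ∈ A) (k : ℤ) :
    ∀ a ∈ A, g ^ k * a * (g ^ k)⁻¹ ∈ A := by
  have h1 : g ∈ Subgroup.closure ({g} : Set G) := Subgroup.subset_closure rfl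
  have h2 : g ^ k ∈ Subgroup.closure ({g} : Set G) := Subgroup.zpow_mem _ h1 k
  have h3 := closure_normalizes (A := A) (F := {g}) (by
    intro x hx
    rw [Set.mem_singleton_iff] at hx
    subst hx
    exact hg) h2
  intro a ha
  exact (h3 a).1 ha

theorem sup_zpowers_form {A : Subgroup G} {g : G} (hg : ∀ a, a ∈ A ↔ g * a * g⁻¹ ∈ A) {x : G}
    (hx : x ∈ A ⊔ Subgroup.zpowers g) : ∃ b ∈ A, ∃ k : ℤ, x = b * g ^ k := by
  let T : Subgroup G :=
    { carrier := {x | ∃ b ∈ A, ∃ k : ℤ, x = b * g ^ k}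
      one_mem' := ⟨1, A.one_mem, 0, by simp⟩
      mul_mem' := by
        rintro _ _ ⟨b, hb, k, rfl⟩ ⟨c, hc, l, rfl⟩
        refine ⟨b * (g ^ k * c * (g ^ k)⁻¹), A.mul_mem hb (conj_zpow_mem hg k c hc), k + l, ?_⟩
        rw [zpow_add]
        group
      inv_mem' := by
        rintro _ ⟨b, hb, k, rfl⟩
        refine ⟨g ^ (-k) * b⁻¹ * (g ^ (-k))⁻¹, conj_zpow_mem hg (-k) _ (A.inv_mem hb), -k, ?_⟩
        group }
  have h1 : A ⊔ Subgroup.zpowers g ≤ T := by
    refine sup_le ?_ ?_
    · intro b hb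
      exact ⟨b, hb, 0, by simp⟩
    · rw [Subgroup.zpowers_le]
      exact ⟨1, A.one_mem, 1, by simp⟩
  exact h1 hx

theorem metab_of {A : Subgroup G} {g : G} (hg : ∀ a, a ∈ A ↔ g * a * g⁻¹ ∈ A)
    (hA : ∀ a ∈ A, ∀ b ∈ A, a * b = b * a) : Metab ↥(A ⊔ Subgroup.zpowers g) := by
  have key : ∀ x y : ↥(A ⊔ Subgroup.zpowers g), (x * y * x⁻¹ * y⁻¹).1 ∈ A := by
    intro x y
    obtain ⟨b, hb, k, hx⟩ := sup_zpowers_form hg x.2
    obtain ⟨c, hc, l, hy⟩ := sup_zpowers_form hg y.2
    have e : (x * y * x⁻¹ * y⁻¹).1 = x.1 * y.1 * x.1⁻¹ * y.1⁻¹ := rfl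
    rw [e, hx, hy]
    have h1 := conj_zpow_mem hg k c hc
    have h2 := conj_zpow_mem hg l _ (A.inv_mem hb)
    have h3 : b * g ^ k * (c * g ^ l) * (b * g ^ k)⁻¹ * (c * g ^ l)⁻¹ =
        b * (g ^ k * c * (g ^ k)⁻¹) * (g ^ l * b⁻¹ * (g ^ l)⁻¹) * c⁻¹ := by
      have h4 : g ^ k * g ^ l * (g ^ k)⁻¹ = g ^ l := by
        rw [← zpow_add, ← zpow_neg, ← zpow_add]
        congr 1
        ring
      calc b * g ^ k * (c * g ^ l) * (b * g ^ k)⁻¹ * (c * g ^ l)⁻¹
          = b * (g ^ k * c * (g ^ k)⁻¹) * (g ^ k * g ^ l * (g ^ k)⁻¹) * b⁻¹ * (g ^ l)⁻¹ * c⁻¹ := by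
            group
        _ = b * (g ^ k * c * (g ^ k)⁻¹) * (g ^ l * b⁻¹ * (g ^ l)⁻¹) * c⁻¹ := by
            rw [h4]; group
    rw [h3]
    exact A.mul_mem (A.mul_mem (A.mul_mem hb h1) h2) (A.inv_mem hc)
  intro x y z w
  apply Subtype.ext
  exact hA _ (key x y) _ (key z w)

theorem zpowers_relIndex (a : G) {M : ℤ} (hM : M ≠ 0) :
    (Subgroup.zpowers (a ^ M)).relIndex (Subgroup.zpowers a) ≠ 0 := by
  have h1 : Finite (Subgroup.zpowers a ⧸
      (Subgroup.zpowers (a ^ M)).subgroupOf (Subgroup.zpowers a)) := by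
    refine Finite.of_surjective (α := Set.Ico (0 : ℤ) |M|)
      (fun k => QuotientGroup.mk ⟨a ^ (k : ℤ), Subgroup.zpow_mem _ (Subgroup.mem_zpowers a) _⟩) ?_
    intro q
    obtain ⟨⟨_, k, rfl⟩, rfl⟩ := QuotientGroup.mk_surjective q
    refine ⟨⟨k % M, Int.emod_nonneg k hM, Int.emod_lt_abs k hM⟩, ?_⟩
    refine QuotientGroup.eq.2 ?_
    rw [Subgroup.mem_subgroupOf]
    refine ⟨k / M, ?_⟩
    change (a ^ M) ^ (k / M) = (a ^ (k % M))⁻¹ * a ^ k
    rw [← zpow_mul, ← zpow_neg, ← zpow_add]
    congr 1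
    have := Int.emod_add_mul_ediv k M
    linarith
  intro h0
  have h8 : Subgroup.index ((Subgroup.zpowers (a ^ M)).subgroupOf (Subgroup.zpowers a)) = 0 := h0
  haveI := h1
  exact (Subgroup.finiteIndex_of_finite_quotient).index_ne_zero h8

/-- The stabilizers are commensurable to the cyclic group generated by `a`, and every element of the
group conjugates a nontrivial power of `a` to itself or to its inverse. -/
structure CommCyc (G V : Type) [Group G] [MulAction G V] (a : G) : Prop where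
  left : ∀ v : V, (Subgroup.zpowers a).relIndex (MulAction.stabilizer G v) ≠ 0
  right : ∀ v : V, ∃ n : ℤ, n ≠ 0 ∧ a ^ n • v = v
  conj : ∀ g : G, ∃ m : ℤ, m ≠ 0 ∧ (g * a ^ m * g⁻¹ = a ^ m ∨ g * a ^ m * g⁻¹ = a ^ (-m))

theorem CommCyc.uni {a : G} (h : CommCyc G V a) : Uni (fun H _ => Metab H) G V := by
  classical
  intro S F
  choose n hn0 hn using h.right
  choose m hm0 hm using h.conj
  let M : ℤ := (∏ g ∈ F, m g) * ∏ v ∈ S, n v
  have hM0 : M ≠ 0 := mul_ne_zero (Finset.prod_ne_zero_iff.2 fun g _ => hm0 g)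
    (Finset.prod_ne_zero_iff.2 fun v _ => hn0 v)
  have hF : ∀ g ∈ F, m g ∣ M := fun g hg => (Finset.dvd_prod_of_mem m hg).mul_right _
  have hS : ∀ v ∈ S, n v ∣ M := fun v hv => (Finset.dvd_prod_of_mem n hv).mul_left _
  have hconj : ∀ g ∈ F, g * a ^ M * g⁻¹ = a ^ M ∨ g * a ^ M * g⁻¹ = a ^ (-M) := by
    intro g hg
    obtain ⟨t, ht⟩ := hF g hg
    have e : g * a ^ M * g⁻¹ = (g * a ^ m g * g⁻¹) ^ t := by
      rw [ht, zpow_mul, ← conj_zpow]
    rw [e]
    rcases hm g with h1 | h1
    · left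
      rw [h1, ← zpow_mul, ← ht]
    · right
      rw [h1, ← zpow_mul, ht]
      congr 1
      ring
  have hnorm : ∀ g ∈ F, ∀ b, b ∈ Subgroup.zpowers (a ^ M) ↔
      g * b * g⁻¹ ∈ Subgroup.zpowers (a ^ M) := by
    intro g hg b
    have h1 : ∀ k : ℤ, g * (a ^ M) ^ k * g⁻¹ = (a ^ M) ^ k ∨
        g * (a ^ M) ^ k * g⁻¹ = (a ^ M) ^ (-k) := by
      intro k
      rw [← conj_zpow]
      rcases hconj g hg with h2 | h2
      · left; rw [h2]
      · right
        rw [h2, zpow_neg, zpow_neg, inv_zpow]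
    constructor
    · rintro ⟨k, rfl⟩
      rcases h1 k with h2 | h2
      · exact ⟨k, h2.symm⟩
      · exact ⟨-k, h2.symm⟩
    · rintro ⟨k, hk⟩
      have h3 : b = g⁻¹ * (a ^ M) ^ k * g := by
        have : (a ^ M) ^ k = g * b * g⁻¹ := hk
        rw [this]
        group
      rcases h1 k with h2 | h2
      · refine ⟨k, ?_⟩
        change (a ^ M) ^ k = b
        rw [h3]
        conv_rhs => rw [← h2]
        group
      · refine ⟨-k, ?_⟩
        change (a ^ M) ^ (-k) = b
        rw [h3]
        have h4 : (a ^ M) ^ k = g * (a ^ M) ^ (-k) * g⁻¹ := by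
          rcases h1 (-k) with h5 | h5
          · rw [h5]
            have h6 : g * (a ^ M) ^ k * g⁻¹ = g * (a ^ M) ^ (-k) * g⁻¹ := by rw [h2, h5]
            have h7 : (a ^ M) ^ k = (a ^ M) ^ (-k) := by
              have := mul_right_cancel h6
              exact mul_left_cancel this
            exact h7
          · rw [h5, neg_neg]
        rw [h4]
        group
  refine ⟨Subgroup.zpowers (a ^ M), hnorm, ?_, ?_⟩
  · intro v hv
    obtain ⟨t, ht⟩ := hS v hv
    refine ⟨?_, ?_⟩
    · rw [Subgroup.zpowers_le, ht, zpow_mul]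
      exact Subgroup.zpow_mem (MulAction.stabilizer G v) (hn v) t
    · refine Subgroup.relIndex_ne_zero_trans ?_ (h.left v)
      exact zpowers_relIndex a hM0
  · intro g hg
    refine metab_of (closure_normalizes hnorm hg) ?_
    rintro _ ⟨k, rfl⟩ _ ⟨l, rfl⟩
    change (a ^ M) ^ k * (a ^ M) ^ l = (a ^ M) ^ l * (a ^ M) ^ k
    rw [← zpow_add, ← zpow_add, add_comm]

end cyclic

/-- piecewise Euclidean complexes of nonpositive curvature with an invariant metric -/
def FlatP (H V : Type) [Group H] [MulAction H V] (X : Cx V) : Prop :=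
  ∃ (len : V → V → ℝ) (ang : V → V → V → ℝ), Flat X len ang ∧ InvMetric H len ang

theorem flatP_hered : Hered FlatP := by
  intro H V K W _ _ _ _ X Y φ f hφ hf hX
  obtain ⟨len, ang, hF, hM⟩ := hX
  refine ⟨fun a b => len (f a) (f b), fun a v b => ang (f a) (f v) (f b), hF.pull hf,
    ⟨?_, ?_⟩⟩
  · intro k a b
    rw [hφ, hφ]
    exact hM.len _ _ _
  · intro k a v b
    rw [hφ, hφ, hφ]
    exact hM.ang _ _ _ _

end Pool.Agent.H751.PC
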