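import Pool.Agent.H751.PC.Base

/-!
# The universal covering of a polygonal complex and the action of the group of lifts
-/

set_option autoImplicit false
set_option linter.style.haveILetI false

namespace Pool.Agent.H751.PC

open List

theorem Cyc.map {V W : Type} {r : V → V → Prop} {r' : W → W → Prop} {f : V → W}
    (hf : ∀ a b, r a b → r' (f a) (f b)) {l : List V} (h : Cyc r l) : Cyc r' (l.map f) := by
  rintro a b m ⟨n, hn⟩
  rw [← List.map_rotate] at hn
  have hr : l ~r l.rotate n := ⟨n, rfl⟩
  generalize l.rotate n = t at hn hr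
  match t, hn with
  | a' :: b' :: m', hn =>
    simp only [List.map_cons, List.cons.injEq] at hn
    obtain ⟨rfl, rfl, _⟩ := hn
    exact hf _ _ (h _ _ _ hr)

section cover

variable {V : Type}

/-- the vertices of the universal covering -/
structure Cov (Y : Cx V) (o : V) : Type where
  /-- the point under the vertex -/
  pt : V
  γ : Pg Y
  r : Reach Y o pt γ

theorem Cov.ext' {Y : Cx V} {o : V} {p q : Cov Y o} (h1 : p.pt = q.pt) (h2 : p.γ = q.γ) :
    p = q := by
  cases p; cases q; simp only at h1 h2; subst h1; subst h2; rfl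

/-- adjacency in the universal covering -/
def cadj (Y : Cx V) (o : V) (p q : Cov Y o) : Prop :=
  Y.adj p.pt q.pt ∧ q.γ = p.γ * ed Y p.pt q.pt

theorem cadj_symm (Y : Cx V) (o : V) (p q : Cov Y o) (h : cadj Y o p q) : cadj Y o q p := by
  refine ⟨Y.symm _ _ h.1, ?_⟩
  rw [h.2, mul_assoc, ed_ed Y h.1, mul_one]

/-- the universal covering -/
def cov (Y : Cx V) (o : V) : Cx (Cov Y o) where
  adj := cadj Y o
  face l := Y.face (l.map (fun p => p.pt)) ∧ Cyc (cadj Y o) l
  symm := cadj_symm Y o
  irr a h := Y.irr _ h.1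
  rot l l' h hf := ⟨Y.rot _ _ (h.map (fun p => p.pt)) hf.1, hf.2.rot h⟩
  rev l hf := ⟨by rw [List.map_reverse]; exact Y.rev _ hf.1, hf.2.rev (cadj_symm Y o)⟩
  three l hf := by simpa using Y.three _ hf.1
  nodup l hf := (Y.nodup _ hf.1).of_map _
  edge a b l hf := hf.2 a b l (List.IsRotated.refl _)

/-- maps of complexes which are locally injective -/
structure Imm {V W : Type} (X : Cx V) (Z : Cx W) (f : V → W) : Prop where
  adj : ∀ a b, X.adj a b → Z.adj (f a) (f b)
  inj : ∀ v a b, X.adj v a → X.adj v b → f a = f b → a = b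
  face : ∀ l, X.face l → Z.face (l.map f)

theorem cov_imm (Y X : Cx V) (o : V) (h : Le Y X) : Imm (cov Y o) X (fun p => p.pt) where
  adj a b hab := h.adj _ _ hab.1
  inj v a b ha hb hab := by
    apply Cov.ext' hab
    rw [ha.2, hb.2]
    exact congrArg (fun x => v.γ * ed Y v.pt x) hab
  face l hf := h.face _ hf.1

/-- the base point -/
def base (Y : Cx V) (o : V) : Cov Y o := ⟨o, 1, Reach.refl⟩

theorem reach_base (Y : Cx V) (o : V) (p : Cov Y o) :
    Relation.ReflTransGen (cadj Y o) (base Y o) p := by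
  obtain ⟨v, γ, h⟩ := p
  induction h with
  | refl => exact Relation.ReflTransGen.refl
  | step hr ha ih => exact ih.tail ⟨ha, rfl⟩

theorem cov_conn (Y : Cx V) (o : V) (p q : Cov Y o) :
    Relation.ReflTransGen (cadj Y o) p q := by
  refine Relation.ReflTransGen.trans ?_ (reach_base Y o q)
  have h := reach_base Y o p
  induction h with
  | refl => exact Relation.ReflTransGen.refl
  | tail _ hab ih => exact Relation.ReflTransGen.head (cadj_symm _ _ _ _ hab) ih

theorem chain_last (Y : Cx V) (o : V) : ∀ (L : List (Cov Y o)) (p : Cov Y o),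
    (p :: L).IsChain (cadj Y o) →
    ((p :: L).getLast (by simp)).γ = p.γ * along (ed Y) ((p :: L).map (fun p => p.pt))
  | [], p, _ => by simp
  | q :: L, p, h => by
    rw [List.isChain_cons_cons] at h
    rw [List.getLast_cons_cons]
    rw [chain_last Y o L q h.2, h.1.2]
    simp only [List.map_cons, along_cons, mul_assoc]

/-- lifting of walks -/
theorem lift (Y : Cx V) (o : V) : ∀ (l : List V) (p : Cov Y o),
    (p.pt :: l).IsChain Y.adj →
    ∃ L : List (Cov Y o), L.map (fun p => p.pt) = l ∧ (p :: L).IsChain (cadj Y o)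
  | [], p, _ => ⟨[], rfl, by simp⟩
  | b :: l, p, h => by
    rw [List.isChain_cons_cons] at h
    obtain ⟨L, hL, hc⟩ := lift Y o l ⟨b, p.γ * ed Y p.pt b, p.r.step h.1⟩ h.2
    refine ⟨⟨b, p.γ * ed Y p.pt b, p.r.step h.1⟩ :: L, by simp [hL], ?_⟩
    rw [List.isChain_cons_cons]
    exact ⟨⟨h.1, rfl⟩, hc⟩

/-- uniqueness of lifts -/
theorem lift_unique (Y : Cx V) (o : V) : ∀ (L L' : List (Cov Y o)) (p : Cov Y o),
    (p :: L).IsChain (cadj Y o) → (p :: L').IsChain (cadj Y o) →
    L.map (fun p => p.pt) = L'.map (fun p => p.pt) → L = L'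
  | [], [], _, _, _, _ => rfl
  | [], _ :: _, _, _, _, h => by simp at h
  | _ :: _, [], _, _, _, h => by simp at h
  | a :: L, b :: L', p, h1, h2, h => by
    rw [List.isChain_cons_cons] at h1 h2
    simp only [List.map_cons, List.cons.injEq] at h
    have hab : a = b := by
      apply Cov.ext' h.1
      rw [h1.1.2, h2.1.2, h.1]
    subst hab
    rw [lift_unique Y o L L' a h1.2 h2.2 h.2]

end cover

/-! ## simple connectivity of the universal covering -/

section sc

variable {V : Type} (Y : Cx V) (o : V) {Q : Type} [Group Q] (φ : Cov Y o → Cov Y o → Q)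

open Classical in
/-- the value of `φ` on the lift of an edge -/
noncomputable def Fv (a b : V) (γ : Pg Y) : Q :=
  if h : Reach Y o a γ ∧ Y.adj a b then
    φ ⟨a, γ, h.1⟩ ⟨b, γ * ed Y a b, h.1.step h.2⟩ else 1

/-- the permutation given by an edge -/
noncomputable def sg (a b : V) : Equiv.Perm (Q × Pg Y) where
  toFun x := (x.1 * Fv Y o φ a b x.2, x.2 * ed Y a b)
  invFun x := (x.1 * (Fv Y o φ a b (x.2 * (ed Y a b)⁻¹))⁻¹, x.2 * (ed Y a b)⁻¹)
  left_inv x := by simp
  right_inv x := by simp

/-- the action of a walk -/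
noncomputable def walk : List V → Q × Pg Y → Q × Pg Y
  | [], x => x
  | [_], x => x
  | a :: b :: l, x => walk (b :: l) (sg Y o φ a b x)

theorem along_op : ∀ (l : List V) (x : Q × Pg Y),
    (along (fun a b => MulOpposite.op (sg Y o φ a b)) l).unop x = walk Y o φ l x
  | [], x => by simp [walk]
  | [a], x => by simp [walk]
  | a :: b :: l, x => by
    rw [along_cons, MulOpposite.unop_mul, Equiv.Perm.mul_apply, along_op (b :: l)]
    rfl

theorem walk_two : ∀ (l : List V) (x : Q × Pg Y),
    (walk Y o φ l x).2 = x.2 * along (ed Y) l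
  | [], x => by simp [walk]
  | [a], x => by simp [walk]
  | a :: b :: l, x => by
    rw [walk, walk_two (b :: l)]
    simp [sg, mul_assoc]

theorem walk_reach : ∀ (L : List (Cov Y o)) (p : Cov Y o) (q : Q),
    (p :: L).IsChain (cadj Y o) →
    (walk Y o φ ((p :: L).map (fun p => p.pt)) (q, p.γ)).1 = q * along φ (p :: L)
  | [], p, q, _ => by simp [walk]
  | b :: L, p, q, h => by
    rw [List.isChain_cons_cons] at h
    have h1 : sg Y o φ p.pt b.pt (q, p.γ) = (q * φ p b, b.γ) := by
      have h2 : Reach Y o p.pt p.γ ∧ Y.adj p.pt b.pt := ⟨p.r, h.1.1⟩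
      have h3 : Fv Y o φ p.pt b.pt p.γ = φ p b := by
        unfold Fv
        rw [dif_pos h2]
        congr 1
        exact Cov.ext' rfl h.1.2.symm
      change (q * Fv Y o φ p.pt b.pt p.γ, p.γ * ed Y p.pt b.pt) = _
      rw [h3, ← h.1.2]
    have h4 := walk_reach L b (q * φ p b) h.2
    simp only [List.map_cons] at h4 ⊢
    rw [walk, h1, h4, along_cons, mul_assoc]

theorem walk_not : ∀ (l : List V) (a : V) (q : Q) (γ : Pg Y), ¬ Reach Y o a γ →
    (a :: l).IsChain Y.adj → (walk Y o φ (a :: l) (q, γ)).1 = q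
  | [], a, q, γ, _, _ => by simp [walk]
  | b :: l, a, q, γ, hn, h => by
    rw [List.isChain_cons_cons] at h
    have h3 : Fv Y o φ a b γ = 1 := by
      unfold Fv
      rw [dif_neg (fun h => hn h.1)]
    have h1 : sg Y o φ a b (q, γ) = (q, γ * ed Y a b) := by
      change (q * Fv Y o φ a b γ, γ * ed Y a b) = _
      rw [h3, mul_one]
    have hn' : ¬ Reach Y o b (γ * ed Y a b) := by
      intro hr
      apply hn
      have := hr.step (Y.symm _ _ h.1)
      rwa [mul_assoc, ed_ed Y h.1, mul_one] at this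
    rw [walk, h1]
    exact walk_not l b q _ hn' h.2

/-- a closed walk around a face acts trivially -/
theorem walk_face (h2 : ∀ a l, (cov Y o).face (a :: l) → along φ (a :: (l ++ [a])) = 1)
    {a : V} {l : List V} (hf : Y.face (a :: l)) (q : Q) (γ : Pg Y) :
    walk Y o φ (a :: (l ++ [a])) (q, γ) = (q, γ) := by
  have hc := Y.face_chain hf
  refine Prod.ext ?_ ?_
  · by_cases hR : Reach Y o a γ
    · obtain ⟨L, hL, hLc⟩ := lift Y o (l ++ [a]) ⟨a, γ, hR⟩ hc
      have h5 := walk_reach Y o φ L ⟨a, γ, hR⟩ q hLc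
      simp only [List.map_cons, hL] at h5
      rw [h5]
      obtain ⟨L', z, rfl⟩ : ∃ L' z, L = L' ++ [z] := by
        rcases List.eq_nil_or_concat L with h | ⟨L', z, h⟩
        · subst h; simp at hL
        · exact ⟨L', z, by rw [h, List.concat_eq_append]⟩
      have hz : z = ⟨a, γ, hR⟩ := by
        have h6 := chain_last Y o _ _ hLc
        have h7 : (((⟨a, γ, hR⟩ : Cov Y o) :: (L' ++ [z])).getLast (by simp)) = z := by
          simp
        rw [h7] at h6
        simp only [List.map_cons, hL] at h6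
        rw [ed_face Y hf, mul_one] at h6
        rw [List.map_append, List.map_singleton] at hL
        have h8 := List.append_inj_right' hL (by simp)
        simp only [List.cons.injEq, and_true] at h8
        exact Cov.ext' h8 h6
      subst hz
      rw [List.map_append, List.map_singleton] at hL
      have h8 := List.append_inj_left' hL (by simp)
      rw [h2 _ L' ?_, mul_one]
      refine ⟨by simpa [h8] using hf, ?_⟩
      exact cyc_of_chain hLc
    · rw [walk_not Y o φ _ _ _ _ hR hc]
  · rw [walk_two, ed_face Y hf, mul_one]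

theorem cov_sc : (cov Y o).SC where
  conn := cov_conn Y o
  triv := by
    intro Q _ φ h1 h2
    have e1 : ∀ a b, Y.adj a b →
        MulOpposite.op (sg Y o φ a b) * MulOpposite.op (sg Y o φ b a) = 1 := by
      intro a b hab
      rw [← MulOpposite.op_mul, MulOpposite.op_eq_one_iff]
      ext x : 1
      rw [Equiv.Perm.mul_apply, Equiv.Perm.one_apply]
      obtain ⟨q, γ⟩ := x
      have e3 : γ * ed Y a b * ed Y b a = γ := by rw [mul_assoc, ed_ed Y hab, mul_one]
      change (q * Fv Y o φ a b γ * Fv Y o φ b a (γ * ed Y a b), γ * ed Y a b * ed Y b a) = (q, γ)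
      refine Prod.ext ?_ e3
      change q * Fv Y o φ a b γ * Fv Y o φ b a (γ * ed Y a b) = q
      rw [mul_assoc]
      by_cases hR : Reach Y o a γ
      · have c1 : Reach Y o a γ ∧ Y.adj a b := ⟨hR, hab⟩
        have c2 : Reach Y o b (γ * ed Y a b) ∧ Y.adj b a := ⟨hR.step hab, Y.symm _ _ hab⟩
        unfold Fv
        rw [dif_pos c1, dif_pos c2]
        have e4 : (⟨a, γ * ed Y a b * ed Y b a, c2.1.step c2.2⟩ : Cov Y o) = ⟨a, γ, hR⟩ :=
          Cov.ext' rfl e3
        rw [e4, h1 _ _ ⟨hab, rfl⟩, mul_one]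
      · have c2 : ¬ (Reach Y o b (γ * ed Y a b) ∧ Y.adj b a) := by
          rintro ⟨hr, hba⟩
          apply hR
          have := hr.step hba
          rwa [e3] at this
        unfold Fv
        rw [dif_neg (fun h => hR h.1), dif_neg c2, mul_one, mul_one]
    have e2 : ∀ a l, Y.face (a :: l) →
        along (fun a b => MulOpposite.op (sg Y o φ a b)) (a :: (l ++ [a])) = 1 := by
      intro a l hf
      apply MulOpposite.unop_injective
      ext x : 1
      rw [along_op, MulOpposite.unop_one, Equiv.Perm.one_apply]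
      exact walk_face Y o φ h2 hf x.1 x.2
    let Φ := out Y (fun a b => MulOpposite.op (sg Y o φ a b)) e1 e2
    have key : ∀ (v : V) (γ : Pg Y), Reach Y o v γ → ((Φ γ).unop (1, 1)).2 = γ := by
      intro v γ hr
      induction hr with
      | refl => simp
      | @step v w γ hr ha ih =>
        rw [map_mul, MulOpposite.unop_mul, Equiv.Perm.mul_apply]
        have : Φ (ed Y v w) = MulOpposite.op (sg Y o φ v w) := out_ed _ _ _ _ _ _
        rw [this, MulOpposite.unop_op]
        change ((Φ γ).unop (1, 1)).2 * ed Y v w = _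
        rw [ih]
    refine ⟨fun p => ((Φ p.γ).unop (1, 1)).1, ?_⟩
    intro p q hpq
    have h3 : Φ (ed Y p.pt q.pt) = MulOpposite.op (sg Y o φ p.pt q.pt) := out_ed _ _ _ _ _ _
    have h4 : ((Φ q.γ).unop (1, 1)).1 = ((Φ p.γ).unop (1, 1)).1 * φ p q := by
      have hpq2 : q.γ = p.γ * ed Y p.pt q.pt := hpq.2
      rw [hpq2, map_mul, MulOpposite.unop_mul, Equiv.Perm.mul_apply, h3, MulOpposite.unop_op]
      change ((Φ p.γ).unop (1, 1)).1 * Fv Y o φ p.pt q.pt ((Φ p.γ).unop (1, 1)).2 = _
      rw [key _ _ p.r]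
      congr 1
      unfold Fv
      rw [dif_pos ⟨p.r, hpq.1⟩]
      congr 1
      exact Cov.ext' rfl hpq.2.symm
    change φ p q = ((Φ p.γ).unop (1, 1)).1⁻¹ * ((Φ q.γ).unop (1, 1)).1
    rw [h4, inv_mul_cancel_left]

end sc

/-! ## the action -/

section action

variable {V G : Type} [Group G] [MulAction G V] {Y : Cx V} (hI : Inv G Y) (o : V)

/-- the action of the group of lifts on the universal covering -/
@[reducible] def gtAct : @MulAction (Gt G Y o) (Cov Y o) (gtGroup hI o).toDivInvMonoid.toMonoid :=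
  letI := gtGroup hI o
  { smul := fun x p => ⟨x.g • p.pt, x.γ * ac hI x.g p.γ, x.r.trans (p.r.ac hI x.g)⟩
    one_smul := by
      intro p
      apply Cov.ext'
      · exact one_smul G p.pt
      · change 1 * ac hI (1 : G) p.γ = _
        rw [ac_one, one_mul]
    mul_smul := by
      intro x y p
      apply Cov.ext'
      · exact mul_smul x.g y.g p.pt
      · change x.γ * ac hI x.g y.γ * ac hI (x.g * y.g) p.γ =
          x.γ * ac hI x.g (y.γ * ac hI y.g p.γ)
        rw [ac_mul, map_mul, mul_assoc] }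

theorem gt_inv : letI := gtGroup hI o; letI := gtAct hI o; Inv (Gt G Y o) (cov Y o) := by
  letI := gtGroup hI o
  letI := gtAct hI o
  have hadj : ∀ (x : Gt G Y o) (p q : Cov Y o), cadj Y o p q → cadj Y o (x • p) (x • q) := by
    intro x p q h
    refine ⟨hI.adj x.g _ _ h.1, ?_⟩
    change x.γ * ac hI x.g q.γ = x.γ * ac hI x.g p.γ * ed Y (x.g • p.pt) (x.g • q.pt)
    rw [h.2, map_mul, ac_ed, mul_assoc]
  refine ⟨hadj, ?_⟩
  intro x l hf
  refine ⟨?_, hf.2.map (hadj x)⟩
  have h1 := hI.face x.g _ hf.1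
  rw [List.map_map] at h1 ⊢
  exact h1

theorem gt_trans (p q : Cov Y o) (g : G) (h : g • p.pt = q.pt) :
    letI := gtGroup hI o; letI := gtAct hI o; ∃ x : Gt G Y o, x.g = g ∧ x • p = q := by
  letI := gtGroup hI o
  letI := gtAct hI o
  have h1 := (p.r.ac hI g).symm
  rw [h] at h1
  refine ⟨⟨g, q.γ * (ac hI g p.γ)⁻¹, q.r.trans h1⟩, rfl, ?_⟩
  apply Cov.ext'
  · exact h
  · change q.γ * (ac hI g p.γ)⁻¹ * ac hI g p.γ = _
    rw [inv_mul_cancel_right]

/-- an element of the group of lifts is determined by its image in `G` and by its value at one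
point -/
theorem gt_det (x y : Gt G Y o) (p : Cov Y o) (h : x.g = y.g)
    (h' : letI := gtGroup hI o; letI := gtAct hI o; x • p = y • p) : x = y := by
  letI := gtGroup hI o
  letI := gtAct hI o
  apply Gt.ext' h
  have h1 : x.γ * ac hI x.g p.γ = y.γ * ac hI y.g p.γ :=
    congrArg (fun q : Cov Y o => q.γ) h'
  rw [h] at h1
  exact mul_right_cancel h1

/-- the stabilizers -/
noncomputable def gtStab (p : Cov Y o) : letI := gtGroup hI o; letI := gtAct hI o;
    MulAction.stabilizer (Gt G Y o) p ≃* MulAction.stabilizer G p.pt :=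
  letI := gtGroup hI o
  letI := gtAct hI o
  MulEquiv.ofBijective
    (MonoidHom.mk' (fun x => ⟨x.1.g, congrArg (fun q : Cov Y o => q.pt) x.2⟩) (by
      intro x y; rfl)) (by
    constructor
    · intro x y hxy
      have h1 : x.1.g = y.1.g := congrArg Subtype.val hxy
      apply Subtype.ext
      exact gt_det hI o x.1 y.1 p h1 (x.2.trans y.2.symm)
    · intro g
      obtain ⟨x, hx, hp⟩ := gt_trans hI o p p g.1 g.2
      exact ⟨⟨x, hp⟩, Subtype.ext hx⟩)

end action

end Pool.Agent.H751.PC
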