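import Pool.Agent.H751.PC.Rel

/-!
# CAT(0) cube complexes of any dimension, and actions with cocompact intersections of two hyperplanes
-/

set_option autoImplicit false
set_option linter.style.haveILetI false

namespace Pool.Agent.H751.PC

open List

/-- The complex is the two-skeleton of a cube complex of nonpositive curvature (of any dimension):
the faces are squares, two different squares have no common corner, and three squares with a common
vertex `v`, any two of which have an edge at `v` in common, are contained in a `3`-cube. -/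
structure Cube {V : Type} (X : Cx V) : Prop where
  four : ∀ l, X.face l → l.length = 4
  corner : ∀ a v b p p', X.face [a, v, b, p] → X.face [a, v, b, p'] → p = p'
  cube : ∀ v a b c p q r, X.face [a, v, b, p] → X.face [b, v, c, q] → X.face [c, v, a, r] →
    ∃ z, X.face [a, p, z, r] ∧ X.face [b, p, z, q] ∧ X.face [c, q, z, r]

/-- opposite edges of a square -/
def Opp {V : Type} (X : Cx V) (e f : Sym2 V) : Prop :=
  ∃ a v b p, X.face [a, v, b, p] ∧ e = s(v, a) ∧ f = s(b, p)

/-- the hyperplanes: the classes of the equivalence relation on the edges which is generated by the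
relation of being opposite edges of a square -/
def Wall {V : Type} (X : Cx V) : Type := Quot (Opp X)

/-- the hyperplane of an edge -/
def wl {V : Type} (X : Cx V) (a b : V) : Wall X := Quot.mk _ s(a, b)

/-- the pair of the hyperplanes of a square with the boundary `[a, v, b, p]` -/
def pr {V : Type} (X : Cx V) : List V → Option (Sym2 (Wall X))
  | a :: v :: b :: _ => some s(wl X v a, wl X v b)
  | _ => none

/-- The intersection of any two crossing hyperplanes is cocompact: the squares with the same pair of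
hyperplanes as a given square are in finitely many orbits. -/
def CodimTwo (G : Type) {V : Type} [Group G] [MulAction G V] (X : Cx V) : Prop :=
  ∀ m, X.face m → ∃ S : Set (List V), S.Finite ∧
    ∀ l, X.face l → pr X l = pr X m → ∃ g : G, l.map (g • ·) ∈ S

/-- The group `H` acts properly and cocompactly on the simply connected two-skeleton of a cube
complex of nonpositive curvature, i.e. on a CAT(0) cube complex. -/
def Cubulated (H : Type) [Group H] : Prop :=
  ∃ (V : Type) (_ : MulAction H V) (_ : Nonempty V) (X : Cx V), X.SC ∧ Cube X ∧ Geom H X ∧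
    Cofin H X

section walls

variable {V : Type} {X : Cx V}

theorem wl_symm (a b : V) : wl X a b = wl X b a := by
  unfold wl
  rw [Sym2.eq_swap]

theorem wl_opp {a v b p : V} (h : X.face [a, v, b, p]) : wl X v a = wl X b p :=
  Quot.sound ⟨a, v, b, p, h, rfl, rfl⟩

theorem face_rev {a v b p : V} (h : X.face [a, v, b, p]) : X.face [b, v, a, p] := by
  have h1 := X.rev _ h
  exact X.rot _ _ ⟨1, rfl⟩ h1

theorem face_rot {a v b p : V} (h : X.face [a, v, b, p]) : X.face [v, b, p, a] :=
  X.rot _ _ ⟨1, rfl⟩ h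

theorem wl_opp' {a v b p : V} (h : X.face [a, v, b, p]) : wl X v b = wl X a p :=
  wl_opp (face_rev h)

theorem list_four {l : List V} (h : l.length = 4) : ∃ a v b p, l = [a, v, b, p] := by
  match l, h with
  | [a, v, b, p], _ => exact ⟨a, v, b, p, rfl⟩

theorem pr_rot_one (hX : Cube X) {l : List V} (h : X.face l) : pr X (l.rotate 1) = pr X l := by
  obtain ⟨a, v, b, p, rfl⟩ := list_four (hX.four l h)
  change some s(wl X b v, wl X b p) = some s(wl X v a, wl X v b)
  rw [← wl_opp h, wl_symm b v, Sym2.eq_swap]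

theorem pr_rot (hX : Cube X) {l l' : List V} (h : X.face l) (hr : l ~r l') :
    pr X l' = pr X l := by
  obtain ⟨n, rfl⟩ := hr
  induction n with
  | zero => rw [List.rotate_zero]
  | succ n ih =>
    rw [← List.rotate_rotate, pr_rot_one hX (X.rot _ _ ⟨n, rfl⟩ h), ih]

theorem pr_rev (hX : Cube X) {l : List V} (h : X.face l) : pr X l.reverse = pr X l := by
  obtain ⟨a, v, b, p, rfl⟩ := list_four (hX.four l h)
  change some s(wl X b p, wl X b v) = some s(wl X v a, wl X v b)
  rw [← wl_opp h, wl_symm b v]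

end walls

section action

variable {V G : Type} [Group G] [MulAction G V] {X : Cx V}

/-- the action on the hyperplanes -/
def gw (hI : Inv G X) (g : G) : Wall X → Wall X :=
  Quot.map (Sym2.map (g • ·)) (by
    rintro _ _ ⟨a, v, b, p, h, rfl, rfl⟩
    exact ⟨g • a, g • v, g • b, g • p, hI.face g _ h, rfl, rfl⟩)

theorem gw_wl (hI : Inv G X) (g : G) (a b : V) : gw hI g (wl X a b) = wl X (g • a) (g • b) := rfl

theorem pr_map (hI : Inv G X) (g : G) (l : List V) :
    pr X (l.map (g • ·)) = (pr X l).map (Sym2.map (gw hI g)) := by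
  match l with
  | [] => rfl
  | [_] => rfl
  | [_, _] => rfl
  | a :: v :: b :: l => rfl

theorem pr_smul (hI : Inv G X) (g : G) {l m : List V} (h : pr X l = pr X m) :
    pr X (l.map (g • ·)) = pr X (m.map (g • ·)) := by
  rw [pr_map hI, pr_map hI, h]

/-- the squares whose pair of hyperplanes is a translate of the pair of an element of `K` -/
def yface (G : Type) {V : Type} [Group G] [MulAction G V] (X : Cx V) (K : Finset (List V))
    (l : List V) : Prop :=
  X.face l ∧ ∃ g : G, ∃ m ∈ K, X.face m ∧ pr X l = pr X (m.map (g • ·))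

/-- the edges of these squares and the translates of the elements of `E` -/
def yadj (G : Type) {V : Type} [Group G] [MulAction G V] (X : Cx V)
    (i : Finset (V × V) × Finset (List V)) (a b : V) : Prop :=
  oadj G X i.1 a b ∨ ∃ l, yface G X i.2 (a :: b :: l)

/-- the subcomplex -/
def ycx (G : Type) {V : Type} [Group G] [MulAction G V] {X : Cx V} (hX : Cube X)
    (i : Finset (V × V) × Finset (List V)) : Cx V where
  adj := yadj G X i
  face := yface G X i.2
  symm a b h := by
    rcases h with h | ⟨l, h, g, m, hm, hm2, e⟩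
    · exact Or.inl (oadj_symm X i.1 a b h)
    · refine Or.inr ⟨l.reverse, ?_, g, m, hm, hm2, ?_⟩
      · refine X.rot _ _ ?_ (X.rev _ h)
        have e5 : (a :: b :: l).reverse = l.reverse ++ [b, a] := by simp
        rw [e5]
        exact List.isRotated_append
      · have h1 : (a :: b :: l).reverse ~r b :: a :: l.reverse := by
          have e5 : (a :: b :: l).reverse = l.reverse ++ [b, a] := by simp
          rw [e5]
          exact List.isRotated_append
        rw [pr_rot hX (X.rev _ h) h1, pr_rev hX h, e]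
  irr a h := by
    rcases h with h | ⟨l, h, _⟩
    · exact X.irr a h.1
    · exact X.irr a (X.edge _ _ _ h)
  rot l l' hr h := by
    obtain ⟨h, g, m, hm, hm2, e⟩ := h
    exact ⟨X.rot _ _ hr h, g, m, hm, hm2, by rw [pr_rot hX h hr, e]⟩
  rev l h := by
    obtain ⟨h, g, m, hm, hm2, e⟩ := h
    exact ⟨X.rev _ h, g, m, hm, hm2, by rw [pr_rev hX h, e]⟩
  three l h := X.three l h.1
  nodup l h := X.nodup l h.1
  edge a b l h := Or.inr ⟨l, h⟩

theorem ycx_le (hX : Cube X) (i : Finset (V × V) × Finset (List V)) : Le (ycx G hX i) X := by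
  refine ⟨?_, fun l h => h.1⟩
  rintro a b (h | ⟨l, h, _⟩)
  · exact h.1
  · exact X.edge _ _ _ h

theorem ycx_inv (hI : Inv G X) (hX : Cube X) (i : Finset (V × V) × Finset (List V)) :
    Inv G (ycx G hX i) := by
  have hface : ∀ (g : G) l, yface G X i.2 l → yface G X i.2 (l.map (g • ·)) := by
    rintro g l ⟨h, g', m, hm, hm2, e⟩
    refine ⟨hI.face g l h, g * g', m, hm, hm2, ?_⟩
    rw [pr_smul hI g e, List.map_map]
    congr 2
    ext x
    exact (mul_smul g g' x).symm
  refine ⟨?_, hface⟩
  rintro g a b (h | ⟨l, h⟩)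
  · exact Or.inl ((sub_inv hI (i.1, ∅)).adj g a b h)
  · exact Or.inr ⟨l.map (g • ·), hface g _ h⟩

theorem ycx_mono (hX : Cube X) (i j : Finset (V × V) × Finset (List V)) (h : i ≤ j) :
    Le (ycx G hX i) (ycx G hX j) := by
  have hface : ∀ l, yface G X i.2 l → yface G X j.2 l := by
    rintro l ⟨h1, g, m, hm, h2⟩
    exact ⟨h1, g, m, h.2 hm, h2⟩
  refine ⟨?_, hface⟩
  rintro a b (⟨h1, g, p, hp, h2⟩ | ⟨l, h1⟩)
  · exact Or.inl ⟨h1, g, p, h.1 hp, h2⟩
  · exact Or.inr ⟨l, hface _ h1⟩

/-- the subcomplex is nonpositively curved -/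
theorem ycx_cube (hX : Cube X) (i : Finset (V × V) × Finset (List V)) :
    Cube (ycx G hX i) where
  four l h := hX.four l h.1
  corner a v b p p' h h' := hX.corner a v b p p' h.1 h'.1
  cube := by
    rintro v a b c p q r ⟨h1, g1, m1, k1, f1, e1⟩ ⟨h2, g2, m2, k2, f2, e2⟩ ⟨h3, g3, m3, k3, f3, e3⟩
    obtain ⟨z, f4, f5, f6⟩ := hX.cube v a b c p q r h1 h2 h3
    refine ⟨z, ⟨f4, g2, m2, k2, f2, ?_⟩, ⟨f5, g3, m3, k3, f3, ?_⟩, ⟨f6, g1, m1, k1, f1, ?_⟩⟩
    · -- the square `a, p, z, r` is opposite to the square `b, v, c, q`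
      rw [← e2]
      change some s(wl X p a, wl X p z) = some s(wl X v b, wl X v c)
      have w1 : wl X p a = wl X v b := by rw [wl_opp' h1, wl_symm]
      have w2 : wl X p z = wl X v c := by
        -- `p z` is opposite to `a r`, which is opposite to `v c`
        have w3 : wl X p z = wl X a r := wl_opp' f4
        rw [w3, wl_opp h3]
      rw [w1, w2]
    · rw [← e3]
      change some s(wl X p b, wl X p z) = some s(wl X v c, wl X v a)
      have w1 : wl X p b = wl X v a := by rw [wl_opp h1, wl_symm]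
      have w2 : wl X p z = wl X v c := by
        have w3 : wl X p z = wl X a r := wl_opp' f4
        rw [w3, wl_opp h3]
      rw [w1, w2, Sym2.eq_swap]
    · rw [← e1]
      change some s(wl X q c, wl X q z) = some s(wl X v a, wl X v b)
      have w1 : wl X q c = wl X v b := by rw [wl_opp h2, wl_symm]
      have w2 : wl X q z = wl X v a := by
        -- `q z` is opposite to `c r`, which is opposite to `v a`
        have w3 : wl X q z = wl X c r := wl_opp' f6
        rw [w3, wl_opp' h3]
      rw [w1, w2, Sym2.eq_swap]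

end action

/-! ## the covering -/

section cover

variable {V : Type} {Y : Cx V}

theorem cadj_face {o : V} {a v b p : Cov Y o} (h : (cov Y o).face [a, v, b, p]) :
    cadj Y o a v ∧ cadj Y o v b ∧ cadj Y o b p ∧ cadj Y o p a :=
  ⟨h.2 _ _ _ (List.IsRotated.refl _), h.2 _ _ [p, a] ⟨1, rfl⟩, h.2 _ _ [a, v] ⟨2, rfl⟩,
    h.2 _ _ [v, b] ⟨3, rfl⟩⟩

/-- a square of the covering from three of its sides -/
theorem cov_square {o : V} {a v b p : Cov Y o} (hf : Y.face [a.pt, v.pt, b.pt, p.pt])
    (h1 : cadj Y o a v) (h2 : cadj Y o v b) (h3 : cadj Y o b p) :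
    (cov Y o).face [a, v, b, p] := by
  have h4 : cadj Y o p a := by
    refine ⟨(Y.face_cyc hf) _ _ [v.pt, b.pt] ⟨3, rfl⟩, ?_⟩
    have e := ed_face Y hf
    simp only [List.cons_append, List.nil_append, along_cons, along_single, mul_one] at e
    rw [h3.2, h2.2, h1.2]
    simp only [mul_assoc]
    rw [e, mul_one]
  refine ⟨hf, ?_⟩
  have hc : (a :: ([v, b, p] ++ [a])).IsChain (cadj Y o) := by
    simp only [List.cons_append, List.nil_append, List.isChain_cons_cons, List.isChain_singleton,
      and_true]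
    exact ⟨h1, h2, h3, h4⟩
  exact cyc_of_chain hc

theorem cov_cube (hY : Cube Y) (o : V) : Cube (cov Y o) where
  four l h := by simpa using hY.four _ h.1
  corner a v b p p' h h' := by
    have e := hY.corner _ _ _ _ _ h.1 h'.1
    exact (cov_imm Y Y o ⟨fun _ _ h => h, fun _ h => h⟩).inj b p p' (cadj_face h).2.2.1
      (cadj_face h').2.2.1 e
  cube := by
    intro v a b c p q r h1 h2 h3
    obtain ⟨z, f4, f5, f6⟩ := hY.cube _ _ _ _ _ _ _ h1.1 h2.1 h3.1
    have e4 := Y.face_cyc f4
    have hpz : Y.adj p.pt z := e4 _ _ [r.pt, a.pt] ⟨1, rfl⟩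
    let z' : Cov Y o := ⟨z, p.γ * ed Y p.pt z, p.r.step hpz⟩
    have hz : cadj Y o p z' := ⟨hpz, rfl⟩
    obtain ⟨a1, a2, a3, a4⟩ := cadj_face h1
    obtain ⟨b1, b2, b3, b4⟩ := cadj_face h2
    obtain ⟨c1, c2, c3, c4⟩ := cadj_face h3
    -- the square `z, p, b, q`
    have s1 : (cov Y o).face [q, b, p, z'] := by
      refine cov_square (a := q) (v := b) (b := p) (p := z') ?_ b4 a3 hz
      have g1 := Y.rot _ _ ⟨3, rfl⟩ f5
      exact g1
    have s2 : (cov Y o).face [r, a, p, z'] := by
      refine cov_square (a := r) (v := a) (b := p) (p := z') ?_ (cadj_symm _ _ _ _ c3) (cadj_symm _ _ _ _ a4) hz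
      have g1 := Y.rot _ _ ⟨3, rfl⟩ f4
      exact g1
    refine ⟨z', ?_, ?_, ?_⟩
    · exact (cov Y o).rot _ _ ⟨1, rfl⟩ s2
    · exact (cov Y o).rot _ _ ⟨1, rfl⟩ s1
    · exact cov_square (a := c) (v := q) (b := z') (p := r) f6 b3
        (cadj_symm _ _ _ _ (cadj_face s1).2.2.2) (cadj_face s2).2.2.2

end cover

/-! ## finiteness -/

section finite

variable {V G : Type} [Group G] [MulAction G V]

/-- the covering of a cofinite subcomplex is cofinite -/
theorem cov_cofin' {Y : Cx V} (hI : Inv G Y) (o : V) (ME : Set (V × V)) (hME : ME.Finite)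
    (MF : Set (List V)) (hMF : MF.Finite)
    (hE : ∀ a b, Y.adj a b → ∃ e ∈ ME, ∃ g : G, a = g • e.1 ∧ b = g • e.2)
    (hF : ∀ l, Y.face l → ∃ m ∈ MF, ∃ g : G, l = m.map (g • ·)) :
    letI := gtGroup hI o
    letI := gtAct hI o
    Cofin (Gt G Y o) (cov Y o) := by
  classical
  letI := gtGroup hI o
  letI := gtAct hI o
  refine ⟨?_, ?_, ?_⟩
  · obtain ⟨S, hS, hcov⟩ := cov_lists hI o ((fun u : V => [u]) '' ({o} ∪ Prod.snd '' ME))
      (((Set.finite_singleton o).union (hME.image _)).image _)
    refine ⟨(fun p : Cov Y o => [p]) ⁻¹' S, hS.preimage (fun p _ q _ h => ?_), ?_⟩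
    · simpa using h
    · intro p
      obtain ⟨x, hx⟩ := hcov [p] (by simp) (by
        have h1 : ∃ g : G, ∃ u ∈ ({o} ∪ Prod.snd '' ME : Set V), g • u = p.pt := by
          have hr := p.r
          generalize p.pt = v at hr
          generalize p.γ = γ at hr
          cases hr with
          | refl => exact ⟨1, o, Or.inl rfl, one_smul G o⟩
          | step _ ha =>
            obtain ⟨e, he, g, _, h2⟩ := hE _ _ ha
            exact ⟨g, e.2, Or.inr ⟨e, he, rfl⟩, h2.symm⟩
        obtain ⟨g, u, hu, e⟩ := h1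
        exact ⟨[u], ⟨u, hu, rfl⟩, g, by simp [e]⟩)
      exact ⟨x, by simpa using hx⟩
  · obtain ⟨S, hS, hcov⟩ := cov_lists hI o ((fun p : V × V => [p.1, p.2]) '' ME) (hME.image _)
    refine ⟨(fun p : Cov Y o × Cov Y o => [p.1, p.2]) ⁻¹' S,
      hS.preimage (fun p _ q _ h => ?_), ?_⟩
    · simp only [List.cons.injEq, and_true] at h
      exact Prod.ext h.1 h.2
    · intro a b hab
      obtain ⟨e, he, g, h1, h2⟩ := hE _ _ hab.1
      obtain ⟨x, hx⟩ := hcov [a, b] (List.isChain_cons_cons.2 ⟨hab, by simp⟩)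
        ⟨[e.1, e.2], ⟨e, he, rfl⟩, g, by simp [h1, h2]⟩
      exact ⟨x, hx⟩
  · obtain ⟨S, hS, hcov⟩ := cov_lists hI o MF hMF
    refine ⟨S, hS, ?_⟩
    intro l hl
    obtain ⟨m, hm, g, e⟩ := hF _ hl.1
    exact hcov l hl.2.isChain ⟨m, hm, g, e⟩

theorem cov_geom' {Y X : Cx V} (hI : Inv G Y) (hP : Proper G X) (o : V)
    (ME : Set (V × V)) (hME : ME.Finite) (MF : Set (List V)) (hMF : MF.Finite)
    (hE : ∀ a b, Y.adj a b → ∃ e ∈ ME, ∃ g : G, a = g • e.1 ∧ b = g • e.2)
    (hF : ∀ l, Y.face l → ∃ m ∈ MF, ∃ g : G, l = m.map (g • ·)) :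
    letI := gtGroup hI o
    letI := gtAct hI o
    Geom (Gt G Y o) (cov Y o) := by
  classical
  letI := gtGroup hI o
  letI := gtAct hI o
  refine ⟨⟨gt_inv hI o, ?_⟩, (cov_cofin' hI o ME hME MF hMF hE hF).verts, ?_, ?_⟩
  · intro p
    have := hP.stab p.pt
    exact Finite.of_equiv _ (gtStab hI o p).symm.toEquiv
  · intro p
    have h1 : (⋃ e ∈ ME, (fun g : G => g • e.2) '' {g : G | g • e.1 = p.pt}).Finite :=
      Set.Finite.biUnion hME (fun e _ => (finite_moves (hP.stab e.1) p.pt).image _)
    refine Set.Finite.of_finite_image (f := fun q : Cov Y o => q.pt) (h1.subset ?_) ?_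
    · rintro _ ⟨q, hq, rfl⟩
      obtain ⟨e, he, g, e1, e2⟩ := hE _ _ hq.1
      exact Set.mem_biUnion he ⟨g, e1.symm, e2.symm⟩
    · intro a ha b hb hab
      exact (cov_imm Y Y o ⟨fun _ _ h => h, fun _ h => h⟩).inj p a b ha hb hab
  · obtain ⟨n, hn⟩ := (hMF.image List.length).bddAbove
    refine ⟨n, ?_⟩
    intro l hl
    obtain ⟨m, hm, g, e⟩ := hF _ hl.1
    have : l.length = m.length := by simpa using congrArg List.length e
    rw [this]
    exact hn ⟨m, hm, rfl⟩

/-- **Proper actions on CAT(0) cube complexes with cocompact intersections of two hyperplanes** -/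
theorem cubes_main [Nonempty V] (X : Cx V) (hS : X.SC) (hX : Cube X) (hP : Proper G X)
    (hC : CodimTwo G X) : DirColim (fun H _ => Cubulated H) G := by
  classical
  let o : V := Classical.arbitrary V
  refine colim_main X hS o (Finset (V × V) × Finset (List V)) ?_ (fun i => ycx G hX i)
    (fun i => ycx_inv hP.inv hX i) (ycx_mono hX) (ycx_le hX) ?_ ?_ ?_
  · intro i j
    exact ⟨i ⊔ j, le_sup_left, le_sup_right⟩
  · intro a b hab
    exact ⟨({(a, b)}, ∅), Or.inl ⟨hab, 1, (a, b), by simp, Or.inl ⟨one_smul _ _, one_smul _ _⟩⟩⟩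
  · intro l hl
    refine ⟨(∅, {l}), hl, 1, l, by simp, hl, ?_⟩
    simp
  · intro i
    letI := gtGroup (ycx_inv hP.inv hX i) o
    letI := gtAct (ycx_inv hP.inv hX i) o
    haveI : Nonempty (Cov (ycx G hX i) o) := ⟨base _ o⟩
    -- finitely many orbits of squares
    let S : List V → Set (List V) := fun m =>
      if h : X.face m then (hC m h).choose else ∅
    have hSfin : ∀ m, (S m).Finite := by
      intro m
      by_cases h : X.face m
      · simp only [S, dif_pos h]
        exact (hC m h).choose_spec.1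
      · simp only [S, dif_neg h]
        exact Set.finite_empty
    let MF : Set (List V) := ⋃ m ∈ i.2, S m
    have hMF : MF.Finite := Set.Finite.biUnion i.2.finite_toSet (fun m _ => hSfin m)
    have hF : ∀ l, yface G X i.2 l → ∃ m ∈ MF, ∃ g : G, l = m.map (g • ·) := by
      rintro l ⟨h1, g, m, hm, hm2, e⟩
      have h2 : X.face (l.map (g⁻¹ • ·)) := hP.inv.face _ _ h1
      have h3 : pr X (l.map (g⁻¹ • ·)) = pr X m := by
        rw [pr_smul hP.inv g⁻¹ e, List.map_map]
        congr 1
        conv_rhs => rw [← List.map_id m]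
        apply List.map_congr_left
        intro x _
        simp
      obtain ⟨h, hh⟩ := (hC m hm2).choose_spec.2 _ h2 h3
      refine ⟨(l.map (g⁻¹ • ·)).map (h • ·), Set.mem_biUnion hm ?_, g * h⁻¹, ?_⟩
      · simp only [S, dif_pos hm2]
        exact hh
      · rw [List.map_map, List.map_map]
        conv_lhs => rw [← List.map_id l]
        apply List.map_congr_left
        intro x _
        simp [mul_smul]
    let fst2 : List V → V × V := fun l => (l.headD o, (l.drop 1).headD o)
    let ME : Set (V × V) := ((i.1 : Set (V × V)) ∪ Prod.swap '' (i.1 : Set (V × V))) ∪ fst2 '' MF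
    have hME : ME.Finite :=
      (i.1.finite_toSet.union (i.1.finite_toSet.image _)).union (hMF.image _)
    have hE : ∀ a b, yadj G X i a b → ∃ e ∈ ME, ∃ g : G, a = g • e.1 ∧ b = g • e.2 := by
      rintro a b (⟨_, g, p, hp, ⟨e1, e2⟩ | ⟨e1, e2⟩⟩ | ⟨l, h⟩)
      · exact ⟨p, Or.inl (Or.inl hp), g, e1.symm, e2.symm⟩
      · exact ⟨p.swap, Or.inl (Or.inr ⟨p, hp, rfl⟩), g, e2.symm, e1.symm⟩
      · obtain ⟨m, hm, g, e⟩ := hF _ h
        match m, e with
        | a' :: b' :: m', e =>
          simp only [List.map_cons, List.cons.injEq] at e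
          exact ⟨(a', b'), Or.inr ⟨a' :: b' :: m', hm, rfl⟩, g, e.1, e.2.1⟩
    refine ⟨Cov (ycx G hX i) o, gtAct (ycx_inv hP.inv hX i) o, inferInstance,
      cov (ycx G hX i) o, cov_sc (ycx G hX i) o, cov_cube (ycx_cube hX i) o, ?_, ?_⟩
    · exact cov_geom' (Y := ycx G hX i) (ycx_inv hP.inv hX i) hP o ME hME MF hMF hE hF
    · exact cov_cofin' (Y := ycx G hX i) (ycx_inv hP.inv hX i) o ME hME MF hMF hE hF

end finite

end Pool.Agent.H751.PC
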