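import Pool.Agent.H751.PC.FJ

/-!
# Elliptic elements with finite orbits
-/

set_option autoImplicit false
set_option linter.style.haveILetI false

namespace Pool.Agent.H751.PC

open List

/-- every element with a fixed point has finite orbits: every point is fixed by a nontrivial power -/
def FinOrb (G V : Type) [Group G] [MulAction G V] : Prop :=
  ∀ (g : G) (v w : V), g • v = v → ∃ n : ℤ, n ≠ 0 ∧ g ^ n • w = w

section

variable {V G : Type} [Group G] [MulAction G V]

theorem FinOrb.subgroup (h : FinOrb G V) (D : Subgroup G) : FinOrb D V := by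
  intro g v w hg
  obtain ⟨n, hn, h1⟩ := h g.1 v w hg
  exact ⟨n, hn, h1⟩

theorem triv_uni' (hst : ∀ v : V, Finite (MulAction.stabilizer G v)) :
    Uni (fun H _ => Ab H) G V := by
  intro S F
  refine ⟨⊥, ?_, ?_, ?_⟩
  · intro g _ a
    rw [Subgroup.mem_bot, Subgroup.mem_bot]
    constructor
    · rintro rfl; simp
    · intro h
      have h2 : g * a = g := mul_inv_eq_one.1 h
      exact mul_eq_left.1 h2
  · intro v _
    refine ⟨bot_le, ?_⟩
    rw [Subgroup.relIndex_bot_left]
    haveI := hst v
    exact Nat.card_pos.ne'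
  · intro g _
    rw [bot_sup_eq]
    intro x y
    obtain ⟨k, hk⟩ := x.2
    obtain ⟨l, hl⟩ := y.2
    apply Subtype.ext
    change x.1 * y.1 = y.1 * x.1
    rw [← hk, ← hl]
    change g ^ k * g ^ l = g ^ l * g ^ k
    rw [← zpow_add, ← zpow_add, add_comm]

/-- a homomorphism to an infinite cyclic group with finite kernels on the stabilizers -/
theorem uni_of_cyclic {Q : Type} [Group Q] (f : G →* Q) (q : Q) (hq : ¬ IsOfFinOrder q)
    (hf : ∀ x : G, ∃ k : ℤ, f x = q ^ k)
    (hfin : ∀ v : V, {g : G | g • v = v ∧ f g = 1}.Finite) (hFO : FinOrb G V) :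
    Uni (fun H _ => Ab H) G V := by
  classical
  by_cases hcase : ∀ (v : V) (x : G), x • v = v → f x = 1
  · apply triv_uni'
    intro v
    refine ((hfin v).subset ?_).to_subtype
    intro x hx
    exact ⟨hx, hcase v x hx⟩
  · push Not at hcase
    obtain ⟨o, d, hdo, hd⟩ := hcase
    obtain ⟨k, hk⟩ := hf d
    have hk0 : k ≠ 0 := by
      rintro rfl
      exact hd (by rw [hk, zpow_zero])
    have hinj : Function.Injective (fun n : ℤ => q ^ n) := injective_zpow_iff_not_isOfFinOrder.2 hq
    -- the finite index of the powers of `d`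
    have hind : ∀ (M : ℤ) (v : V), M ≠ 0 → d ^ M • v = v →
        (Subgroup.zpowers (d ^ M)).relIndex (MulAction.stabilizer G v) ≠ 0 := by
      intro M v hM hMv
      have hkM : k * M ≠ 0 := mul_ne_zero hk0 hM
      have hF : {y : G | y • v = v ∧ ∃ r : ℤ, 0 ≤ r ∧ r < |k * M| ∧ f y = q ^ r}.Finite := by
        have h1 : (⋃ r ∈ Set.Ico (0 : ℤ) |k * M|, {y : G | y • v = v ∧ f y = q ^ r}).Finite := by
          refine Set.Finite.biUnion (Set.finite_Ico _ _) ?_
          intro r _
          by_cases hne : ∃ y : G, y • v = v ∧ f y = q ^ r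
          · obtain ⟨y, hy1, hy2⟩ := hne
            refine ((hfin v).image (fun g => y * g)).subset ?_
            rintro z ⟨hz1, hz2⟩
            refine ⟨y⁻¹ * z, ⟨?_, ?_⟩, by simp⟩
            · rw [mul_smul, hz1, inv_smul_eq_iff, hy1]
            · rw [map_mul, map_inv, hy2, hz2, inv_mul_cancel]
          · convert Set.finite_empty
            ext y
            simp only [Set.mem_ofPred_eq, Set.mem_empty_iff_false, iff_false]
            exact fun hy => hne ⟨y, hy⟩
        refine h1.subset ?_
        rintro y ⟨hy, r, hr0, hr1, hr⟩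
        exact Set.mem_biUnion (x := r) ⟨hr0, hr1⟩ ⟨hy, hr⟩
      haveI := hF.to_subtype
      have h2 : Finite (MulAction.stabilizer G v ⧸
          (Subgroup.zpowers (d ^ M)).subgroupOf (MulAction.stabilizer G v)) := by
        refine Finite.of_surjective
          (α := {y : G | y • v = v ∧ ∃ r : ℤ, 0 ≤ r ∧ r < |k * M| ∧ f y = q ^ r})
          (fun y => QuotientGroup.mk ⟨y.1, y.2.1⟩) ?_
        intro z
        obtain ⟨⟨x, hx⟩, rfl⟩ := QuotientGroup.mk_surjective z
        have hx' : x • v = v := hx
        obtain ⟨j, hj⟩ := hf x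
        have hdiv : d ^ (M * (j / (k * M))) • v = v := by
          rw [zpow_mul]
          exact Subgroup.zpow_mem (MulAction.stabilizer G v) (x := d ^ M) hMv _
        refine ⟨⟨x * (d ^ (M * (j / (k * M))))⁻¹, ?_, j % (k * M), Int.emod_nonneg _ hkM,
          Int.emod_lt_abs _ hkM, ?_⟩, ?_⟩
        · rw [mul_smul]
          rw [inv_smul_eq_iff.2 hdiv.symm, hx']
        · rw [map_mul, map_inv, map_zpow, hk, hj, ← zpow_mul, ← zpow_neg, ← zpow_add]
          congr 1
          have := Int.emod_add_mul_ediv j (k * M)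
          linarith
        · refine QuotientGroup.eq.2 ?_
          rw [Subgroup.mem_subgroupOf]
          refine ⟨j / (k * M), ?_⟩
          change (d ^ M) ^ (j / (k * M)) = (x * (d ^ (M * (j / (k * M))))⁻¹)⁻¹ * x
          rw [← zpow_mul]
          group
      intro h0
      have h8 : Subgroup.index ((Subgroup.zpowers (d ^ M)).subgroupOf
        (MulAction.stabilizer G v)) = 0 := h0
      haveI := h2
      exact (Subgroup.finiteIndex_of_finite_quotient).index_ne_zero h8
    -- the powers of `d` are centralized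
    have hcent : ∀ g : G, ∃ m : ℤ, m ≠ 0 ∧ g * d ^ m * g⁻¹ = d ^ m := by
      intro g
      obtain ⟨n, hn, hn1⟩ := hFO d o (g • o) hdo
      haveI := (hfin (g • o)).to_subtype
      have hc : (g * d ^ n * g⁻¹) • g • o = g • o := by
        have h1 : d ^ n • o = o := Subgroup.zpow_mem (MulAction.stabilizer G o) (x := d) hdo n
        rw [mul_smul, inv_smul_smul, mul_smul, h1]
      obtain ⟨i, j, hij, he⟩ := Finite.exists_ne_map_eq_of_infinite
        (fun m : ℤ => (⟨(g * d ^ n * g⁻¹) ^ m * ((d ^ n) ^ m)⁻¹, by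
          have h1 : (g * d ^ n * g⁻¹) ^ m • g • o = g • o :=
            Subgroup.zpow_mem (MulAction.stabilizer G (g • o)) (x := g * d ^ n * g⁻¹) hc m
          have h2 : (d ^ n) ^ m • g • o = g • o :=
            Subgroup.zpow_mem (MulAction.stabilizer G (g • o)) (x := d ^ n) hn1 m
          refine ⟨?_, ?_⟩
          · rw [mul_smul, inv_smul_eq_iff.2 h2.symm, h1]
          · obtain ⟨l, hl⟩ := hf g
            rw [map_mul, map_inv, map_zpow, map_mul, map_mul, map_inv, map_zpow, map_zpow,
              map_zpow, hl, hk]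
            group⟩ :
          {x : G | x • g • o = g • o ∧ f x = 1}))
      have he' : (g * d ^ n * g⁻¹) ^ i * ((d ^ n) ^ i)⁻¹ =
          (g * d ^ n * g⁻¹) ^ j * ((d ^ n) ^ j)⁻¹ := congrArg Subtype.val he
      refine ⟨n * (i - j), mul_ne_zero hn (sub_ne_zero.2 hij), ?_⟩
      have e1 : (g * d ^ n * g⁻¹) ^ (i - j) = (d ^ n) ^ (i - j) := by
        have e2 : ((g * d ^ n * g⁻¹) ^ j)⁻¹ * (g * d ^ n * g⁻¹) ^ i =
            ((d ^ n) ^ j)⁻¹ * (d ^ n) ^ i := by
          have e3 : (g * d ^ n * g⁻¹) ^ i = (g * d ^ n * g⁻¹) ^ j * ((d ^ n) ^ j)⁻¹ *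
              (d ^ n) ^ i := by
            rw [← he']; group
          rw [e3]; group
        have e4 : ∀ x : G, x ^ (i - j) = (x ^ j)⁻¹ * x ^ i := by
          intro x
          rw [← zpow_neg, ← zpow_add]
          congr 1
          ring
        rw [e4, e4, e2]
      rw [zpow_mul, ← conj_zpow, e1]
    intro S F
    choose n hn0 hn using fun v : V => hFO d o v hdo
    choose m hm0 hm using hcent
    let M : ℤ := (∏ g ∈ F, m g) * ∏ v ∈ S, n v
    have hM0 : M ≠ 0 := mul_ne_zero (Finset.prod_ne_zero_iff.2 fun g _ => hm0 g)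
      (Finset.prod_ne_zero_iff.2 fun v _ => hn0 v)
    have hMv : ∀ v ∈ S, d ^ M • v = v := by
      intro v hv
      obtain ⟨t, ht⟩ := (Finset.dvd_prod_of_mem n hv).mul_left (∏ g ∈ F, m g)
      have : M = n v * t := ht
      rw [this, zpow_mul]
      exact Subgroup.zpow_mem (MulAction.stabilizer G v) (hn v) t
    have hMg : ∀ g ∈ Subgroup.closure (F : Set G), g * d ^ M = d ^ M * g := by
      have h1 : Subgroup.closure (F : Set G) ≤ Subgroup.centralizer {d ^ M} := by
        rw [Subgroup.closure_le]
        intro g hg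
        change g ∈ Subgroup.centralizer {d ^ M}
        rw [Subgroup.mem_centralizer_singleton_iff]
        obtain ⟨t, ht⟩ := (Finset.dvd_prod_of_mem m hg).mul_right (∏ v ∈ S, n v)
        have e1 : M = m g * t := ht
        have e2 : g * d ^ M * g⁻¹ = d ^ M := by
          rw [e1, zpow_mul, ← conj_zpow, hm]
        exact mul_inv_eq_iff_eq_mul.1 e2
      intro g hg
      have h2 := h1 hg
      rw [Subgroup.mem_centralizer_singleton_iff] at h2
      exact h2
    refine ⟨Subgroup.zpowers (d ^ M), ?_, ?_, ?_⟩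
    · intro g hg a
      have hg' := hMg g (Subgroup.subset_closure hg)
      have hz : ∀ b ∈ Subgroup.zpowers (d ^ M), g * b * g⁻¹ = b := by
        rintro _ ⟨l, rfl⟩
        change g * (d ^ M) ^ l * g⁻¹ = (d ^ M) ^ l
        rw [← conj_zpow, hg', mul_inv_cancel_right]
      constructor
      · intro ha
        rw [hz a ha]
        exact ha
      · intro ha
        have h2 := hz _ ha
        have h3 : a = g * a * g⁻¹ := by
          have h4 : g * (g * a * g⁻¹) = g * a := by
            rw [mul_inv_eq_iff_eq_mul] at h2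
            rw [h2]; group
          exact (mul_left_cancel h4).symm
        rw [h3]
        exact ha
    · intro v hv
      refine ⟨?_, hind M v hM0 (hMv v hv)⟩
      rw [Subgroup.zpowers_le]
      exact hMv v hv
    · intro g hg
      have hgd := hMg g hg
      intro x y
      have hx : ∀ x ∈ Subgroup.zpowers (d ^ M) ⊔ Subgroup.zpowers g,
          ∃ (i j : ℤ), x = (d ^ M) ^ i * g ^ j := by
        intro x hx
        have hn : ∀ a, a ∈ Subgroup.zpowers (d ^ M) ↔ g * a * g⁻¹ ∈ Subgroup.zpowers (d ^ M) := by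
          intro a
          have hz : ∀ b ∈ Subgroup.zpowers (d ^ M), g * b * g⁻¹ = b := by
            rintro _ ⟨l, rfl⟩
            change g * (d ^ M) ^ l * g⁻¹ = (d ^ M) ^ l
            rw [← conj_zpow, hgd, mul_inv_cancel_right]
          constructor
          · intro ha
            rw [hz a ha]
            exact ha
          · intro ha
            have h2 := hz _ ha
            have h3 : a = g * a * g⁻¹ := by
              have h4 : g * (g * a * g⁻¹) = g * a := by
                rw [mul_inv_eq_iff_eq_mul] at h2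
                rw [h2]; group
              exact (mul_left_cancel h4).symm
            rw [h3]
            exact ha
        obtain ⟨_, ⟨i, rfl⟩, j, h⟩ := sup_zpowers_form hn hx
        exact ⟨i, j, h⟩
      obtain ⟨i, j, h1⟩ := hx x.1 x.2
      obtain ⟨i', j', h2⟩ := hx y.1 y.2
      apply Subtype.ext
      change x.1 * y.1 = y.1 * x.1
      rw [h1, h2]
      have hcom : Commute (d ^ M) g := hgd.symm
      have c1 : Commute ((d ^ M) ^ i * g ^ j) ((d ^ M) ^ i' * g ^ j') := by
        apply Commute.mul_left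
        · apply Commute.mul_right
          · exact (Commute.refl (d ^ M)).zpow_zpow i i'
          · exact hcom.zpow_zpow i j'
        · apply Commute.mul_right
          · exact (hcom.zpow_zpow i' j).symm
          · exact (Commute.refl g).zpow_zpow j j'
      exact c1

/-- all stabilizers are virtually cyclic -/
def VirtCyc (G V : Type) [Group G] [MulAction G V] : Prop :=
  ∀ v : V, ∃ c : G, c • v = v ∧ (Subgroup.zpowers c).relIndex (MulAction.stabilizer G v) ≠ 0

/-- there are no relations `g a ^ m g⁻¹ = a ^ n` with `|m| ≠ |n|` and an element `a` of infinite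
order with a fixed point -/
def NoBS (G V : Type) [Group G] [MulAction G V] : Prop :=
  ∀ (a g : G) (v : V) (m n : ℤ), a • v = v → ¬ IsOfFinOrder a → g * a ^ m * g⁻¹ = a ^ n →
    |m| = |n|

theorem uni_of_virtCyc (hFO : FinOrb G V) (hV : VirtCyc G V) (hBS : NoBS G V) :
    Uni (fun H _ => Metab H) G V := by
  by_cases hcase : ∀ v : V, Finite (MulAction.stabilizer G v)
  · intro S F
    obtain ⟨A, h1, h2, h3⟩ := triv_uni' hcase S F
    refine ⟨A, h1, h2, ?_⟩
    intro g hg x y z w
    rw [h3 g hg x y, h3 g hg z w]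
    group
  · push Not at hcase
    obtain ⟨o, ho⟩ := hcase
    obtain ⟨a, hao, ha⟩ := hV o
    have hinf : ¬ IsOfFinOrder a := by
      intro h
      refine not_finite_iff_infinite.2 ho ?_
      haveI : Finite (Subgroup.zpowers a) := h.finite_zpowers
      have h1 : (⊥ : Subgroup G).relIndex (Subgroup.zpowers a) ≠ 0 := by
        rw [Subgroup.relIndex_bot_left]
        exact Nat.card_pos.ne'
      have h2 := Subgroup.relIndex_ne_zero_trans h1 ha
      rw [Subgroup.relIndex_bot_left] at h2
      exact Nat.finite_of_card_ne_zero h2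
    have hzinj : Function.Injective (fun n : ℤ => a ^ n) :=
      injective_zpow_iff_not_isOfFinOrder.2 hinf
    have hne : ∀ n : ℤ, n ≠ 0 → a ^ n ≠ 1 := by
      intro n hn h
      exact hn (hzinj (by simpa using h))
    have hleft : ∀ v : V, (Subgroup.zpowers a).relIndex (MulAction.stabilizer G v) ≠ 0 := by
      intro v
      obtain ⟨n, hn, hnv⟩ := hFO a o v hao
      obtain ⟨c, hcv, hc⟩ := hV v
      obtain ⟨k, hk, _, hk2⟩ := Subgroup.exists_pow_mem_of_relIndex_ne_zero hc (a := a ^ n) hnv
      obtain ⟨j, hj⟩ := hk2.1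
      have hj' : c ^ j = (a ^ n) ^ k := hj
      have hj0 : j ≠ 0 := by
        rintro rfl
        rw [zpow_zero] at hj'
        have h1 : a ^ (n * (k : ℤ)) = 1 := by
          rw [zpow_mul, zpow_natCast, ← hj']
        refine hne _ (mul_ne_zero hn ?_) h1
        exact_mod_cast hk.ne'
      have h2 : (Subgroup.zpowers (c ^ j)).relIndex (MulAction.stabilizer G v) ≠ 0 :=
        Subgroup.relIndex_ne_zero_trans (zpowers_relIndex c hj0) hc
      have h3 : Subgroup.zpowers (c ^ j) ≤ Subgroup.zpowers a := by
        rw [Subgroup.zpowers_le, hj']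
        exact Subgroup.pow_mem _ (Subgroup.zpow_mem _ (Subgroup.mem_zpowers a) n) k
      intro h0
      exact h2 (Nat.eq_zero_of_zero_dvd (h0 ▸ Subgroup.relIndex_dvd_of_le_left _ h3))
    refine CommCyc.uni (a := a) ⟨hleft, fun v => hFO a o v hao, ?_⟩
    intro g
    have h1 : (g * a * g⁻¹) • g • o = g • o := by
      rw [mul_smul, inv_smul_smul, mul_smul, hao]
    obtain ⟨k, hk, _, hk2⟩ := Subgroup.exists_pow_mem_of_relIndex_ne_zero (hleft (g • o))
      (a := g * a * g⁻¹) h1
    obtain ⟨j, hj⟩ := hk2.1
    have hj' : g * a ^ (k : ℤ) * g⁻¹ = a ^ j := by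
      rw [← conj_zpow, zpow_natCast]
      exact hj.symm
    have habs := hBS a g o k j hao hinf hj'
    refine ⟨k, by exact_mod_cast hk.ne', ?_⟩
    rcases abs_eq_abs.1 habs with h2 | h2
    · left
      rw [hj', ← h2]
    · right
      rw [hj']
      congr 1
      rw [h2, neg_neg]

end

/-! ## polygonal complexes -/

section poly

variable {V G : Type} [Group G] [MulAction G V]

theorem normExtAb_mem {P : ∀ (H V : Type) [Group H] [MulAction H V], Cx V → Prop}
    {C : ∀ (H : Type) [Group H], Prop} (hC : FJClass C)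
    (hG : ∀ (H : Type) [Group H], GeomP P H → C H) (H : Type) [Group H]
    (h : NormExt P (fun H _ => Ab H) H) : C H :=
  centExt_mem hC hG H (centExt_of_normExt h)

theorem normExtMet_mem {P : ∀ (H V : Type) [Group H] [MulAction H V], Cx V → Prop}
    {C : ∀ (H : Type) [Group H], Prop} (hC : FJClass C)
    (hM : ∀ (H : Type) [Group H], Metab H → C H)
    (hG : ∀ (H : Type) [Group H], GeomP P H → C H) (H : Type) [Group H]
    (h : NormExt P (fun H _ => Metab H) H) : C H := by
  obtain ⟨N, hN, hB, hq⟩ := h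
  refine hC.ext H N (hG _ hq) ?_ ?_
  · refine hC.emb _ _ (Subgroup.inclusion (le_sup_left : N ≤ N ⊔ Subgroup.zpowers 1))
      (Subgroup.inclusion_injective _) (hM _ (hB 1))
  · intro g _
    exact hM _ (hB g)

/-- **Groups with a homomorphism whose kernel acts properly.** -/
theorem hom_main {P : ∀ (H V : Type) [Group H] [MulAction H V], Cx V → Prop} (hP : Hered P)
    {C : ∀ (H : Type) [Group H], Prop} (hC : FJClass C)
    (hG : ∀ (H : Type) [Group H], GeomP P H → C H) [Nonempty V] (X : Cx V) (hX : X.SC)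
    (hPX : P G V X) (hI : Inv G X) (hFO : FinOrb G V)
    {Q : Type} [Group Q] (hQ : C Q) (f : G →* Q)
    (hfin : ∀ v : V, {g : G | g • v = v ∧ f g = 1}.Finite) : C G := by
  have hres : ∀ D : Subgroup G, P D V X := fun D =>
    hP G V D V X X (fun d => (d : G)) id (fun _ _ => rfl)
      ⟨fun _ _ h => h, fun _ _ _ _ _ h => h, fun l h => by simpa using h⟩ hPX
  refine hC.ext G f.ker ?_ ?_ ?_
  · exact hC.emb _ _ (QuotientGroup.kerLift f) (QuotientGroup.kerLift_injective f) hQ
  · apply hC.colim
    refine (uni_main hP ab_embCyc X hX (hres f.ker) (hI.subgroup _) (triv_uni' ?_)).mono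
      (fun H _ hH => normExtAb_mem hC hG H hH)
    intro v
    haveI := (hfin v).to_subtype
    refine Finite.of_injective (β := {g : G | g • v = v ∧ f g = 1})
      (fun x : MulAction.stabilizer f.ker v => ⟨x.1.1, x.2, x.1.2⟩) ?_
    intro x y hxy
    exact Subtype.ext (Subtype.ext (congrArg (fun z => z.1) hxy))
  · intro g hg
    apply hC.colim
    have hfg : ¬ IsOfFinOrder (f g) := by
      intro h
      apply hg
      have e : f g = QuotientGroup.kerLift f (QuotientGroup.mk g) := rfl
      rw [e] at h
      rw [isOfFinOrder_iff_pow_eq_one] at h ⊢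
      obtain ⟨n, hn, h1⟩ := h
      refine ⟨n, hn, QuotientGroup.kerLift_injective f ?_⟩
      rw [map_pow, map_one]
      exact h1
    refine (uni_main hP ab_embCyc X hX (hres _) (hI.subgroup _)
      (uni_of_cyclic (f.comp (f.ker ⊔ Subgroup.zpowers g).subtype) (f g) hfg ?_ ?_
        (hFO.subgroup _))).mono (fun H _ hH => normExtAb_mem hC hG H hH)
    · intro x
      have h2 : f x.1 ∈ (f.ker ⊔ Subgroup.zpowers g).map f := Subgroup.mem_map_of_mem _ x.2
      rw [Subgroup.map_sup, MonoidHom.map_zpowers] at h2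
      have h4 : f.ker.map f = ⊥ := by
        rw [Subgroup.map_eq_bot_iff]
      rw [h4, bot_sup_eq] at h2
      obtain ⟨k, hk⟩ := h2
      exact ⟨k, hk.symm⟩
    · intro v
      refine Set.Finite.of_finite_image (f := fun x : ↥(f.ker ⊔ Subgroup.zpowers g) => (x : G))
        ((hfin v).subset ?_) (fun x _ y _ h => Subtype.ext h)
      rintro _ ⟨x, ⟨h1, h2⟩, rfl⟩
      exact ⟨h1, h2⟩

/-- **Virtually cyclic stabilizers.** -/
theorem virtCyc_main {P : ∀ (H V : Type) [Group H] [MulAction H V], Cx V → Prop} (hP : Hered P)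
    {C : ∀ (H : Type) [Group H], Prop} (hC : FJClass C)
    (hM : ∀ (H : Type) [Group H], Metab H → C H)
    (hG : ∀ (H : Type) [Group H], GeomP P H → C H) [Nonempty V] (X : Cx V) (hX : X.SC)
    (hPX : P G V X) (hI : Inv G X) (hFO : FinOrb G V) (hV : VirtCyc G V) (hBS : NoBS G V) :
    C G :=
  hC.colim _ ((uni_main hP metab_embCyc X hX hPX hI (uni_of_virtCyc hFO hV hBS)).mono
    (fun H _ hH => normExtMet_mem hC hM hG H hH))

end poly

end Pool.Agent.H751.PC
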