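import Pool.Agent.H751.PC.Comm

/-!
# Classes of groups with the closure properties of the class of Farrell-Jones groups
-/

set_option autoImplicit false
set_option linter.style.haveILetI false

namespace Pool.Agent.H751.PC

open List

/-- Closure properties of a class of groups: groups that embed, colimits of directed systems,
extensions with kernel in the class, quotient in the class and the preimages of all infinite cyclic
subgroups of the quotient in the class; the class contains the abelian groups. -/
structure FJClass (C : ∀ (H : Type) [Group H], Prop) : Prop where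
  emb : ∀ (H K : Type) [Group H] [Group K] (f : H →* K), Function.Injective f → C K → C H
  colim : ∀ (G : Type) [Group G], DirColim (fun H _ => C H) G → C G
  ab : ∀ (H : Type) [Group H], Ab H → C H
  ext : ∀ (G : Type) [Group G] (N : Subgroup G) [N.Normal], C (G ⧸ N) → C N →
    (∀ g : G, ¬ IsOfFinOrder (QuotientGroup.mk g : G ⧸ N) → C ↥(N ⊔ Subgroup.zpowers g)) → C G

theorem DirColim.mono {D E : ∀ (H : Type) [Group H], Prop} {G : Type} [Group G]
    (h : DirColim (fun H _ => D H) G) (hDE : ∀ (H : Type) [Group H], D H → E H) :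
    DirColim (fun H _ => E H) G := by
  obtain ⟨I, i1, i2, H, i3, f, g, h1, h2, h3, h4, h5, h6, h7⟩ := h
  exact ⟨I, i1, i2, H, i3, f, g, h1, h2, h3, h4, h5, h6, fun i => hDE _ (h7 i)⟩

section

variable {V G : Type} [Group G] [MulAction G V]

theorem proper_main {P : ∀ (H V : Type) [Group H] [MulAction H V], Cx V → Prop} (hP : Hered P)
    [Nonempty V] (X : Cx V) (hX : X.SC) (hPX : P G V X) (hp : Proper G X) :
    DirColim (fun H _ => GeomP P H) G := by
  let o : V := Classical.arbitrary V
  refine colim_sub X hp.inv hX o ?_
  intro i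
  letI := gtGroup (sub_inv hp.inv i) o
  letI := gtAct (sub_inv hp.inv i) o
  haveI : Nonempty (Cov (sub G X i) o) := ⟨base _ o⟩
  refine ⟨Cov (sub G X i) o, gtAct (sub_inv hp.inv i) o, inferInstance, cov (sub G X i) o,
    cov_sc (sub G X i) o, ?_, cov_geom hp i o⟩
  exact hP G V (Gt G (sub G X i) o) (Cov (sub G X i) o) X (cov (sub G X i) o)
    (fun x => x.g) (fun p => p.pt) (fun x p => rfl) (cov_imm (sub G X i) X o (sub_le X i)) hPX

theorem centExt_mem {P : ∀ (H V : Type) [Group H] [MulAction H V], Cx V → Prop}
    {C : ∀ (H : Type) [Group H], Prop} (hC : FJClass C)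
    (hG : ∀ (H : Type) [Group H], GeomP P H → C H) (H : Type) [Group H]
    (h : CentExt P H) : C H := by
  obtain ⟨N, hN, hc, hq⟩ := h
  have hcomm : ∀ g : H, ∀ x ∈ N ⊔ Subgroup.zpowers g, ∀ y ∈ N ⊔ Subgroup.zpowers g,
      x * y = y * x := by
    intro g x hx y hy
    have h1 : N ⊔ Subgroup.zpowers g ≤ Subgroup.centralizer {g} := by
      refine sup_le ?_ ?_
      · intro b hb
        rw [Subgroup.mem_centralizer_singleton_iff]
        exact ((Subgroup.mem_center_iff.1 (hc hb)) g).symm
      · rw [Subgroup.zpowers_le, Subgroup.mem_centralizer_singleton_iff]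
    have h2 : N ⊔ Subgroup.zpowers g ≤ Subgroup.centralizer {x} := by
      refine sup_le ?_ ?_
      · intro b hb
        rw [Subgroup.mem_centralizer_singleton_iff]
        exact ((Subgroup.mem_center_iff.1 (hc hb)) x).symm
      · rw [Subgroup.zpowers_le, Subgroup.mem_centralizer_singleton_iff]
        have := h1 hx
        rw [Subgroup.mem_centralizer_singleton_iff] at this
        exact this.symm
    have h3 := h2 hy
    rw [Subgroup.mem_centralizer_singleton_iff] at h3
    exact h3.symm
  refine hC.ext H N (hG _ hq) ?_ ?_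
  · apply hC.ab
    intro x y
    apply Subtype.ext
    exact ((Subgroup.mem_center_iff.1 (hc x.2)) y.1).symm
  · intro g _
    apply hC.ab
    intro x y
    exact Subtype.ext (hcomm g x.1 x.2 y.1 y.2)

/-- restriction of the condition of commensurability to a subgroup -/
theorem comm_subgroup {D : Subgroup G} {a b : V}
    (h : (MulAction.stabilizer G b).relIndex (MulAction.stabilizer G a) ≠ 0) :
    (MulAction.stabilizer D b).relIndex (MulAction.stabilizer D a) ≠ 0 := by
  have e : MulAction.stabilizer D b = (MulAction.stabilizer G b).comap D.subtype := rfl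
  rw [e, Subgroup.relIndex_comap]
  intro h0
  refine h (Subgroup.relIndex_eq_zero_of_le_right ?_ h0)
  rintro _ ⟨x, hx, rfl⟩
  exact hx

/-- **Groups with a homomorphism that is virtually injective on the stabilizers.** -/
theorem fj_main {P : ∀ (H V : Type) [Group H] [MulAction H V], Cx V → Prop} (hP : Hered P)
    {C : ∀ (H : Type) [Group H], Prop} (hC : FJClass C)
    (hG : ∀ (H : Type) [Group H], GeomP P H → C H) [Nonempty V] (X : Cx V) (hX : X.SC)
    (hPX : P G V X) (hI : Inv G X)
    (comm : ∀ a b, X.adj a b →
      (MulAction.stabilizer G b).relIndex (MulAction.stabilizer G a) ≠ 0)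
    {Q : Type} [Group Q] (hQ : C Q) (f : G →* Q) (A : Subgroup G) (o : V)
    (hA : A.relIndex (MulAction.stabilizer G o) ≠ 0) (hinj : ∀ a ∈ A, f a = 1 → a = 1) :
    C G := by
  have hres : ∀ D : Subgroup G, P D V X := fun D =>
    hP G V D V X X (fun d => (d : G)) id (fun _ _ => rfl)
      ⟨fun _ _ h => h, fun _ _ _ _ _ h => h, fun l h => by simpa using h⟩ hPX
  have hall : ∀ v : V, (MulAction.stabilizer G o).relIndex (MulAction.stabilizer G v) ≠ 0 := by
    intro v
    have := hX.conn o v
    induction this with
    | refl => simp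
    | @tail b c _ hbc ih => exact Subgroup.relIndex_ne_zero_trans ih (comm c b (X.symm _ _ hbc))
  refine hC.ext G f.ker ?_ ?_ ?_
  · exact hC.emb _ _ (QuotientGroup.kerLift f) (QuotientGroup.kerLift_injective f) hQ
  · -- the kernel
    apply hC.colim
    refine (proper_main hP X hX (hres f.ker) ⟨hI.subgroup _, ?_⟩).mono hG
    intro v
    have h1 : A.relIndex (MulAction.stabilizer G v) ≠ 0 :=
      Subgroup.relIndex_ne_zero_trans hA (hall v)
    have h2 : (⊥ : Subgroup f.ker).relIndex (MulAction.stabilizer f.ker v) ≠ 0 := by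
      have e : (⊥ : Subgroup f.ker) = A.comap f.ker.subtype := by
        ext x
        rw [Subgroup.mem_bot, Subgroup.mem_comap]
        constructor
        · rintro rfl
          exact A.one_mem
        · intro hx
          exact Subtype.ext (hinj x.1 hx x.2)
      rw [e, Subgroup.relIndex_comap]
      intro h0
      refine h1 (Subgroup.relIndex_eq_zero_of_le_right ?_ h0)
      rintro _ ⟨x, hx, rfl⟩
      exact hx
    rw [Subgroup.relIndex_bot_left] at h2
    exact Nat.finite_of_card_ne_zero h2
  · -- the preimages of the cyclic subgroups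
    intro g _
    apply hC.colim
    have hD : ∀ x : ↥(f.ker ⊔ Subgroup.zpowers g), f x.1 ∈ Subgroup.zpowers (f g) := by
      intro x
      have h2 : f x.1 ∈ (f.ker ⊔ Subgroup.zpowers g).map f := Subgroup.mem_map_of_mem _ x.2
      rw [Subgroup.map_sup, MonoidHom.map_zpowers] at h2
      have h4 : f.ker.map f = ⊥ := by
        rw [Subgroup.map_eq_bot_iff]
      rwa [h4, bot_sup_eq] at h2
    have hcc : CommCent ↥(f.ker ⊔ Subgroup.zpowers g) X o := by
      refine commCent_of_hom hX (f.comp (f.ker ⊔ Subgroup.zpowers g).subtype) ?_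
        (A.comap (f.ker ⊔ Subgroup.zpowers g).subtype) ?_ ?_ ?_
      · intro x y
        obtain ⟨k, hk⟩ := hD x
        obtain ⟨l, hl⟩ := hD y
        change f x.1 * f y.1 = f y.1 * f x.1
        rw [← hk, ← hl]
        change f g ^ k * f g ^ l = f g ^ l * f g ^ k
        rw [← zpow_add, ← zpow_add, add_comm]
      · rw [Subgroup.relIndex_comap]
        intro h0
        refine hA (Subgroup.relIndex_eq_zero_of_le_right ?_ h0)
        rintro _ ⟨x, hx, rfl⟩
        exact hx
      · intro a ha h1
        exact Subtype.ext (hinj a.1 ha h1)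
      · intro a b hab
        exact comm_subgroup (comm a b hab)
    refine (uni_main hP ab_embCyc X hX (hres _) (hI.subgroup _) (hcc.uni hX)).mono ?_
    intro H _ hH
    exact centExt_mem hC hG H (centExt_of_normExt hH)

end

end Pool.Agent.H751.PC
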