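import Pool.Agent.H751.PC.Rel

/-!
# Small cancellation complexes and complexes with negative angle sums
-/

set_option autoImplicit false

namespace Pool.Agent.H751.PC

open List

/-- a path (the list of its vertices) of length at least one which lies on the boundaries of two
different faces -/
def Cx.Piece {V : Type} (X : Cx V) (w : List V) : Prop :=
  2 ≤ w.length ∧ ∃ m m' : List V, X.face (w ++ m) ∧ X.face (w ++ m') ∧ m ≠ m'

/-- the path is a product of `k` pieces -/
inductive Cx.Pieces {V : Type} (X : Cx V) : ℕ → List V → Prop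
  | nil (a : V) : Cx.Pieces X 0 [a]
  | cons (k : ℕ) (w : List V) (b : V) (t : List V) : X.Piece (w ++ [b]) →
      Cx.Pieces X k (b :: t) → Cx.Pieces X (k + 1) (w ++ b :: t)

/-- the small cancellation condition `C(p)`: no boundary path of a face is a product of fewer than
`p` pieces -/
def Cx.C {V : Type} (X : Cx V) (p : ℕ) : Prop :=
  ∀ (k : ℕ) (a : V) (l : List V), X.face (a :: l) → X.Pieces k (a :: (l ++ [a])) → p ≤ k

/-- `x 0, x 1, …, x m = x 0` is a closed path without backtracking in the link of `v`; its `i`-th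
edge is the corner at `v` of the face with the boundary `x i, v, x (i + 1), l i` -/
def Cx.LinkPath {V : Type} (X : Cx V) (v : V) (m : ℕ) (x : ℕ → V) (l : ℕ → List V) : Prop :=
  (∀ i, x (i + m) = x i) ∧ (∀ i, l (i + m) = l i) ∧
  (∀ i, X.face (x i :: v :: x (i + 1) :: l i)) ∧
  (∀ i, ¬ (x (i + 2) = x i ∧ l (i + 1) = (l i).reverse))

/-- the small cancellation condition `T(q)`: no closed paths without backtracking of a length `m`
with `3 ≤ m < q` in the links of the vertices -/
def Cx.T {V : Type} (X : Cx V) (q : ℕ) : Prop :=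
  ∀ (v : V) (m : ℕ) (x : ℕ → V) (l : ℕ → List V), 3 ≤ m → X.LinkPath v m x l → q ≤ m

/-- Negative curvature: the corners of the faces have invariant nonnegative angles
(`ang (a :: v :: b :: l)` is the angle at `v` of the face `a, v, b, …`), the sum of the angles of
each face with `n` sides is less than `(n - 2) π`, and the sum of the angles is at least `2 π` along
every closed path without backtracking in the link of a vertex. -/
structure Neg (H : Type) {V : Type} [Group H] [MulAction H V] (X : Cx V) (ang : List V → ℝ) :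
    Prop where
  nonneg : ∀ l, X.face l → 0 ≤ ang l
  symm : ∀ a v b l, X.face (a :: v :: b :: l) →
    ang (b :: v :: a :: l.reverse) = ang (a :: v :: b :: l)
  inv : ∀ (g : H) l, X.face l → ang (l.map (g • ·)) = ang l
  face : ∀ l, X.face l →
    ∑ k ∈ Finset.range l.length, ang (l.rotate k) < ((l.length : ℝ) - 2) * Real.pi
  link : ∀ v m x l, 1 ≤ m → X.LinkPath v m x l →
    2 * Real.pi ≤ ∑ i ∈ Finset.range m, ang (x i :: v :: x (i + 1) :: l i)

/-- the complex is a small cancellation complex of hyperbolic type, or it is negatively curved -/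
def Hyp (H V : Type) [Group H] [MulAction H V] (X : Cx V) : Prop :=
  (∃ p q : ℕ, 3 ≤ p ∧ 3 ≤ q ∧ (1 : ℝ) / p + 1 / q < 1 / 2 ∧ X.C p ∧ X.T q) ∨
    ∃ ang : List V → ℝ, Neg H X ang

section

variable {V W : Type} {X : Cx V} {Z : Cx W} {f : V → W}

/-- faces with a common edge are determined by their images -/
theorem Imm.face_inj (h : Imm X Z f) {w m m' : List V} (hw : w ≠ []) (h1 : X.face (w ++ m))
    (h2 : X.face (w ++ m')) (e : m.map f = m'.map f) : m = m' := by
  obtain ⟨w', z, rfl⟩ : ∃ w' z, w = w' ++ [z] := by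
    rcases List.eq_nil_or_concat w with h | ⟨L', z, h⟩
    · exact absurd h hw
    · exact ⟨L', z, by rw [h, List.concat_eq_append]⟩
  have c : ∀ m : List V, X.face (w' ++ [z] ++ m) → (z :: m).IsChain X.adj := by
    intro m hm
    have h3 := (X.face_cyc hm).isChain
    rw [List.append_assoc, List.isChain_append] at h3
    exact h3.2.1
  exact h.walk m m' z (c m h1) (c m' h2) e

theorem Imm.piece (h : Imm X Z f) {w : List V} (hw : X.Piece w) : Z.Piece (w.map f) := by
  obtain ⟨h2, m, m', h3, h4, h5⟩ := hw
  refine ⟨by simpa using h2, m.map f, m'.map f, by simpa using h.face _ h3,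
    by simpa using h.face _ h4, fun e => h5 (h.face_inj ?_ h3 h4 e)⟩
  rintro rfl
  simp at h2

theorem Imm.pieces (h : Imm X Z f) {k : ℕ} {w : List V} (hw : X.Pieces k w) :
    Z.Pieces k (w.map f) := by
  induction hw with
  | nil a => exact Cx.Pieces.nil _
  | cons k w b t h1 _ ih =>
    rw [List.map_append, List.map_cons]
    refine Cx.Pieces.cons k (w.map f) (f b) (t.map f) ?_ ih
    have := h.piece h1
    rwa [List.map_append, List.map_singleton] at this

theorem Imm.C (h : Imm X Z f) {p : ℕ} (hZ : Z.C p) : X.C p := by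
  intro k a l hl hk
  refine hZ k (f a) (l.map f) (by simpa using h.face _ hl) ?_
  have := h.pieces hk
  simpa using this

theorem Imm.linkPath (h : Imm X Z f) {v : V} {m : ℕ} {x : ℕ → V} {l : ℕ → List V}
    (hx : X.LinkPath v m x l) : Z.LinkPath (f v) m (fun i => f (x i)) (fun i => (l i).map f) := by
  obtain ⟨h1, h2, h3, h4⟩ := hx
  refine ⟨fun i => by simp only [h1], fun i => by simp only [h2],
    fun i => by simpa using h.face _ (h3 i), ?_⟩
  rintro i ⟨e1, e2⟩
  have hadj : ∀ i, X.adj v (x i) := fun i => X.symm _ _ (X.edge _ _ _ (h3 i))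
  have e3 := h.inj v _ _ (hadj (i + 2)) (hadj i) e1
  refine h4 i ⟨e3, ?_⟩
  -- the faces `x (i+1), v, x i, …`
  have f1 : X.face ([x (i + 1), v, x i] ++ l (i + 1)) := by
    have := h3 (i + 1)
    have e4 : i + 1 + 1 = i + 2 := rfl
    rw [e4, e3] at this
    exact this
  have f2 : X.face ([x (i + 1), v, x i] ++ (l i).reverse) := by
    have h5 := X.rev _ (h3 i)
    refine X.rot _ _ ?_ h5
    have e5 : (x i :: v :: x (i + 1) :: l i).reverse =
        (l i).reverse ++ [x (i + 1), v, x i] := by simp
    rw [e5]
    exact List.isRotated_append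
  refine h.face_inj (by simp) f1 f2 ?_
  rw [List.map_reverse]
  exact e2

theorem Imm.T (h : Imm X Z f) {q : ℕ} (hZ : Z.T q) : X.T q :=
  fun v m x l hm hx => hZ (f v) m _ _ hm (h.linkPath hx)

theorem Imm.neg {H K : Type} [Group H] [Group K] [MulAction H W] [MulAction K V]
    (φ : K → H) (hφ : ∀ k w, f (k • w) = φ k • f w) (h : Imm X Z f) {ang : List W → ℝ}
    (hZ : Neg H Z ang) : Neg K X (fun l => ang (l.map f)) where
  nonneg l hl := hZ.nonneg _ (h.face _ hl)
  symm a v b l hl := by
    have := hZ.symm (f a) (f v) (f b) (l.map f) (by simpa using h.face _ hl)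
    simpa using this
  inv g l hl := by
    have := hZ.inv (φ g) (l.map f) (h.face _ hl)
    rw [← this, List.map_map, List.map_map]
    congr 1
    apply List.map_congr_left
    intro a _
    exact hφ g a
  face l hl := by
    have := hZ.face _ (h.face _ hl)
    simpa [List.map_rotate] using this
  link v m x l hm hx := by
    have := hZ.link (f v) m _ _ hm (h.linkPath hx)
    simpa using this

end

theorem hyp_hered : Hered Hyp := by
  intro H V K W _ _ _ _ X Y φ f hφ h hX
  rcases hX with ⟨p, q, h1, h2, h3, h4, h5⟩ | ⟨ang, ha⟩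
  · exact Or.inl ⟨p, q, h1, h2, h3, h.C h4, h.T h5⟩
  · exact Or.inr ⟨_, h.neg φ hφ ha⟩

theorem small_main {C : ∀ (H : Type) [Group H], Prop}
    (hC : ∀ (H K : Type) [Group H] [Group K], Nonempty (H ≃* K) → C H → C K)
    {G V : Type} [Group G] [MulAction G V] [Nonempty V] (X : Cx V) (hX : X.SC)
    (hH : Hyp G V X) (hI : Inv G X) (hE : FinEdges G X)
    (hV : ∀ v : V, C (MulAction.stabilizer G v)) :
    DirColim (fun H _ => Rel Hyp C H) G :=
  rel_main hyp_hered hC X hX hH hI hE hV

end Pool.Agent.H751.PC
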