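import Pool.Agent.H751.PC.Large
import Pool.Agent.H751.PC.Small

/-!
# Hereditary clique-Helly graphs with simply connected flag complexes, and `C(4)`-`T(4)` complexes
-/

set_option autoImplicit false
set_option linter.style.haveILetI false

namespace Pool.Agent.H751.PC

open List

/-- The graph is hereditary clique-Helly (the criterion of Prisner): for every triangle `a, b, c` at
least one of the three edges has the property that all its vertices' common neighbours are equal or
adjacent to the third vertex of the triangle. -/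
def HCH {V : Type} (S : SimpleGraph V) : Prop :=
  ∀ a b c x y z : V, S.Adj a b → S.Adj b c → S.Adj c a →
    (S.Adj x a ∧ S.Adj x b ∧ x ≠ c ∧ ¬ S.Adj x c) →
    (S.Adj y b ∧ S.Adj y c ∧ y ≠ a ∧ ¬ S.Adj y a) →
    (S.Adj z c ∧ S.Adj z a ∧ z ≠ b ∧ ¬ S.Adj z b) → False

/-- The group `H` acts properly and cocompactly on a locally finite hereditary clique-Helly graph
with a simply connected flag complex. -/
def HellyGroup (H : Type) [Group H] : Prop :=
  ∃ (V : Type) (_ : MulAction H V) (_ : Nonempty V) (S : SimpleGraph V), (tri S).SC ∧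
    HCH S ∧ (∀ (g : H) a b, S.Adj a b → S.Adj (g • a) (g • b)) ∧
    (∀ v, (S.neighborSet v).Finite) ∧ (∀ v : V, Finite (MulAction.stabilizer H v)) ∧
    ∃ F : Set V, F.Finite ∧ ∀ v : V, ∃ g : H, g • v ∈ F

/-- The group `H` acts properly and cocompactly on a simply connected `C(4)`-`T(4)` complex. -/
def FourFour (H : Type) [Group H] : Prop :=
  ∃ (V : Type) (_ : MulAction H V) (_ : Nonempty V) (X : Cx V), X.SC ∧ X.C 4 ∧ X.T 4 ∧
    Geom H X ∧ Cofin H X

section

variable {V G : Type} [Group G] [MulAction G V]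

theorem covG_hch {S : SimpleGraph V} (h : HCH S) (K : Finset V) (o : V) :
    HCH (covG (oG G S K) o) := by
  have himm := cov_imm (tri (oG G S K)) (tri S) o (oG_le S K)
  have hS : ∀ p q : Cov (tri (oG G S K)) o, (covG (oG G S K) o).Adj p q → S.Adj p.pt q.pt :=
    fun p q h => h.1.1
  -- an ear of an edge projects to an ear
  have key : ∀ a b c x : Cov (tri (oG G S K)) o, (covG (oG G S K) o).Adj a b →
      (covG (oG G S K) o).Adj b c → (covG (oG G S K) o).Adj c a →
      ((covG (oG G S K) o).Adj x a ∧ (covG (oG G S K) o).Adj x b ∧ x ≠ c ∧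
        ¬ (covG (oG G S K) o).Adj x c) →
      (S.Adj x.pt a.pt ∧ S.Adj x.pt b.pt ∧ x.pt ≠ c.pt ∧ ¬ S.Adj x.pt c.pt) := by
    intro a b c x _ _ hca hx
    obtain ⟨h1, h2, h3, h4⟩ := hx
    have hax : cadj (tri (oG G S K)) o a x := cadj_symm _ _ _ _ h1
    have hac : cadj (tri (oG G S K)) o a c := cadj_symm _ _ _ _ hca
    refine ⟨hS _ _ h1, hS _ _ h2, ?_, ?_⟩
    · intro e
      exact h3 (himm.inj a x c hax hac e)
    · intro e
      exact h4 (cadj_of_adj hax hac ⟨e, hax.1.2.2, hac.1.2.2⟩)
  intro a b c x y z hab hbc hca hx hy hz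
  exact h a.pt b.pt c.pt x.pt y.pt z.pt (hS _ _ hab) (hS _ _ hbc) (hS _ _ hca)
    (key a b c x hab hbc hca hx) (key b c a y hbc hca hab hy) (key c a b z hca hab hbc hz)

/-- **Groups which act with finite stabilizers on locally finite hereditary clique-Helly graphs with
simply connected flag complexes** -/
theorem hch_main [Nonempty V] (S : SimpleGraph V) (hX : (tri S).SC) (hL : HCH S)
    (hS : ∀ (g : G) a b, S.Adj a b → S.Adj (g • a) (g • b))
    (hfin : ∀ v, (S.neighborSet v).Finite) (hst : ∀ v : V, Finite (MulAction.stabilizer G v)) :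
    DirColim (fun H _ => HellyGroup H) G := by
  classical
  let o : V := Classical.arbitrary V
  refine colim_main (tri S) hX o (Finset V) ?_ (fun K => tri (oG G S K)) (fun K => oG_inv hS K)
    (oG_mono S) (oG_le S) ?_ ?_ ?_
  · intro i j
    exact ⟨i ⊔ j, le_sup_left, le_sup_right⟩
  · intro a b hab
    exact ⟨{a, b}, hab, ⟨1, a, by simp, one_smul _ _⟩, ⟨1, b, by simp, one_smul _ _⟩⟩
  · rintro l ⟨a, b, c, rfl, h1, h2, h3⟩
    have ha : ∃ g : G, ∃ u ∈ ({a, b, c} : Finset V), g • u = a := ⟨1, a, by simp, one_smul _ _⟩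
    have hb : ∃ g : G, ∃ u ∈ ({a, b, c} : Finset V), g • u = b := ⟨1, b, by simp, one_smul _ _⟩
    have hc : ∃ g : G, ∃ u ∈ ({a, b, c} : Finset V), g • u = c := ⟨1, c, by simp, one_smul _ _⟩
    exact ⟨{a, b, c}, a, b, c, rfl, ⟨h1, ha, hb⟩, ⟨h2, hb, hc⟩, ⟨h3, ha, hc⟩⟩
  · intro K
    letI := gtGroup (oG_inv hS K) o
    letI := gtAct (oG_inv hS K) o
    haveI : Nonempty (Cov (tri (oG G S K)) o) := ⟨base _ o⟩
    refine ⟨Cov (tri (oG G S K)) o, gtAct (oG_inv hS K) o, inferInstance, covG (oG G S K) o,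
      covG_sc _ o, covG_hch hL K o, ?_, ?_, ?_, covG_orbits hS K o⟩
    · intro x a b hab
      exact (gt_inv (oG_inv hS K) o).adj x a b hab
    · intro p
      refine Set.Finite.of_finite_image (f := fun q : Cov (tri (oG G S K)) o => q.pt)
        ((hfin p.pt).subset ?_) ?_
      · rintro _ ⟨q, hq, rfl⟩
        exact hq.1.1
      · intro a ha b hb hab
        exact (cov_imm (tri (oG G S K)) (tri S) o (oG_le S K)).inj p a b ha hb hab
    · intro p
      have := hst p.pt
      exact Finite.of_equiv _ (gtStab (oG_inv hS K) o p).symm.toEquiv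

/-- **Groups which act with finite stabilizers on simply connected `C(4)`-`T(4)` complexes** -/
theorem fourfour_main [Nonempty V] (X : Cx V) (hX : X.SC) (hC : X.C 4) (hT : X.T 4)
    (hP : Proper G X) : DirColim (fun H _ => FourFour H) G := by
  let o : V := Classical.arbitrary V
  refine colim_sub X hP.inv hX o ?_
  intro i
  letI := gtGroup (sub_inv hP.inv i) o
  letI := gtAct (sub_inv hP.inv i) o
  haveI : Nonempty (Cov (sub G X i) o) := ⟨base _ o⟩
  have himm := cov_imm (sub G X i) X o (sub_le X i)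
  exact ⟨Cov (sub G X i) o, gtAct (sub_inv hP.inv i) o, inferInstance, cov (sub G X i) o,
    cov_sc (sub G X i) o, himm.C hC, himm.T hT, cov_geom hP i o, cov_cofin hP.inv i o⟩

end

end Pool.Agent.H751.PC
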