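import Pool.Agent.H751.PC.Colim

/-!
# Polygonal complexes of nonpositive curvature, and actions with finite stabilizers
-/

set_option autoImplicit false
set_option linter.style.haveILetI false

namespace Pool.Agent.H751.PC

open List

/-- the group acts with finite stabilizers of the vertices -/
structure Proper (H : Type) {V : Type} [Group H] [MulAction H V] (X : Cx V) : Prop where
  inv : Inv H X
  stab : ∀ v : V, Finite (MulAction.stabilizer H v)

/-- the group acts properly and cocompactly on the complex, which is locally finite -/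
structure Geom (H : Type) {V : Type} [Group H] [MulAction H V] (X : Cx V) : Prop where
  proper : Proper H X
  verts : ∃ S : Set V, S.Finite ∧ ∀ v : V, ∃ g : H, g • v ∈ S
  nbrs : ∀ v : V, {w | X.adj v w}.Finite
  faces : ∃ n : ℕ, ∀ l, X.face l → l.length ≤ n

/-- twice the oriented area of a triangle in the plane -/
def orient (x y z : ℂ) : ℝ := ((starRingEnd ℂ) (y - x) * (z - x)).im

/-- The complex with the edge lengths `len` and the angles `ang a v b`, the angle at `v` of the face
with the corner `a, v, b`, is piecewise Euclidean of nonpositive curvature: every face is a convex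
Euclidean polygon with these side lengths and these angles, two different faces have no
common corner, and the angles along each embedded closed path of length at least three in the link
of a vertex have at least the sum `2 π`. -/
structure Flat {V : Type} (X : Cx V) (len : V → V → ℝ) (ang : V → V → V → ℝ) : Prop where
  len_pos : ∀ a b, X.adj a b → 0 < len a b
  len_symm : ∀ a b, len a b = len b a
  ang_symm : ∀ a v b, ang a v b = ang b v a
  polygon : ∀ l, X.face l → ∃ p : V → ℂ,
    (∀ a b c, [a, b, c] <+ l → 0 < orient (p a) (p b) (p c)) ∧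
    (∀ a b m, l ~r (a :: b :: m) → ‖p a - p b‖ = len a b) ∧
    (∀ a v b m, l ~r (a :: v :: b :: m) →
      InnerProductGeometry.angle (p a - p v) (p b - p v) = ang a v b)
  corner : ∀ a v b l l', X.face (a :: v :: b :: l) → X.face (a :: v :: b :: l') → l = l'
  link : ∀ (v : V) (m : ℕ) (x : ℕ → V), 3 ≤ m → x m = x 0 →
    (∀ i < m, ∀ j < m, x i = x j → i = j) →
    (∀ i < m, ∃ l, X.face (x i :: v :: x (i + 1) :: l)) →
    2 * Real.pi ≤ ∑ i ∈ Finset.range m, ang (x i) v (x (i + 1))

/-- the lengths and the angles are invariant -/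
structure InvMetric (G : Type) {V : Type} [Group G] [MulAction G V] (len : V → V → ℝ)
    (ang : V → V → V → ℝ) : Prop where
  len : ∀ (g : G) a b, len (g • a) (g • b) = len a b
  ang : ∀ (g : G) a v b, ang (g • a) (g • v) (g • b) = ang a v b

/-- the group acts properly and cocompactly by isometries on a simply connected piecewise Euclidean
polygonal complex of nonpositive curvature -/
def Cat0 (H : Type) [Group H] : Prop :=
  ∃ (V : Type) (_ : MulAction H V) (_ : Nonempty V) (X : Cx V) (len : V → V → ℝ)
    (ang : V → V → V → ℝ), X.SC ∧ Flat X len ang ∧ InvMetric H len ang ∧ Geom H X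

/-- walks are determined by their images under an immersion -/
theorem Imm.walk {V W : Type} {X : Cx V} {Z : Cx W} {f : V → W} (h : Imm X Z f) :
    ∀ (l l' : List V) (a : V), (a :: l).IsChain X.adj → (a :: l').IsChain X.adj →
      l.map f = l'.map f → l = l'
  | [], [], _, _, _, _ => rfl
  | [], _ :: _, _, _, _, e => by simp at e
  | _ :: _, [], _, _, _, e => by simp at e
  | x :: l, y :: l', a, h1, h2, e => by
    rw [List.isChain_cons_cons] at h1 h2
    simp only [List.map_cons, List.cons.injEq] at e
    have := h.inj a x y h1.1 h2.1 e.1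
    subst this
    rw [h.walk l l' x h1.2 h2.2 e.2]

theorem Flat.pull {V W : Type} {X : Cx V} {Z : Cx W} {f : V → W} (h : Imm X Z f)
    {len : W → W → ℝ} {ang : W → W → W → ℝ} (hZ : Flat Z len ang) :
    Flat X (fun a b => len (f a) (f b)) (fun a v b => ang (f a) (f v) (f b)) where
  len_pos a b hab := hZ.len_pos _ _ (h.adj _ _ hab)
  len_symm a b := hZ.len_symm _ _
  ang_symm a v b := hZ.ang_symm _ _ _
  polygon l hl := by
    obtain ⟨p, h1, h2, h3⟩ := hZ.polygon _ (h.face _ hl)
    refine ⟨fun a => p (f a), ?_, ?_, ?_⟩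
    · intro a b c hs
      exact h1 _ _ _ (by simpa using hs.map f)
    · intro a b m hm
      exact h2 _ _ (m.map f) (by simpa using hm.map f)
    · intro a v b m hm
      exact h3 _ _ _ (m.map f) (by simpa using hm.map f)
  corner a v b l l' h1 h2 := by
    have e := hZ.corner (f a) (f v) (f b) (l.map f) (l'.map f) (by simpa using h.face _ h1)
      (by simpa using h.face _ h2)
    have c1 : ∀ l : List V, X.face (a :: v :: b :: l) → (b :: l).IsChain X.adj := by
      intro l hl
      have := X.face_chain hl
      have e : a :: (v :: b :: l ++ [a]) = [a, v] ++ ((b :: l) ++ [a]) := by simp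
      rw [e, List.isChain_append] at this
      have h4 := this.2.1
      rw [List.isChain_append] at h4
      exact h4.1
    exact h.walk l l' b (c1 l h1) (c1 l' h2) e
  link v m x hm hx hinj hf := by
    have hadj : ∀ i < m, X.adj v (x i) := by
      intro i hi
      obtain ⟨l, hl⟩ := hf i hi
      exact X.symm _ _ (X.edge _ _ _ hl)
    refine hZ.link (f v) m (fun i => f (x i)) hm (by rw [hx]) ?_ ?_
    · intro i hi j hj e
      exact hinj i hi j hj (h.inj v _ _ (hadj i hi) (hadj j hj) e)
    · intro i hi
      obtain ⟨l, hl⟩ := hf i hi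
      exact ⟨l.map f, by simpa using h.face _ hl⟩

/-! ## finiteness -/

section fin

variable {V G : Type} [Group G] [MulAction G V]

theorem finite_moves {u : V} (h : Finite (MulAction.stabilizer G u)) (v : V) :
    {g : G | g • u = v}.Finite := by
  by_cases hne : ∃ g : G, g • u = v
  · obtain ⟨g, hg⟩ := hne
    have h1 : (Set.range fun s : MulAction.stabilizer G u => g * s.1).Finite := Set.finite_range _
    refine h1.subset ?_
    intro k hk
    refine ⟨⟨g⁻¹ * k, ?_⟩, by simp⟩
    rw [MulAction.mem_stabilizer_iff, mul_smul, hk, ← hg, inv_smul_smul]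
  · convert Set.finite_empty
    ext g
    simp only [Set.mem_ofPred_eq, Set.mem_empty_iff_false, iff_false]
    exact fun hg => hne ⟨g, hg⟩

theorem sub_nbrs {X : Cx V} (h : Proper G X) (i : Finset (V × V) × Finset (List V)) (v : V) :
    {w | (sub G X i).adj v w}.Finite := by
  have h1 : (⋃ p ∈ i.1, ((fun g : G => g • p.2) '' {g : G | g • p.1 = v} ∪
      (fun g : G => g • p.1) '' {g : G | g • p.2 = v})).Finite := by
    refine Set.Finite.biUnion i.1.finite_toSet ?_
    intro p _
    exact ((finite_moves (h.stab p.1) v).image _).union ((finite_moves (h.stab p.2) v).image _)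
  refine h1.subset ?_
  rintro w ⟨_, g, p, hp, ⟨e1, e2⟩ | ⟨e1, e2⟩⟩
  · exact Set.mem_biUnion hp (Or.inl ⟨g, e1, e2⟩)
  · exact Set.mem_biUnion hp (Or.inr ⟨g, e2, e1⟩)

/-- the reachable vertices are in finitely many orbits -/
theorem sub_orbits (X : Cx V) (i : Finset (V × V) × Finset (List V)) (o : V) :
    ∃ S : Set V, S.Finite ∧ ∀ (v : V) (γ : Pg (sub G X i)), Reach (sub G X i) o v γ →
      ∃ g : G, ∃ s ∈ S, v = g • s := by
  refine ⟨{o} ∪ (Prod.fst '' (i.1 : Set (V × V)) ∪ Prod.snd '' (i.1 : Set (V × V))),
    (Set.finite_singleton o).union ((i.1.finite_toSet.image _).union (i.1.finite_toSet.image _)),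
    ?_⟩
  intro v γ hr
  cases hr with
  | refl => exact ⟨1, o, Or.inl rfl, (one_smul G o).symm⟩
  | step _ ha =>
    obtain ⟨_, g, p, hp, ⟨_, e2⟩ | ⟨e1, _⟩⟩ := ha
    · exact ⟨g, p.2, Or.inr (Or.inr ⟨p, hp, rfl⟩), e2.symm⟩
    · exact ⟨g, p.1, Or.inr (Or.inl ⟨p, hp, rfl⟩), e1.symm⟩

/-- the vertices of the covering are in finitely many orbits -/
theorem cov_orbits {X : Cx V} (hI : Inv G X) (i : Finset (V × V) × Finset (List V)) (o : V) :
    letI := gtGroup (sub_inv hI i) o
    letI := gtAct (sub_inv hI i) o
    ∃ S : Set (Cov (sub G X i) o), S.Finite ∧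
      ∀ p : Cov (sub G X i) o, ∃ x : Gt G (sub G X i) o, x • p ∈ S := by
  classical
  letI := gtGroup (sub_inv hI i) o
  letI := gtAct (sub_inv hI i) o
  obtain ⟨S, hS, hcov⟩ := sub_orbits (G := G) X i o
  let pick : V → Cov (sub G X i) o := fun s =>
    if h : ∃ p : Cov (sub G X i) o, ∃ g : G, p.pt = g • s then h.choose else base _ o
  refine ⟨pick '' S, hS.image _, ?_⟩
  intro p
  obtain ⟨g, s, hs, hps⟩ := hcov p.pt p.γ p.r
  have h : ∃ p : Cov (sub G X i) o, ∃ g : G, p.pt = g • s := ⟨p, g, hps⟩
  have hpick : pick s = h.choose := dif_pos h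
  obtain ⟨g', hg'⟩ := h.choose_spec
  rw [← hpick] at hg'
  obtain ⟨x, _, hx⟩ := gt_trans (sub_inv hI i) o p (pick s) (g' * g⁻¹) (by
    rw [hps, hg', mul_smul, inv_smul_smul])
  exact ⟨x, s, hs, hx.symm⟩

theorem cov_geom {X : Cx V} (h : Proper G X) (i : Finset (V × V) × Finset (List V)) (o : V) :
    letI := gtGroup (sub_inv h.inv i) o
    letI := gtAct (sub_inv h.inv i) o
    Geom (Gt G (sub G X i) o) (cov (sub G X i) o) := by
  letI := gtGroup (sub_inv h.inv i) o
  letI := gtAct (sub_inv h.inv i) o
  refine ⟨⟨gt_inv (sub_inv h.inv i) o, ?_⟩, cov_orbits h.inv i o, ?_, ?_⟩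
  · intro p
    have := h.stab p.pt
    exact Finite.of_equiv _ (gtStab (sub_inv h.inv i) o p).symm.toEquiv
  · intro p
    refine Set.Finite.of_finite_image (f := fun q : Cov (sub G X i) o => q.pt)
      ((sub_nbrs h i p.pt).subset ?_) ?_
    · rintro _ ⟨q, hq, rfl⟩
      exact hq.1
    · intro a ha b hb hab
      exact (cov_imm (sub G X i) X o (sub_le X i)).inj p a b ha hb hab
  · refine ⟨i.2.sup List.length, ?_⟩
    intro l hl
    obtain ⟨⟨_, _, g, m, hm, h3⟩, _⟩ := hl
    have e : m.length = l.length := by
      rcases h3 with h3 | h3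
      · simpa using h3.perm.length_eq
      · simpa using h3.perm.length_eq
    rw [← e]
    exact Finset.le_sup (f := List.length) hm

/-- **Groups which act with finite stabilizers on simply connected polygonal complexes of
nonpositive curvature.** -/
theorem flat_main [Nonempty V] (X : Cx V) (len : V → V → ℝ) (ang : V → V → V → ℝ) (hX : X.SC)
    (hF : Flat X len ang) (hM : InvMetric G len ang) (hP : Proper G X) :
    DirColim (fun H _ => Cat0 H) G := by
  let o : V := Classical.arbitrary V
  refine colim_sub X hP.inv hX o ?_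
  intro i
  letI := gtGroup (sub_inv hP.inv i) o
  letI := gtAct (sub_inv hP.inv i) o
  haveI : Nonempty (Cov (sub G X i) o) := ⟨base _ o⟩
  refine ⟨Cov (sub G X i) o, gtAct (sub_inv hP.inv i) o, inferInstance, cov (sub G X i) o, _, _,
    cov_sc (sub G X i) o, hF.pull (cov_imm (sub G X i) X o (sub_le X i)), ?_, cov_geom hP i o⟩
  constructor
  · intro x a b
    exact hM.len x.g a.pt b.pt
  · intro x a v b
    exact hM.ang x.g a.pt v.pt b.pt

end fin

end Pool.Agent.H751.PC
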