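import Pool.Agent.H751.PC.Rel

/-!
# Locally `k`-large flag complexes (systolic complexes) of any dimension
-/

set_option autoImplicit false
set_option linter.style.haveILetI false

namespace Pool.Agent.H751.PC

open List

/-- the two-skeleton of the flag complex of a graph: the faces are the triangles -/
def tri {V : Type} (S : SimpleGraph V) : Cx V where
  adj := S.Adj
  face l := ∃ a b c, l = [a, b, c] ∧ S.Adj a b ∧ S.Adj b c ∧ S.Adj a c
  symm a b h := h.symm
  irr a := S.loopless.irrefl a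
  rot := by
    rintro l l' ⟨n, hn⟩ ⟨a, b, c, rfl, h1, h2, h3⟩
    obtain ⟨n', hn', hn2⟩ := List.isRotated_iff_mod.1 ⟨n, hn⟩
    subst hn2
    simp only [List.length_cons, List.length_nil] at hn'
    interval_cases n'
    · exact ⟨a, b, c, by simp, h1, h2, h3⟩
    · exact ⟨b, c, a, by simp, h2, h3.symm, h1.symm⟩
    · exact ⟨c, a, b, by simp, h3.symm, h1, h2.symm⟩
    · exact ⟨a, b, c, by simp, h1, h2, h3⟩
  rev := by
    rintro l ⟨a, b, c, rfl, h1, h2, h3⟩
    exact ⟨c, b, a, rfl, h2.symm, h1.symm, h3.symm⟩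
  three := by
    rintro l ⟨a, b, c, rfl, h1, h2, h3⟩
    simp
  nodup := by
    rintro l ⟨a, b, c, rfl, h1, h2, h3⟩
    simp [h1.ne, h2.ne, h3.ne]
  edge := by
    rintro a b l ⟨a', b', c', e, h1, h2, h3⟩
    simp only [List.cons.injEq] at e
    obtain ⟨rfl, rfl, _⟩ := e
    exact h1

/-- The flag complex of the graph is locally `k`-large: the link of a vertex has no full cycles of
length `m` with `4 ≤ m < k`. -/
def LocLarge {V : Type} (S : SimpleGraph V) (k : ℕ) : Prop :=
  ∀ (v : V) (m : ℕ) (x : ℕ → V), 4 ≤ m → m < k →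
    (∀ i < m, S.Adj v (x i)) → (∀ i < m, ∀ j < m, x i = x j → i = j) →
    (∀ i j, i < j → j < m → (S.Adj (x i) (x j) ↔ (j = i + 1 ∨ (i = 0 ∧ j + 1 = m)))) → False

/-- The group `H` acts properly and cocompactly on a locally finite `k`-systolic complex: the flag
complex of a locally finite graph `S`, which is simply connected and locally `k`-large. -/
def Sys (k : ℕ) (H : Type) [Group H] : Prop :=
  ∃ (V : Type) (_ : MulAction H V) (_ : Nonempty V) (S : SimpleGraph V), (tri S).SC ∧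
    LocLarge S k ∧ (∀ (g : H) a b, S.Adj a b → S.Adj (g • a) (g • b)) ∧
    (∀ v, (S.neighborSet v).Finite) ∧ (∀ v : V, Finite (MulAction.stabilizer H v)) ∧
    ∃ F : Set V, F.Finite ∧ ∀ v : V, ∃ g : H, g • v ∈ F

section

variable {V G : Type} [Group G] [MulAction G V]

/-- the full subgraph spanned by the orbits of the elements of a finite set -/
def oG (G : Type) {V : Type} [Group G] [MulAction G V] (S : SimpleGraph V) (K : Finset V) :
    SimpleGraph V where
  Adj a b := S.Adj a b ∧ (∃ g : G, ∃ u ∈ K, g • u = a) ∧ ∃ g : G, ∃ u ∈ K, g • u = b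
  symm := ⟨fun _ _ h => ⟨h.1.symm, h.2.2, h.2.1⟩⟩
  loopless := ⟨fun a h => S.loopless.irrefl a h.1⟩

theorem oG_inv {S : SimpleGraph V} (hS : ∀ (g : G) a b, S.Adj a b → S.Adj (g • a) (g • b))
    (K : Finset V) : Inv G (tri (oG G S K)) := by
  have hadj : ∀ (g : G) a b, (oG G S K).Adj a b → (oG G S K).Adj (g • a) (g • b) := by
    rintro g a b ⟨h1, ⟨g1, u1, hu1, e1⟩, ⟨g2, u2, hu2, e2⟩⟩
    exact ⟨hS g a b h1, ⟨g * g1, u1, hu1, by rw [mul_smul, e1]⟩,
      ⟨g * g2, u2, hu2, by rw [mul_smul, e2]⟩⟩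
  refine ⟨hadj, ?_⟩
  rintro g l ⟨a, b, c, rfl, h1, h2, h3⟩
  exact ⟨g • a, g • b, g • c, rfl, hadj _ _ _ h1, hadj _ _ _ h2, hadj _ _ _ h3⟩

theorem tri_mono {S T : SimpleGraph V} (h : ∀ a b, S.Adj a b → T.Adj a b) : Le (tri S) (tri T) := by
  refine ⟨h, ?_⟩
  rintro l ⟨a, b, c, rfl, h1, h2, h3⟩
  exact ⟨a, b, c, rfl, h _ _ h1, h _ _ h2, h _ _ h3⟩

theorem oG_mono (S : SimpleGraph V) (K K' : Finset V) (h : K ≤ K') :
    Le (tri (oG G S K)) (tri (oG G S K')) := by
  apply tri_mono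
  rintro a b ⟨h1, ⟨g1, u1, hu1, e1⟩, ⟨g2, u2, hu2, e2⟩⟩
  exact ⟨h1, ⟨g1, u1, h hu1, e1⟩, ⟨g2, u2, h hu2, e2⟩⟩

theorem oG_le (S : SimpleGraph V) (K : Finset V) : Le (tri (oG G S K)) (tri S) :=
  tri_mono (fun _ _ h => h.1)

/-- the graph of the covering -/
def covG {V : Type} (T : SimpleGraph V) (o : V) : SimpleGraph (Cov (tri T) o) where
  Adj := cadj (tri T) o
  symm := ⟨fun p q h => cadj_symm (tri T) o p q h⟩
  loopless := ⟨fun _ h => T.loopless.irrefl _ h.1⟩

/-- two neighbours of a vertex of the covering are adjacent if their images are adjacent -/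
theorem cadj_of_adj {T : SimpleGraph V} {o : V} {v p q : Cov (tri T) o}
    (hp : cadj (tri T) o v p) (hq : cadj (tri T) o v q) (h : T.Adj p.pt q.pt) :
    cadj (tri T) o p q := by
  refine ⟨h, ?_⟩
  have hf : (tri T).face (v.pt :: [p.pt, q.pt]) := ⟨_, _, _, rfl, hp.1, h, hq.1⟩
  have h1 := ed_face (tri T) hf
  simp only [List.cons_append, List.nil_append, along_cons, along_single, mul_one] at h1
  have h2 : ed (tri T) q.pt v.pt * ed (tri T) v.pt q.pt = 1 := ed_ed (tri T) hq.1.symm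
  rw [hq.2, hp.2]
  have h3 : ed (tri T) v.pt p.pt * ed (tri T) p.pt q.pt = ed (tri T) v.pt q.pt := by
    have h4 : ed (tri T) v.pt p.pt * ed (tri T) p.pt q.pt * ed (tri T) q.pt v.pt = 1 := by
      rw [mul_assoc]; exact h1
    calc ed (tri T) v.pt p.pt * ed (tri T) p.pt q.pt
        = ed (tri T) v.pt p.pt * ed (tri T) p.pt q.pt *
          (ed (tri T) q.pt v.pt * ed (tri T) v.pt q.pt) := by rw [h2, mul_one]
      _ = ed (tri T) v.pt q.pt := by rw [← mul_assoc, h4, one_mul]
  rw [mul_assoc, h3]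

theorem covG_sc (T : SimpleGraph V) (o : V) : (tri (covG T o)).SC where
  conn := (cov_sc (tri T) o).conn
  triv := by
    intro Q _ φ h1 h2
    refine (cov_sc (tri T) o).triv Q φ h1 ?_
    intro a l hf
    apply h2
    obtain ⟨⟨a', b', c', e, h3, h4, h5⟩, hc⟩ := hf
    match l, e, hc with
    | [b, c], e, hc =>
      simp only [List.map_cons, List.map_nil, List.cons.injEq, and_true] at e
      obtain ⟨rfl, rfl, rfl⟩ := e
      refine ⟨a, b, c, rfl, hc a b [c] (List.IsRotated.refl _), hc b c [a] ⟨1, rfl⟩, ?_⟩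
      exact cadj_symm _ _ _ _ (hc c a [b] ⟨2, rfl⟩)

theorem covG_large {S : SimpleGraph V} {k : ℕ} (h : LocLarge S k) (K : Finset V) (o : V) :
    LocLarge (covG (oG G S K) o) k := by
  intro v m x hm hk hv hinj hfull
  have himm := cov_imm (tri (oG G S K)) (tri S) o (oG_le S K)
  refine h v.pt m (fun i => (x i).pt) hm hk (fun i hi => (hv i hi).1.1) ?_ ?_
  · intro i hi j hj e
    exact hinj i hi j hj (himm.inj v _ _ (hv i hi) (hv j hj) e)
  · intro i j hij hj
    rw [← hfull i j hij hj]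
    constructor
    · intro e
      have h1 := (hv i (hij.trans hj)).1.2.2
      have h2 := (hv j hj).1.2.2
      exact cadj_of_adj (hv i (hij.trans hj)) (hv j hj) ⟨e, h1, h2⟩
    · intro e
      exact e.1.1

theorem covG_orbits {S : SimpleGraph V}
    (hS : ∀ (g : G) a b, S.Adj a b → S.Adj (g • a) (g • b)) (K : Finset V) (o : V) :
    letI := gtGroup (oG_inv hS K) o
    letI := gtAct (oG_inv hS K) o
    ∃ F : Set (Cov (tri (oG G S K)) o), F.Finite ∧
      ∀ p : Cov (tri (oG G S K)) o, ∃ x : Gt G (tri (oG G S K)) o, x • p ∈ F := by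
  classical
  letI := gtGroup (oG_inv hS K) o
  letI := gtAct (oG_inv hS K) o
  obtain ⟨F, hF, hcov⟩ := cov_lists (oG_inv hS K) o
    ((fun u : V => [u]) '' (insert o K : Finset V)) ((insert o K).finite_toSet.image _)
  refine ⟨(fun p : Cov (tri (oG G S K)) o => [p]) ⁻¹' F, hF.preimage (fun p _ q _ h => ?_), ?_⟩
  · simpa using h
  · intro p
    obtain ⟨x, hx⟩ := hcov [p] (by simp) (by
      have h1 : ∃ g : G, ∃ u ∈ insert o K, g • u = p.pt := by
        have hr := p.r
        generalize p.pt = v at hr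
        generalize p.γ = γ at hr
        cases hr with
        | refl => exact ⟨1, o, by simp, one_smul G o⟩
        | step _ ha =>
          obtain ⟨g, u, hu, e⟩ := ha.2.2
          exact ⟨g, u, Finset.mem_insert_of_mem hu, e⟩
      obtain ⟨g, u, hu, e⟩ := h1
      exact ⟨[u], ⟨u, hu, rfl⟩, g, by simp [e]⟩)
    exact ⟨x, by simpa using hx⟩

/-- **Groups which act with finite stabilizers on locally finite `k`-systolic complexes** -/
theorem sys_main [Nonempty V] (k : ℕ) (S : SimpleGraph V) (hX : (tri S).SC) (hL : LocLarge S k)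
    (hS : ∀ (g : G) a b, S.Adj a b → S.Adj (g • a) (g • b))
    (hfin : ∀ v, (S.neighborSet v).Finite) (hst : ∀ v : V, Finite (MulAction.stabilizer G v)) :
    DirColim (fun H _ => Sys k H) G := by
  classical
  let o : V := Classical.arbitrary V
  refine colim_main (tri S) hX o (Finset V) ?_ (fun K => tri (oG G S K)) (fun K => oG_inv hS K)
    (oG_mono S) (oG_le S) ?_ ?_ ?_
  · intro i j
    exact ⟨i ⊔ j, le_sup_left, le_sup_right⟩
  · intro a b hab
    exact ⟨{a, b}, hab, ⟨1, a, by simp, one_smul _ _⟩, ⟨1, b, by simp, one_smul _ _⟩⟩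
  · rintro l ⟨a, b, c, rfl, h1, h2, h3⟩
    have ha : ∃ g : G, ∃ u ∈ ({a, b, c} : Finset V), g • u = a := ⟨1, a, by simp, one_smul _ _⟩
    have hb : ∃ g : G, ∃ u ∈ ({a, b, c} : Finset V), g • u = b := ⟨1, b, by simp, one_smul _ _⟩
    have hc : ∃ g : G, ∃ u ∈ ({a, b, c} : Finset V), g • u = c := ⟨1, c, by simp, one_smul _ _⟩
    exact ⟨{a, b, c}, a, b, c, rfl, ⟨h1, ha, hb⟩, ⟨h2, hb, hc⟩, ⟨h3, ha, hc⟩⟩
  · intro K
    letI := gtGroup (oG_inv hS K) o
    letI := gtAct (oG_inv hS K) o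
    haveI : Nonempty (Cov (tri (oG G S K)) o) := ⟨base _ o⟩
    refine ⟨Cov (tri (oG G S K)) o, gtAct (oG_inv hS K) o, inferInstance, covG (oG G S K) o,
      covG_sc _ o, covG_large hL K o, ?_, ?_, ?_, covG_orbits hS K o⟩
    · intro x a b hab
      exact (gt_inv (oG_inv hS K) o).adj x a b hab
    · intro p
      refine Set.Finite.of_finite_image (f := fun q : Cov (tri (oG G S K)) o => q.pt)
        ((hfin p.pt).subset ?_) ?_
      · rintro _ ⟨q, hq, rfl⟩
        exact hq.1.1
      · intro a ha b hb hab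
        exact (cov_imm (tri (oG G S K)) (tri S) o (oG_le S K)).inj p a b ha hb hab
    · intro p
      have := hst p.pt
      exact Finite.of_equiv _ (gtStab (oG_inv hS K) o p).symm.toEquiv

end

end Pool.Agent.H751.PC
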