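import Pool.Agent.H751.PC.Flat

/-!
# Cofinite actions, with infinite vertex stabilizers
-/

set_option autoImplicit false
set_option linter.style.haveILetI false

namespace Pool.Agent.H751.PC

open List

/-- finitely many orbits of vertices, edges and faces -/
structure Cofin (H : Type) {V : Type} [Group H] [MulAction H V] (X : Cx V) : Prop where
  verts : ∃ S : Set V, S.Finite ∧ ∀ v : V, ∃ g : H, g • v ∈ S
  edges : ∃ S : Set (V × V), S.Finite ∧ ∀ a b, X.adj a b → ∃ g : H, (g • a, g • b) ∈ S
  faces : ∃ S : Set (List V), S.Finite ∧ ∀ l, X.face l → ∃ g : H, l.map (g • ·) ∈ S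

/-- the stabilizers of the edges are finite -/
def FinEdges (H : Type) {V : Type} [Group H] [MulAction H V] (X : Cx V) : Prop :=
  ∀ a b, X.adj a b → {g : H | g • a = a ∧ g • b = b}.Finite

section lists

variable {V G : Type} [Group G] [MulAction G V]

/-- two chains of the covering whose images are translates of each other are translates -/
theorem gt_chain {Y : Cx V} (hI : Inv G Y) (o : V) (L L' : List (Cov Y o)) (g : G)
    (h1 : L.IsChain (cadj Y o)) (h2 : L'.IsChain (cadj Y o))
    (h : (L.map (fun p => p.pt)).map (g • ·) = L'.map (fun p => p.pt)) :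
    letI := gtGroup hI o; letI := gtAct hI o;
    ∃ x : Gt G Y o, L.map (x • ·) = L' := by
  letI := gtGroup hI o
  letI := gtAct hI o
  match L, L' with
  | [], [] => exact ⟨1, rfl⟩
  | [], _ :: _ => simp at h
  | _ :: _, [] => simp at h
  | p :: L, q :: L' =>
    simp only [List.map_cons, List.cons.injEq] at h
    obtain ⟨x, hx, hxp⟩ := gt_trans hI o p q g h.1
    refine ⟨x, ?_⟩
    rw [List.map_cons, hxp]
    congr 1
    refine lift_unique Y o (L.map (x • ·)) L' q ?_ h2 ?_
    · have h3 : ((p :: L).map (x • ·)).IsChain (cadj Y o) := by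
        rw [List.isChain_map]
        exact h1.imp (fun a b hab => (gt_inv hI o).adj x a b hab)
      rwa [List.map_cons, hxp] at h3
    · rw [← h.2, List.map_map, List.map_map]
      apply List.map_congr_left
      intro a _
      change x.g • a.pt = g • a.pt
      rw [hx]

/-- chains over the translates of a finite set of walks are in finitely many orbits -/
theorem cov_lists {Y : Cx V} (hI : Inv G Y) (o : V) (M : Set (List V)) (hM : M.Finite) :
    letI := gtGroup hI o; letI := gtAct hI o;
    ∃ S : Set (List (Cov Y o)), S.Finite ∧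
      ∀ L : List (Cov Y o), L.IsChain (cadj Y o) →
        (∃ m ∈ M, ∃ g : G, L.map (fun p => p.pt) = m.map (g • ·)) →
        ∃ x : Gt G Y o, L.map (x • ·) ∈ S := by
  classical
  letI := gtGroup hI o
  letI := gtAct hI o
  let pick : List V → List (Cov Y o) := fun m =>
    if h : ∃ L : List (Cov Y o), L.IsChain (cadj Y o) ∧
      ∃ g : G, L.map (fun p => p.pt) = m.map (g • ·) then h.choose else []
  refine ⟨pick '' M, hM.image _, ?_⟩
  rintro L hL ⟨m, hm, g, hg⟩
  have h : ∃ L : List (Cov Y o), L.IsChain (cadj Y o) ∧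
      ∃ g : G, L.map (fun p => p.pt) = m.map (g • ·) := ⟨L, hL, g, hg⟩
  have hpick : pick m = h.choose := dif_pos h
  obtain ⟨h1, g', hg'⟩ := h.choose_spec
  rw [← hpick] at h1 hg'
  obtain ⟨x, hx⟩ := gt_chain hI o L (pick m) (g' * g⁻¹) hL h1 (by
    rw [hg, hg', List.map_map]
    apply List.map_congr_left
    intro a _
    simp [mul_smul])
  exact ⟨x, m, hm, hx.symm⟩

theorem Cyc.isChain {W : Type} {r : W → W → Prop} {l : List W} (h : Cyc r l) : l.IsChain r := by
  match l with
  | [] => simp
  | [a] => simp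
  | a :: b :: l =>
    have h1 := h.chain (a := a) (l := b :: l) (by simp)
    have e : a :: (b :: l ++ [a]) = (a :: b :: l) ++ [a] := by simp
    rw [e, List.isChain_append] at h1
    exact h1.1

theorem cov_cofin {X : Cx V} (hI : Inv G X) (i : Finset (V × V) × Finset (List V)) (o : V) :
    letI := gtGroup (sub_inv hI i) o
    letI := gtAct (sub_inv hI i) o
    Cofin (Gt G (sub G X i) o) (cov (sub G X i) o) := by
  classical
  letI := gtGroup (sub_inv hI i) o
  letI := gtAct (sub_inv hI i) o
  refine ⟨cov_orbits hI i o, ?_, ?_⟩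
  · obtain ⟨S, hS, hcov⟩ := cov_lists (sub_inv hI i) o
      ((fun p : V × V => [p.1, p.2]) '' (i.1 : Set (V × V)) ∪
        (fun p : V × V => [p.2, p.1]) '' (i.1 : Set (V × V)))
      ((i.1.finite_toSet.image _).union (i.1.finite_toSet.image _))
    refine ⟨(fun p : Cov (sub G X i) o × Cov (sub G X i) o => [p.1, p.2]) ⁻¹' S,
      hS.preimage (fun p _ q _ h => ?_), ?_⟩
    · simp only [List.cons.injEq, and_true] at h
      exact Prod.ext h.1 h.2
    · intro a b hab
      obtain ⟨_, g, p, hp, ⟨e1, e2⟩ | ⟨e1, e2⟩⟩ := hab.1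
      · obtain ⟨x, hx⟩ := hcov [a, b] (List.isChain_cons_cons.2 ⟨hab, by simp⟩)
          ⟨[p.1, p.2], Or.inl ⟨p, hp, rfl⟩, g, by simp [e1, e2]⟩
        exact ⟨x, hx⟩
      · obtain ⟨x, hx⟩ := hcov [a, b] (List.isChain_cons_cons.2 ⟨hab, by simp⟩)
          ⟨[p.2, p.1], Or.inr ⟨p, hp, rfl⟩, g, by simp [e1, e2]⟩
        exact ⟨x, hx⟩
  · obtain ⟨S, hS, hcov⟩ := cov_lists (sub_inv hI i) o
      (⋃ m ∈ i.2, ({l | m ~r l} ∪ {l | m.reverse ~r l}))
      (Set.Finite.biUnion i.2.finite_toSet (fun m _ => by
        refine Set.Finite.union ?_ ?_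
        · refine (m.cyclicPermutations.finite_toSet).subset ?_
          intro l hl
          exact List.mem_cyclicPermutations_iff.2 (List.IsRotated.symm hl)
        · refine (m.reverse.cyclicPermutations.finite_toSet).subset ?_
          intro l hl
          exact List.mem_cyclicPermutations_iff.2 (List.IsRotated.symm hl)))
    refine ⟨S, hS, ?_⟩
    intro l hl
    apply hcov l hl.2.isChain
    obtain ⟨⟨_, _, g, m, hm, h3⟩, _⟩ := hl
    have h4 : ∃ m', (m ~r m' ∨ m.reverse ~r m') ∧
        l.map (fun p => p.pt) = m'.map (g • ·) := by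
      rcases h3 with h3 | h3
      · obtain ⟨n, hn⟩ := h3
        refine ⟨m.rotate n, Or.inl ⟨n, rfl⟩, ?_⟩
        rw [List.map_rotate, hn]
      · have h5 := h3.reverse
        rw [List.reverse_reverse, ← List.map_reverse] at h5
        obtain ⟨n, hn⟩ := h5
        refine ⟨m.reverse.rotate n, Or.inr ⟨n, rfl⟩, ?_⟩
        rw [List.map_rotate, hn]
    obtain ⟨m', h5, h6⟩ := h4
    refine ⟨m', Set.mem_biUnion hm ?_, g, h6⟩
    exact h5

theorem cov_edges {X : Cx V} (hI : Inv G X) (hE : FinEdges G X)
    (i : Finset (V × V) × Finset (List V)) (o : V) :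
    letI := gtGroup (sub_inv hI i) o
    letI := gtAct (sub_inv hI i) o
    FinEdges (Gt G (sub G X i) o) (cov (sub G X i) o) := by
  letI := gtGroup (sub_inv hI i) o
  letI := gtAct (sub_inv hI i) o
  intro a b hab
  refine Set.Finite.of_finite_image (f := fun x : Gt G (sub G X i) o => x.g)
    ((hE a.pt b.pt hab.1.1).subset ?_) ?_
  · rintro _ ⟨x, ⟨h1, h2⟩, rfl⟩
    exact ⟨congrArg (fun q : Cov (sub G X i) o => q.pt) h1,
      congrArg (fun q : Cov (sub G X i) o => q.pt) h2⟩
  · intro x hx y hy hxy
    exact gt_det (sub_inv hI i) o x y a hxy (hx.1.trans hy.1.symm)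

end lists

/-- a property of complexes with a group action which is inherited under equivariant immersions -/
def Hered (P : ∀ (H V : Type) [Group H] [MulAction H V], Cx V → Prop) : Prop :=
  ∀ (H V K W : Type) [Group H] [MulAction H V] [Group K] [MulAction K W] (X : Cx V) (Y : Cx W)
    (φ : K → H) (f : W → V), (∀ k w, f (k • w) = φ k • f w) → Imm Y X f → P H V X → P K W Y

/-- The group `H` acts with finitely many orbits of vertices, edges and faces on a simply connected
complex with the property `P`, such that the stabilizers of the edges are finite and the stabilizers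
of the vertices belong to the class `C`. -/
def Rel (P : ∀ (H V : Type) [Group H] [MulAction H V], Cx V → Prop)
    (C : ∀ (H : Type) [Group H], Prop) (H : Type) [Group H] : Prop :=
  ∃ (V : Type) (_ : MulAction H V) (_ : Nonempty V) (X : Cx V), X.SC ∧ P H V X ∧ Inv H X ∧
    Cofin H X ∧ FinEdges H X ∧ ∀ v : V, C (MulAction.stabilizer H v)

theorem rel_main {P : ∀ (H V : Type) [Group H] [MulAction H V], Cx V → Prop} (hP : Hered P)
    {C : ∀ (H : Type) [Group H], Prop}
    (hC : ∀ (H K : Type) [Group H] [Group K], Nonempty (H ≃* K) → C H → C K)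
    {G V : Type} [Group G] [MulAction G V] [Nonempty V] (X : Cx V) (hX : X.SC)
    (hPX : P G V X) (hI : Inv G X) (hE : FinEdges G X)
    (hV : ∀ v : V, C (MulAction.stabilizer G v)) :
    DirColim (fun H _ => Rel P C H) G := by
  let o : V := Classical.arbitrary V
  refine colim_sub X hI hX o ?_
  intro i
  letI := gtGroup (sub_inv hI i) o
  letI := gtAct (sub_inv hI i) o
  haveI : Nonempty (Cov (sub G X i) o) := ⟨base _ o⟩
  refine ⟨Cov (sub G X i) o, gtAct (sub_inv hI i) o, inferInstance, cov (sub G X i) o,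
    cov_sc (sub G X i) o, ?_, gt_inv (sub_inv hI i) o, cov_cofin hI i o, cov_edges hI hE i o, ?_⟩
  · exact hP G V (Gt G (sub G X i) o) (Cov (sub G X i) o) X (cov (sub G X i) o)
      (fun x => x.g) (fun p => p.pt) (fun x p => rfl) (cov_imm (sub G X i) X o (sub_le X i)) hPX
  · intro p
    exact hC _ _ ⟨(gtStab (sub_inv hI i) o p).symm⟩ (hV p.pt)

end Pool.Agent.H751.PC
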