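import Pool.Agent.H751.PC.Trees

/-!
# Products of two trees are flat
-/

set_option autoImplicit false
set_option linter.style.haveILetI false

namespace Pool.Agent.H751.PC

open List

theorem square_polygon {V : Type} {x0 x1 x2 x3 : V} (hn : [x0, x1, x2, x3].Nodup) :
    ∃ p : V → ℂ,
    (∀ a b c, [a, b, c] <+ [x0, x1, x2, x3] → 0 < orient (p a) (p b) (p c)) ∧
    (∀ a b m, [x0, x1, x2, x3] ~r (a :: b :: m) → ‖p a - p b‖ = 1) ∧
    (∀ a v b m, [x0, x1, x2, x3] ~r (a :: v :: b :: m) →
      InnerProductGeometry.angle (p a - p v) (p b - p v) = Real.pi / 2) := by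
  classical
  simp only [List.nodup_cons, List.mem_cons, List.not_mem_nil, or_false, not_or,
    not_false_eq_true, List.nodup_nil, and_true] at hn
  obtain ⟨⟨h01, h02, h03⟩, ⟨h12, h13⟩, h23⟩ := hn
  obtain ⟨p, p0, p1, p2, p3⟩ : ∃ p : V → ℂ, p x0 = 0 ∧ p x1 = 1 ∧ p x2 = 1 + Complex.I ∧
      p x3 = Complex.I := by
    refine ⟨fun x => if x = x0 then 0 else if x = x1 then 1 else if x = x2 then 1 + Complex.I
      else Complex.I, ?_, ?_, ?_, ?_⟩
    · simp
    · simp [Ne.symm h01]
    · simp [Ne.symm h02, Ne.symm h12]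
    · simp [Ne.symm h03, Ne.symm h13, Ne.symm h23]
  refine ⟨p, ?_, ?_, ?_⟩
  · intro a b c h
    rw [← List.mem_sublists'] at h
    simp only [List.sublists'_cons, List.sublists'_nil, List.map_cons, List.map_nil,
      List.mem_cons, List.not_mem_nil, List.cons.injEq, List.nil_append,
      List.cons_append, reduceCtorEq, and_false, false_or, or_false, and_true] at h
    rcases h with h | h | h | h <;>
    · obtain ⟨rfl, rfl, rfl⟩ := h
      simp [orient, p0, p1, p2, p3]
  · intro a b m h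
    rw [List.isRotated_iff_mod] at h
    obtain ⟨n, hn, h⟩ := h
    simp only [List.length_cons, List.length_nil] at hn
    interval_cases n <;>
    · simp only [List.rotate_cons_succ, List.rotate_zero, List.cons_append, List.nil_append,
        List.cons.injEq] at h
      obtain ⟨rfl, rfl, _⟩ := h
      simp [p0, p1, p2, p3]
  · intro a v b m h
    rw [List.isRotated_iff_mod] at h
    obtain ⟨n, hn, h⟩ := h
    simp only [List.length_cons, List.length_nil] at hn
    rw [← InnerProductGeometry.inner_eq_zero_iff_angle_eq_pi_div_two]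
    interval_cases n <;>
    · simp only [List.rotate_cons_succ, List.rotate_zero, List.cons_append, List.nil_append,
        List.cons.injEq] at h
      obtain ⟨rfl, rfl, rfl, _⟩ := h
      simp [p0, p1, p2, p3, Complex.inner]

section prod

variable {V W : Type} (S : SimpleGraph V) (T : SimpleGraph W)

/-- a corner of a square has one horizontal and one vertical edge -/
theorem pface_corner {x v y : V × W} {l : List (V × W)} (h : pface S T (x :: v :: y :: l)) :
    (x.2 = v.2 ∧ S.Adj x.1 v.1 ∧ y.1 = v.1 ∧ T.Adj v.2 y.2 ∧ l = [(x.1, y.2)]) ∨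
    (x.1 = v.1 ∧ T.Adj x.2 v.2 ∧ y.2 = v.2 ∧ S.Adj v.1 y.1 ∧ l = [(y.1, x.2)]) := by
  obtain ⟨a, a', b, b', h1, h2, h3 | h3⟩ := h
  · simp only [List.cons.injEq] at h3
    obtain ⟨rfl, rfl, rfl, rfl⟩ := h3
    exact Or.inl ⟨rfl, h1, rfl, h2, rfl⟩
  · simp only [List.cons.injEq] at h3
    obtain ⟨rfl, rfl, rfl, rfl⟩ := h3
    exact Or.inr ⟨rfl, h2, rfl, h1, rfl⟩

theorem prod_flat : Flat (prodCx S T) (fun _ _ => 1) (fun _ _ _ => Real.pi / 2) where
  len_pos _ _ _ := one_pos
  len_symm _ _ := rfl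
  ang_symm _ _ _ := rfl
  polygon l hl := by
    have hn := (prodCx S T).nodup l hl
    obtain ⟨a, a', b, b', h1, h2, rfl | rfl⟩ := hl
    · exact square_polygon hn
    · exact square_polygon hn
  corner x v y l l' h h' := by
    rcases pface_corner S T h with ⟨e1, e2, e3, e4, e5⟩ | ⟨e1, e2, e3, e4, e5⟩ <;>
    rcases pface_corner S T h' with ⟨f1, f2, f3, f4, f5⟩ | ⟨f1, f2, f3, f4, f5⟩
    · rw [e5, f5]
    · exact absurd f1 e2.ne
    · exact absurd e1 f2.ne
    · rw [e5, f5]
  link v m x hm hx hinj hf := by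
    have key : ∀ i < m, ((x i).2 = v.2 ↔ ¬ (x (i + 1)).2 = v.2) := by
      intro i hi
      obtain ⟨l, hl⟩ := hf i hi
      rcases pface_corner S T hl with ⟨e1, e2, e3, e4, e5⟩ | ⟨e1, e2, e3, e4, e5⟩
      · exact ⟨fun _ h => e4.ne h.symm, fun _ => e1⟩
      · exact ⟨fun h => absurd h e2.ne, fun h => absurd e3 h⟩
    have hm4 : 4 ≤ m := by
      by_contra hlt
      have hm3 : m = 3 := by omega
      subst hm3
      have k0 := key 0 (by norm_num)
      have k1 := key 1 (by norm_num)
      have k2 := key 2 (by norm_num)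
      norm_num at k0 k1 k2
      rw [hx] at k2
      tauto
    rw [Finset.sum_const, Finset.card_range, nsmul_eq_mul]
    have : (4 : ℝ) ≤ m := by exact_mod_cast hm4
    nlinarith [Real.pi_pos]

end prod

/-- **Groups which act on two trees such that the stabilizers of the pairs of vertices are
finite.** -/
theorem trees_main (G V W : Type) [Group G] [MulAction G V] [MulAction G W] (S : SimpleGraph V)
    (T : SimpleGraph W) (hS : S.IsTree) (hT : T.IsTree)
    (hSG : ∀ (g : G) a b, S.Adj a b → S.Adj (g • a) (g • b))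
    (hTG : ∀ (g : G) a b, T.Adj a b → T.Adj (g • a) (g • b))
    (hfin : ∀ (a : V) (b : W), {g : G | g • a = a ∧ g • b = b}.Finite) :
    DirColim (fun H _ => Cat0 H) G := by
  haveI := hS.connected.nonempty
  haveI := hT.connected.nonempty
  refine flat_main (G := G) (prodCx S T) (fun _ _ => 1) (fun _ _ _ => Real.pi / 2)
    (prod_sc S T hS hT) (prod_flat S T) ⟨fun _ _ _ => rfl, fun _ _ _ _ => rfl⟩ ⟨⟨?_, ?_⟩, ?_⟩
  · rintro g ⟨a, b⟩ ⟨a', b'⟩ (⟨h1, h2⟩ | ⟨h1, h2⟩)
    · exact Or.inl ⟨hSG g _ _ h1, congrArg (fun x : W => g • x) h2⟩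
    · exact Or.inr ⟨congrArg (fun x : V => g • x) h1, hTG g _ _ h2⟩
  · rintro g l ⟨a, a', b, b', h1, h2, rfl | rfl⟩
    · exact ⟨g • a, g • a', g • b, g • b', hSG g _ _ h1, hTG g _ _ h2, Or.inl rfl⟩
    · exact ⟨g • a, g • a', g • b, g • b', hSG g _ _ h1, hTG g _ _ h2, Or.inr rfl⟩
  · rintro ⟨a, b⟩
    refine (Set.Finite.subset (hfin a b) ?_).to_subtype
    intro g hg
    have : g • (a, b) = (a, b) := hg
    exact ⟨congrArg Prod.fst this, congrArg Prod.snd this⟩

end Pool.Agent.H751.PC
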