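import Pool.Agent.H751.PC.Flat

/-!
# Products of two trees
-/

set_option autoImplicit false
set_option linter.style.haveILetI false

namespace Pool.Agent.H751.PC

open List

/-! ## functions on the edges of a tree -/

section tree

variable {V Q : Type} [Group Q] (T : SimpleGraph V) (ψ : V → V → Q)

/-- the product along a walk -/
def wp : ∀ {u v : V}, T.Walk u v → Q
  | _, _, .nil => 1
  | u, _, .cons (v := v) _ p => ψ u v * wp p

theorem wp_concat : ∀ {u v w : V} (p : T.Walk u v) (h : T.Adj v w),
    wp T ψ (p.concat h) = wp T ψ p * ψ v w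
  | _, _, _, .nil, h => by
    simp [SimpleGraph.Walk.concat_nil, wp]
  | _, _, _, .cons h' p, h => by
    rw [SimpleGraph.Walk.concat_cons, wp, wp, wp_concat p h, mul_assoc]

theorem tree_cob (hT : T.IsTree) (o : V) (h : ∀ a b, T.Adj a b → ψ a b * ψ b a = 1) :
    ∃ F : V → Q, F o = 1 ∧ ∀ a b, T.Adj a b → ψ a b = (F a)⁻¹ * F b := by
  have hex : ∀ a, ∃ p : T.Walk o a, p.IsPath := fun a => (hT.existsUnique_path o a).exists
  choose p hp using hex
  refine ⟨fun a => wp T ψ (p a), ?_, ?_⟩
  · have : p o = SimpleGraph.Walk.nil :=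
      (hT.existsUnique_path o o).unique (hp o) SimpleGraph.Walk.IsPath.nil
    simp only [this]
    rfl
  · intro a b hab
    change ψ a b = (wp T ψ (p a))⁻¹ * wp T ψ (p b)
    by_cases hv : a ∈ (p b).support
    · have := hT.isAcyclic.path_concat (hp a) (hp b) hab hv
      rw [this, wp_concat, inv_mul_cancel_left]
    · have hw := hT.isAcyclic.mem_support_of_ne_mem_support_of_adj_of_isPath (hp a) (hp b) hab hv
      have := hT.isAcyclic.path_concat (hp b) (hp a) hab.symm hw
      rw [this, wp_concat, mul_inv_rev, mul_assoc, inv_mul_cancel, mul_one]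
      exact eq_inv_of_mul_eq_one_left (h a b hab)

end tree

section prod

variable {V W : Type} (S : SimpleGraph V) (T : SimpleGraph W)

/-- adjacency in the product -/
def padj (x y : V × W) : Prop := (S.Adj x.1 y.1 ∧ x.2 = y.2) ∨ (x.1 = y.1 ∧ T.Adj x.2 y.2)

/-- the squares of the product -/
def pface (l : List (V × W)) : Prop :=
  ∃ a a' : V, ∃ b b' : W, S.Adj a a' ∧ T.Adj b b' ∧
    (l = [(a, b), (a', b), (a', b'), (a, b')] ∨ l = [(a, b), (a, b'), (a', b'), (a', b)])

theorem pface_rot1 {x : V × W} {l : List (V × W)} (h : pface S T (x :: l)) :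
    pface S T (l ++ [x]) := by
  obtain ⟨a, a', b, b', h1, h2, h3 | h3⟩ := h
  · simp only [List.cons.injEq] at h3
    obtain ⟨rfl, rfl⟩ := h3
    exact ⟨a', a, b, b', h1.symm, h2, Or.inr rfl⟩
  · simp only [List.cons.injEq] at h3
    obtain ⟨rfl, rfl⟩ := h3
    exact ⟨a, a', b', b, h1, h2.symm, Or.inl rfl⟩

theorem pface_rotate (n : ℕ) : ∀ {l : List (V × W)}, pface S T l → pface S T (l.rotate n) := by
  induction n with
  | zero => intro l h; simpa using h
  | succ n ih =>
    intro l h
    match l, h with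
    | [], h => simpa using h
    | x :: l, h =>
      rw [List.rotate_cons_succ]
      exact ih (pface_rot1 S T h)

/-- the product of two graphs -/
def prodCx : Cx (V × W) where
  adj := padj S T
  face := pface S T
  symm a b h := by
    rcases h with ⟨h1, h2⟩ | ⟨h1, h2⟩
    · exact Or.inl ⟨h1.symm, h2.symm⟩
    · exact Or.inr ⟨h1.symm, h2.symm⟩
  irr a h := by
    rcases h with ⟨h1, _⟩ | ⟨_, h2⟩
    · exact h1.ne rfl
    · exact h2.ne rfl
  rot l l' h hf := by
    obtain ⟨n, rfl⟩ := h
    exact pface_rotate S T n hf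
  rev l hf := by
    obtain ⟨a, a', b, b', h1, h2, rfl | rfl⟩ := hf
    · exact ⟨a, a', b', b, h1, h2.symm, Or.inl rfl⟩
    · exact ⟨a', a, b, b', h1.symm, h2, Or.inr rfl⟩
  three l hf := by
    obtain ⟨a, a', b, b', h1, h2, rfl | rfl⟩ := hf <;> simp
  nodup l hf := by
    obtain ⟨a, a', b, b', h1, h2, rfl | rfl⟩ := hf <;>
      simp [h1.ne, h1.ne', h2.ne, h2.ne']
  edge x y l hf := by
    obtain ⟨a, a', b, b', h1, h2, h3 | h3⟩ := hf
    · simp only [List.cons.injEq] at h3
      obtain ⟨rfl, rfl, _⟩ := h3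
      exact Or.inl ⟨h1, rfl⟩
    · simp only [List.cons.injEq] at h3
      obtain ⟨rfl, rfl, _⟩ := h3
      exact Or.inr ⟨rfl, h2⟩

theorem reach_tree {S : SimpleGraph V} {r : V → V → Prop} (h : ∀ a b, S.Adj a b → r a b) {a b : V}
    (hab : S.Reachable a b) : Relation.ReflTransGen r a b := by
  obtain ⟨p⟩ := hab
  induction p with
  | nil => exact Relation.ReflTransGen.refl
  | cons h' _ ih => exact Relation.ReflTransGen.head (h _ _ h') ih

theorem prod_sc (hS : S.IsTree) (hT : T.IsTree) : (prodCx S T).SC where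
  conn := by
    rintro ⟨a, b⟩ ⟨a', b'⟩
    have h1 : Relation.ReflTransGen (padj S T) (a, b) (a', b) := by
      have := reach_tree (S := S) (r := fun x y => padj S T (x, b) (y, b))
        (fun x y h => Or.inl ⟨h, rfl⟩) (hS.connected.preconnected a a')
      exact Relation.ReflTransGen.lift (fun x => (x, b)) (fun _ _ h => h) _ _ this
    have h2 : Relation.ReflTransGen (padj S T) (a', b) (a', b') := by
      have := reach_tree (S := T) (r := fun x y => padj S T (a', x) (a', y))
        (fun x y h => Or.inr ⟨rfl, h⟩) (hT.connected.preconnected b b')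
      exact Relation.ReflTransGen.lift (fun x => (a', x)) (fun _ _ h => h) _ _ this
    exact h1.trans h2
  triv := by
    intro Q _ φ h1 h2
    haveI := hS.connected.nonempty
    haveI := hT.connected.nonempty
    let oa : V := Classical.arbitrary V
    let ob : W := Classical.arbitrary W
    obtain ⟨F, _, hF⟩ := tree_cob S (fun a a' => φ (a, ob) (a', ob)) hS oa
      (fun a b hab => h1 _ _ (Or.inl ⟨hab, rfl⟩))
    have hG : ∀ a : V, ∃ H : W → Q, H ob = 1 ∧
        ∀ b b', T.Adj b b' → φ (a, b) (a, b') = (H b)⁻¹ * H b' := fun a =>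
      tree_cob T (fun b b' => φ (a, b) (a, b')) hT ob (fun b b' hab => h1 _ _ (Or.inr ⟨rfl, hab⟩))
    choose H hH0 hH using hG
    have hor : ∀ (b : W), Relation.ReflTransGen T.Adj ob b → ∀ a a', S.Adj a a' →
        φ (a, b) (a', b) = (F a * H a b)⁻¹ * (F a' * H a' b) := by
      intro b hb
      induction hb with
      | refl =>
        intro a a' haa
        rw [hH0, hH0, mul_one, mul_one]
        exact hF a a' haa
      | @tail b b' _ hbb ih =>
        intro a a' haa
        have e1 := ih a a' haa
        have e2 := hH a b b' hbb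
        have e3 := hH a' b b' hbb
        have e4 := h2 (a, b) [(a', b), (a', b'), (a, b')] ⟨a, a', b, b', haa, hbb, Or.inl rfl⟩
        have e5 := h1 (a', b') (a, b') (Or.inl ⟨haa.symm, rfl⟩)
        have e6 := h1 (a, b') (a, b) (Or.inr ⟨rfl, hbb.symm⟩)
        simp only [List.cons_append, List.nil_append, along_cons, along_single, mul_one] at e4
        -- φ(a,b)(a',b) φ(a',b)(a',b') φ(a',b')(a,b') φ(a,b')(a,b) = 1
        have e7 : φ (a, b') (a, b) = (φ (a, b) (a, b'))⁻¹ :=
          eq_inv_of_mul_eq_one_left e6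
        have e8 : φ (a, b') (a', b') = (φ (a', b') (a, b'))⁻¹ :=
          (inv_eq_of_mul_eq_one_right e5).symm
        rw [e8]
        rw [e7] at e4
        have e9 : (φ (a', b') (a, b'))⁻¹ =
            (φ (a, b) (a, b'))⁻¹ * φ (a, b) (a', b) * φ (a', b) (a', b') := by
          rw [eq_comm, eq_inv_iff_mul_eq_one]
          have := congrArg (fun x => (φ (a, b) (a, b'))⁻¹ * x * φ (a, b) (a, b')) e4
          simp only [mul_one, inv_mul_cancel] at this
          rw [← this]
          group
        rw [e9, e1, e2, e3]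
        group
    refine ⟨fun x => F x.1 * H x.1 x.2, ?_⟩
    rintro ⟨a, b⟩ ⟨a', b'⟩ (⟨h3, h4⟩ | ⟨h3, h4⟩)
    · simp only at h3 h4
      subst h4
      exact hor b (reach_tree (fun _ _ h => h) (hT.connected.preconnected ob b)) a a' h3
    · simp only at h3 h4
      subst h3
      change φ (a, b) (a, b') = (F a * H a b)⁻¹ * (F a * H a b')
      rw [hH a b b' h4]
      group

end prod

end Pool.Agent.H751.PC
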