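import Pool.Agent.H751.PC.Rel

/-!
# The colimit theorem with a varying group
-/

set_option autoImplicit false
set_option linter.style.haveILetI false

namespace Pool.Agent.H751.PC

open List

variable {V G : Type} [Group G] [MulAction G V]

theorem Inv.subgroup {Y : Cx V} (h : Inv G Y) (L : Subgroup G) : Inv L Y :=
  ⟨fun g a b => h.adj g.1 a b, fun g l => h.face g.1 l⟩

theorem incl_ac_var {L M : Subgroup G} (hLM : L ≤ M) {Y Z : Cx V} (hY : Inv L Y) (hZ : Inv M Z)
    (h : Le Y Z) (g : L) (x : Pg Y) :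
    incl h (ac hY g x) = ac hZ (Subgroup.inclusion hLM g) (incl h x) := by
  have : (incl h).comp (ac hY g) = (ac hZ (Subgroup.inclusion hLM g)).comp (incl h) :=
    hom_ext (by
      intro a b
      simp only [MonoidHom.comp_apply, ac_ed, incl_ed]
      rfl)
  exact DFunLike.congr_fun this x

/-- the transition homomorphisms -/
def trVar {L M : Subgroup G} (hLM : L ≤ M) {Y Z : Cx V} (hY : Inv L Y) (hZ : Inv M Z)
    (h : Le Y Z) (o : V) :
    letI := gtGroup hY o; letI := gtGroup hZ o; Gt L Y o →* Gt M Z o :=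
  letI := gtGroup hY o
  letI := gtGroup hZ o
  MonoidHom.mk' (fun x => ⟨Subgroup.inclusion hLM x.g, incl h x.γ, x.r.incl h⟩) (by
    intro x y
    apply Gt.ext'
    · rfl
    · change incl h (x.γ * ac hY x.g y.γ) =
        incl h x.γ * ac hZ (Subgroup.inclusion hLM x.g) (incl h y.γ)
      rw [map_mul, incl_ac_var hLM hY hZ])

/-- the projection to `G` -/
def pjVar (L : Subgroup G) {Y : Cx V} (hY : Inv L Y) (o : V) :
    letI := gtGroup hY o; Gt L Y o →* G :=
  letI := gtGroup hY o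
  MonoidHom.mk' (fun x => (x.g : G)) (by intro x y; rfl)

theorem trVar_g {L M : Subgroup G} (hLM : L ≤ M) {Y Z : Cx V} (hY : Inv L Y) (hZ : Inv M Z)
    (h : Le Y Z) (o : V) (x : Gt L Y o) :
    letI := gtGroup hY o; letI := gtGroup hZ o;
    (trVar hLM hY hZ h o x).g = Subgroup.inclusion hLM x.g := rfl

theorem trVar_γ {L M : Subgroup G} (hLM : L ≤ M) {Y Z : Cx V} (hY : Inv L Y) (hZ : Inv M Z)
    (h : Le Y Z) (o : V) (x : Gt L Y o) :
    letI := gtGroup hY o; letI := gtGroup hZ o;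
    (trVar hLM hY hZ h o x).γ = incl h x.γ := rfl

theorem pjVar_apply (L : Subgroup G) {Y : Cx V} (hY : Inv L Y) (o : V) (x : Gt L Y o) :
    letI := gtGroup hY o; pjVar L hY o x = (x.g : G) := rfl

theorem trVar_self {L : Subgroup G} (hL : L ≤ L) {Y : Cx V} (hY : Inv L Y) (h : Le Y Y) (o : V)
    (x : Gt L Y o) : letI := gtGroup hY o; trVar hL hY hY h o x = x := by
  apply Gt.ext'
  · rw [trVar_g]; rfl
  · rw [trVar_γ, incl_self]

theorem trVar_trVar {L M N : Subgroup G} (h1 : L ≤ M) (h2 : M ≤ N) (h3 : L ≤ N) {Y Z W : Cx V}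
    (hY : Inv L Y) (hZ : Inv M Z) (hW : Inv N W) (h : Le Y Z) (h' : Le Z W) (h'' : Le Y W) (o : V)
    (x : Gt L Y o) :
    letI := gtGroup hY o; letI := gtGroup hZ o; letI := gtGroup hW o;
    trVar h2 hZ hW h' o (trVar h1 hY hZ h o x) = trVar h3 hY hW h'' o x := by
  apply Gt.ext'
  · rw [trVar_g, trVar_g, trVar_g]; rfl
  · rw [trVar_γ, trVar_γ, trVar_γ, incl_incl h h' h'']

theorem pjVar_trVar {L M : Subgroup G} (hLM : L ≤ M) {Y Z : Cx V} (hY : Inv L Y) (hZ : Inv M Z)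
    (h : Le Y Z) (o : V) (x : Gt L Y o) :
    letI := gtGroup hY o; letI := gtGroup hZ o;
    pjVar M hZ o (trVar hLM hY hZ h o x) = pjVar L hY o x := by
  rw [pjVar_apply, pjVar_apply, trVar_g]; rfl

section fam

variable {X : Cx V} {I : Type} [Preorder I] [Nonempty I] {Y : I → Cx V}

theorem famVar_surj (hX : X.SC) (o : V) (dir : ∀ i j : I, ∃ k, i ≤ k ∧ j ≤ k)
    (mono : ∀ i j, i ≤ j → Le (Y i) (Y j))
    (hadj : ∀ a b, X.adj a b → ∃ i, (Y i).adj a b) (L : I → Subgroup G)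
    (hL : ∀ i j, i ≤ j → L i ≤ L j) (hG : ∀ g : G, ∃ i, g ∈ L i) (y : G) :
    ∃ i, ∃ x : Gt (L i) (Y i) o, (x.g : G) = y := by
  have key : ∀ w, Relation.ReflTransGen X.adj o w → ∃ i, ∃ γ, Reach (Y i) o w γ := by
    intro w hw
    induction hw with
    | refl => exact ⟨Classical.arbitrary I, 1, Reach.refl⟩
    | @tail b c _ hbc ih =>
      obtain ⟨i, γ, hr⟩ := ih
      obtain ⟨j, hj⟩ := hadj _ _ hbc
      obtain ⟨k, hik, hjk⟩ := dir i j
      exact ⟨k, _, (hr.incl (mono i k hik)).step ((mono j k hjk).adj _ _ hj)⟩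
  obtain ⟨i, γ, hr⟩ := key (y • o) (hX.conn _ _)
  obtain ⟨j, hj⟩ := hG y
  obtain ⟨k, hik, hjk⟩ := dir i j
  exact ⟨k, ⟨⟨y, hL j k hjk hj⟩, _, hr.incl (mono i k hik)⟩, rfl⟩

end fam

/-- **The colimit theorem**, for a directed family of subgroups and subcomplexes. -/
theorem colim_var {D : ∀ (G : Type) [Group G], Prop}
    (X : Cx V) (hX : X.SC) (o : V) (I : Type) [inst : Preorder I] [inst' : Nonempty I]
    (dir : ∀ i j : I, ∃ k, i ≤ k ∧ j ≤ k) (L : I → Subgroup G) (hL : ∀ i j, i ≤ j → L i ≤ L j)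
    (hG : ∀ g : G, ∃ i, g ∈ L i) (Y : I → Cx V) (hI : ∀ i, Inv (L i) (Y i))
    (mono : ∀ i j, i ≤ j → Le (Y i) (Y j)) (hle : ∀ i, Le (Y i) X)
    (hadj : ∀ a b, X.adj a b → ∃ i, (Y i).adj a b)
    (hface : ∀ l, X.face l → ∃ i, (Y i).face l)
    (hC' : ∀ i, @D (Gt (L i) (Y i) o) (gtGroup (hI i) o)) : DirColim D G := by
  refine ⟨I, inst, inst', fun i => Gt (L i) (Y i) o,
    fun i => gtGroup (hI i) o,
    fun i j h => trVar (hL i j h) (hI i) (hI j) (mono i j h) o,
    fun i => pjVar (L i) (hI i) o, dir, ?_, ?_, ?_, ?_, ?_, hC'⟩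
  · intro i h x
    exact trVar_self _ (hI i) _ o x
  · intro i j k h h' x
    exact trVar_trVar _ _ _ (hI i) (hI j) (hI k) _ _ _ o x
  · intro i j h x
    exact pjVar_trVar _ (hI i) (hI j) _ o x
  · intro y
    obtain ⟨i, x, hx⟩ := famVar_surj hX o dir mono hadj L hL hG y
    exact ⟨i, x, hx⟩
  · intro i x hx
    letI := gtGroup (hI i) o
    have hx2 : (x.g : G) = 1 := hx
    have hx' : x.g = 1 := Subtype.ext hx2
    have hr : Reach (Y i) o o x.γ := by
      have := x.r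
      rwa [hx', one_smul] at this
    obtain ⟨k, hik, hk⟩ := fam_ker hX o dir mono hle hadj hface i x.γ hr
    refine ⟨k, hik, ?_⟩
    letI := gtGroup (hI k) o
    apply Gt.ext'
    · rw [trVar_g, hx', map_one]
      rfl
    · rw [trVar_γ]
      exact hk

open Classical in
/-- **The colimit theorem** for the finitely generated subgroups and the cofinite subcomplexes. -/
theorem colim_fg {D : ∀ (G : Type) [Group G], Prop}
    (X : Cx V) (hI : Inv G X) (hX : X.SC) (o : V)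
    (h : ∀ (F : Finset G) (i : Finset (V × V) × Finset (List V)),
      @D (Gt (Subgroup.closure (F : Set G)) (sub (Subgroup.closure (F : Set G)) X i) o)
        (gtGroup (sub_inv (hI.subgroup (Subgroup.closure (F : Set G))) i) o)) :
    DirColim D G := by
  refine colim_var X hX o (Finset G × (Finset (V × V) × Finset (List V))) ?_
    (fun i => Subgroup.closure (i.1 : Set G)) ?_ ?_
    (fun i => sub (Subgroup.closure (i.1 : Set G)) X i.2)
    (fun i => sub_inv (hI.subgroup _) i.2) ?_ (fun i => sub_le X i.2) ?_ ?_ (fun i => h i.1 i.2)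
  · intro i j
    exact ⟨i ⊔ j, le_sup_left, le_sup_right⟩
  · intro i j hij
    exact Subgroup.closure_mono (Finset.coe_subset.2 hij.1)
  · intro g
    exact ⟨({g}, (∅, ∅)), Subgroup.subset_closure (by simp)⟩
  · intro i j hij
    have hL : Subgroup.closure (i.1 : Set G) ≤ Subgroup.closure (j.1 : Set G) :=
      Subgroup.closure_mono (Finset.coe_subset.2 hij.1)
    have hadj : ∀ a b, oadj (Subgroup.closure (i.1 : Set G)) X i.2.1 a b →
        oadj (Subgroup.closure (j.1 : Set G)) X j.2.1 a b := by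
      rintro a b ⟨h1, g, p, hp, h2⟩
      exact ⟨h1, ⟨g.1, hL g.2⟩, p, hij.2.1 hp, h2⟩
    refine ⟨hadj, ?_⟩
    rintro l ⟨h1, h2, g, m, hm, h3⟩
    exact ⟨h1, fun a b m hm => hadj _ _ (h2 a b m hm), ⟨g.1, hL g.2⟩, m, hij.2.2 hm, h3⟩
  · intro a b hab
    exact ⟨(∅, ({(a, b)}, ∅)), hab, 1, (a, b), by simp, Or.inl ⟨one_smul _ _, one_smul _ _⟩⟩
  · intro l hl
    refine ⟨(∅, (l.toFinset ×ˢ l.toFinset, {l})), hl, ?_, 1, l, by simp, Or.inl ?_⟩
    · intro a b m hm
      refine ⟨X.face_cyc hl a b m hm, 1, (a, b), ?_, Or.inl ⟨one_smul _ _, one_smul _ _⟩⟩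
      rw [Finset.mem_product, List.mem_toFinset, List.mem_toFinset]
      exact ⟨hm.mem_iff.2 (by simp), hm.mem_iff.2 (by simp)⟩
    · simp only [one_smul, List.map_id']
      exact List.IsRotated.refl _

end Pool.Agent.H751.PC
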